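import Pool.Agent.H81.AS.KPCore
import Pool.Agent.H16.MT17

/-!
Approximate Cunningham chains (`MP_c183ae_nt`): definitions. `M` scales `i < M`; the forms `2^i n + h`, `h ∈ B` (odd).
With `N = 2^(M-1) n` and `A_i = 2^(M-1-i)`: `A_i (2^i n + h) = N + x`, `x = A_i h` the position of `(i,h)`.
-/

set_option autoImplicit false

open Finset Filter Topology

namespace Pool.Agent.H81.CC

open Pool.Agent.H16 Pool.Agent.H81.AS

/-- `A_i = 2^(M-1-i)` -/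
def Ai (M i : ℕ) : ℕ := 2 ^ (M - 1 - i)

/-- `ℓ_i = ℓ - log A_i` -/
noncomputable def li (M i : ℕ) (ℓ : ℝ) : ℝ := ℓ - Real.log (Ai M i)

/-- the position of the shift `h` at the scale `i` -/
def ps (M i h : ℕ) : ℕ := Ai M i * h

/-- all positions -/
def Hp (M : ℕ) (B : Finset ℕ) : Finset ℕ := (range M).biUnion fun i => B.image (ps M i)

/-- the integers `N` -/
noncomputable def SM (M : ℕ) (ℓ : ℝ) (e b : ℕ) : Finset ℕ :=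
  (Ioc 0 ⌊Real.exp ℓ⌋₊).filter (fun n => n ≡ b [MOD 2 ^ (M - 1) * WW ℓ e])

/-- the prime weight of the position `x` at the scale `i` -/
noncomputable def aM (M y : ℕ) (ℓ : ℝ) (i x n : ℕ) : ℝ := aw (li M i ℓ) y ((n + x) / Ai M i)

/-- admissible residue classes -/
def AdmB (M : ℕ) (H : Finset ℕ) (ℓ : ℝ) (e b : ℕ) : Prop :=
  2 ^ M ∣ b ∧ ∀ p : ℕ, p.Prime → p ≤ wz ℓ → p ≠ e → p ≠ 2 → ∀ x ∈ H, ¬ p ∣ b + x

/-- total mass of the integers -/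
noncomputable def X0 (M : ℕ) (ℓ : ℝ) (e : ℕ) : ℝ := Real.exp ℓ / ((2 ^ (M - 1) * WW ℓ e : ℕ) : ℝ)

/-- total mass of the primes at the scale `i` -/
noncomputable def XPm (M : ℕ) (υ ℓ : ℝ) (e i : ℕ) : ℝ :=
  XT (li M i ℓ) (zz υ ℓ) / (((2 ^ i * WW ℓ e).totient : ℕ) : ℝ)

/-- the error constant -/
noncomputable def XiC (K s N : ℕ) (r : ℝ) : ℝ := (1 / 2 : ℝ) ^ s * (2 * 4 ^ N) * r ^ (6 * K)

/-- the coefficients (all positions inner, no outer weights) -/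
noncomputable def Cg (H : Finset ℕ) (g : ℕ → ℝ) (T1 : ℝ) : Finset (ℕ × ℕ) → ℝ := Cf H g (fun _ => 0) T1 1

/-- the mollifier bound at `ℓ` for all moduli not divisible by `q₁` -/
def MollAt (δ A ℓ : ℝ) (q₁ : ℕ) : Prop :=
  ∀ (q : ℕ) [NeZero q], Real.log q ≤ ℓ / (Real.log ℓ) ^ 2 → ¬ q₁ ∣ q →
  ∀ χ : DirichletCharacter ℂ q, χ ≠ 1 → ∀ t : ℝ, |t| ≤ ℓ ^ A →
  ‖1 - DirichletCharacter.LFunction χ ((1 + 1 / ℓ : ℝ) + t * Complex.I) *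
    ∑ m ∈ Finset.Icc 1 ⌊Real.exp (2 * δ * ℓ)⌋₊, ((ArithmeticFunction.moebius m : ℤ) : ℂ) *
      ((wtH δ ℓ m : ℝ) : ℂ) * χ m * (m : ℂ) ^ (-((1 + 1 / ℓ : ℝ) + t * Complex.I : ℂ))‖ ≤ ℓ ^ (-A)

end Pool.Agent.H81.CC
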