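import Pool.Agent.H81.CC.Defs
import Pool.Agent.H81.AS.DistI

/-!
JOB CC-DISTI. The distribution hypothesis for the integers `N ≡ b` modulo `2^(M-1) WW`.

PROOF. Copy of `dist_int` (AS/DistI.lean; make private copies of `crt_ex` and `count_Ioc`) with the modulus
`W = 2^(M-1) WW ℓ e`: a prime `p ∈ P ∪ Q` is `> wz ℓ ≥ 2` (`PQ_coprime`), hence odd and coprime to `W`.
-/

set_option autoImplicit false

open Finset Filter Topology

namespace Pool.Agent.H81.CC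

open Pool.Agent.H16 Pool.Agent.H81.AS

private lemma crt_ex (D : Finset ℕ) (hD : ∀ p ∈ D, p.Prime) (b : ℕ → ℕ) (W b0 : ℕ)
    (hc : ∀ p ∈ D, Nat.Coprime p W) :
    ∃ c : ℕ, ∀ n : ℕ, (n ≡ b0 [MOD W] ∧ ∀ p ∈ D, n ≡ b p [MOD p]) ↔ n ≡ c [MOD W * ∏ p ∈ D, p] := by
  classical
  induction D using Finset.induction_on with
  | empty => exact ⟨b0, fun n => by simp⟩
  | insert p D hp ih =>
    obtain ⟨c, hc'⟩ := ih (fun q hq => hD q (mem_insert_of_mem hq))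
      (fun q hq => hc q (mem_insert_of_mem hq))
    have hpp := hD p (mem_insert_self p D)
    have hcop : Nat.Coprime (W * ∏ q ∈ D, q) p := by
      apply Nat.Coprime.mul_left
      · exact (hc p (mem_insert_self p D)).symm
      · apply Nat.Coprime.prod_left
        intro q hq
        rw [Nat.coprime_primes (hD q (mem_insert_of_mem hq)) hpp]
        rintro rfl
        exact hp hq
    obtain ⟨c', h1, h2⟩ := Nat.chineseRemainder hcop c (b p)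
    refine ⟨c', fun n => ?_⟩
    have h3 := Nat.modEq_and_modEq_iff_modEq_mul (a := n) (b := c') hcop
    rw [prod_insert hp, mul_comm p, ← mul_assoc, ← h3]
    constructor
    · rintro ⟨h4, h5⟩
      exact ⟨((hc' n).1 ⟨h4, fun q hq => h5 q (mem_insert_of_mem hq)⟩).trans h1.symm,
        (h5 p (mem_insert_self p D)).trans h2.symm⟩
    · rintro ⟨h4, h5⟩
      obtain ⟨h6, h7⟩ := (hc' n).2 (h4.trans h1)
      refine ⟨h6, fun q hq => ?_⟩
      rcases mem_insert.1 hq with rfl | hq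
      · exact h5.trans h2
      · exact h7 q hq

private lemma count_Ioc (N c M : ℕ) (hM : 0 < M) :
    |(#((Ioc 0 N).filter (fun n => n ≡ c [MOD M])) : ℝ) - (N : ℝ) / M| ≤ 1 := by
  have h := Nat.Ioc_filter_modEq_card 0 N hM c
  have hM' : (0 : ℚ) < M := by exact_mod_cast hM
  set F := (Ioc 0 N).filter (fun n => n ≡ c [MOD M]) with hF
  have h1 : (⌊((0 : ℕ) - (c : ℚ)) / (M : ℚ)⌋ : ℤ) ≤ ⌊((N : ℚ) - c) / (M : ℚ)⌋ := by
    apply Int.floor_le_floor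
    apply div_le_div_of_nonneg_right _ hM'.le
    have : (0 : ℚ) ≤ N := by positivity
    push_cast
    linarith
  have h2 : (#F : ℤ) = ⌊((N : ℚ) - c) / (M : ℚ)⌋ - ⌊((0 : ℕ) - (c : ℚ)) / (M : ℚ)⌋ := by
    rw [h, max_eq_left]
    linarith
  have h3 : |(#F : ℚ) - (N : ℚ) / M| ≤ 1 := by
    have e1 : (#F : ℚ) = (⌊((N : ℚ) - c) / (M : ℚ)⌋ : ℚ) - (⌊((0 : ℕ) - (c : ℚ)) / (M : ℚ)⌋ : ℚ) := by
      exact_mod_cast congrArg (fun z : ℤ => (z : ℚ)) h2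
    have a1 := Int.floor_le (((N : ℚ) - c) / (M : ℚ))
    have a2 := Int.lt_floor_add_one (((N : ℚ) - c) / (M : ℚ))
    have a3 := Int.floor_le (((0 : ℕ) - (c : ℚ)) / (M : ℚ))
    have a4 := Int.lt_floor_add_one (((0 : ℕ) - (c : ℚ)) / (M : ℚ))
    have e2 : ((N : ℚ) - c) / (M : ℚ) - ((0 : ℕ) - (c : ℚ)) / (M : ℚ) = (N : ℚ) / M := by
      push_cast
      ring
    rw [e1, abs_le]
    constructor <;> linarith
  have h4 := (Rat.cast_le (K := ℝ)).2 h3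
  push_cast at h4
  exact h4

theorem dist_intM (M : ℕ) {δ υ ℓ : ℝ} {e : ℕ} (hw2 : 2 ≤ wz ℓ) (hw : wz ℓ ≤ zz δ ℓ) (hυ : zz δ ℓ ≤ zz υ ℓ)
    (b : ℕ) (Lv : ℝ) :
    Dist (PP δ ℓ e) (QQ δ υ ℓ e) ∅ (SM M ℓ e b) (fun _ => 1) (X0 M ℓ e) Lv (fun _ => 2) := by
  refine ⟨fun _ _ => zero_le_one, by unfold X0; positivity, fun _ _ => by norm_num, by simp, ?_⟩
  intro D hD _ b' _
  have hDp : ∀ p ∈ D, p.Prime ∧ Nat.Coprime p (2 ^ (M - 1) * WW ℓ e) := fun p hp => by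
    obtain ⟨h1, h2, h3⟩ := PQ_coprime hw (hD hp)
    refine ⟨h1, Nat.Coprime.mul_right ?_ h3⟩
    apply Nat.Coprime.pow_right
    rw [Nat.coprime_primes h1 Nat.prime_two]
    omega
  obtain ⟨c, hc⟩ := crt_ex D (fun p hp => (hDp p hp).1) b' (2 ^ (M - 1) * WW ℓ e) b
    (fun p hp => (hDp p hp).2)
  have hM : 0 < 2 ^ (M - 1) * WW ℓ e * ∏ p ∈ D, p :=
    Nat.mul_pos (Nat.mul_pos (by positivity) (WW_pos ℓ e)) (prod_pos fun p hp => (hDp p hp).1.pos)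
  have h1 : (SM M ℓ e b).filter (fun n => ∀ p ∈ D, n ≡ b' p [MOD p]) =
      (Ioc 0 ⌊Real.exp ℓ⌋₊).filter (fun n => n ≡ c [MOD 2 ^ (M - 1) * WW ℓ e * ∏ p ∈ D, p]) := by
    unfold SM
    rw [filter_filter]
    exact filter_congr fun n _ => hc n
  rw [h1, sum_const, nsmul_eq_mul, mul_one]
  have h2 := count_Ioc ⌊Real.exp ℓ⌋₊ c _ hM
  have h3 : X0 M ℓ e * ∏ p ∈ D, gd ∅ p =
      Real.exp ℓ / ((2 ^ (M - 1) * WW ℓ e * ∏ p ∈ D, p : ℕ) : ℝ) := by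
    unfold gd X0
    simp only [card_empty, Nat.cast_zero, sub_zero, prod_div_distrib, prod_const_one]
    push_cast
    rw [div_mul_div_comm, mul_one]
  rw [h3]
  have hM1 : (1 : ℝ) ≤ ((2 ^ (M - 1) * WW ℓ e * ∏ p ∈ D, p : ℕ) : ℝ) := by exact_mod_cast hM
  set m : ℝ := ((2 ^ (M - 1) * WW ℓ e * ∏ p ∈ D, p : ℕ) : ℝ) with hMdef
  have hM0 : 0 < m := by linarith
  have h4 : |(⌊Real.exp ℓ⌋₊ : ℝ) / m - Real.exp ℓ / m| ≤ 1 := by
    rw [← sub_div, abs_div, abs_of_pos hM0, div_le_one hM0]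
    refine le_trans ?_ hM1
    have a1 := Nat.floor_le (Real.exp_pos ℓ).le
    have a2 := Nat.lt_floor_add_one (Real.exp ℓ)
    rw [abs_le]
    constructor <;> linarith
  have h5 := abs_sub_le ((#((Ioc 0 ⌊Real.exp ℓ⌋₊).filter
    (fun n => n ≡ c [MOD 2 ^ (M - 1) * WW ℓ e * ∏ p ∈ D, p])) : ℕ) : ℝ)
    ((⌊Real.exp ℓ⌋₊ : ℝ) / m) (Real.exp ℓ / m)
  linarith

end Pool.Agent.H81.CC
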