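import Pool.Agent.H81.CC.Defs
import Pool.Agent.H81.AS.Env2
import Pool.Agent.H16.CHFinal

/-!
JOB CC-ENV. Elementary facts about `ℓ_i`, the moduli `2^i WW` and the masses.

PROOFS. `li_bounds`: `0 ≤ log A_i ≤ (M-1) log 2 ≤ M`. `exp_li`: `exp (ℓ - log A) = exp ℓ/A`.
`ev_WM`: `WW ≤ 4^{wz ℓ}` (`WW_le_pow`), so `log (2^i WW) ≤ M + 2 (log ℓ)^2`, and `ℓ_i/(2 (log ℓ_i)^2) ≥ (ℓ - M)/(2 (log ℓ)^2)`.
`totient_WM`: `e ≠ 2` and `2 ≤ wz ℓ` give `2 ∣ WW` and `φ(2^i W) = 2^i φ(W)` for even `W` (`Nat.totient_mul_of_prime_of_dvd` iterated).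
`xt_li`: as `xt_bounds` (AS/XTB.lean): lower bound from `X_ge` (needs `zz υ ℓ ≤ exp (ℓ_i)/100`), upper bound from
`theta_le_log4_mul_x`. `mass_ratio`: `c₁ = 1/100`; `XP ≥ c₁ exp ℓ/(A_i 2^i φ(WW)) = c₁ exp ℓ/(2^(M-1) φ(WW))`, and
`V1 φ(WW)/WW ≤ 4/(δ ℓ)` (`V1_bounds`); cf. `hXPX` in AS/KP.lean.
-/

set_option autoImplicit false

open Finset Filter Topology

namespace Pool.Agent.H81.CC

open Pool.Agent.H16 Pool.Agent.H81.AS

lemma Ai_pos (M i : ℕ) : (0 : ℝ) < (Ai M i : ℝ) := by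
  unfold Ai
  positivity

theorem li_bounds {M i : ℕ} (ℓ : ℝ) (hi : i < M) : ℓ - M ≤ li M i ℓ ∧ li M i ℓ ≤ ℓ := by
  have h1 : Real.log (Ai M i : ℝ) = ((M - 1 - i : ℕ) : ℝ) * Real.log 2 := by
    unfold Ai
    push_cast
    rw [Real.log_pow]
  have h2 : ((M - 1 - i : ℕ) : ℝ) ≤ M := by
    have : M - 1 - i ≤ M := by omega
    exact_mod_cast this
  have h3 : 0 ≤ Real.log 2 := Real.log_nonneg (by norm_num)
  have h4 : Real.log 2 ≤ 1 := by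
    have := Real.log_two_lt_d9
    linarith
  have h5 : (0 : ℝ) ≤ ((M - 1 - i : ℕ) : ℝ) := Nat.cast_nonneg _
  have h6 : ((M - 1 - i : ℕ) : ℝ) * Real.log 2 ≤ M * 1 := mul_le_mul h2 h4 h3 (Nat.cast_nonneg _)
  have h7 : 0 ≤ ((M - 1 - i : ℕ) : ℝ) * Real.log 2 := mul_nonneg h5 h3
  unfold li
  rw [h1]
  constructor <;> linarith

theorem exp_li (M i : ℕ) (ℓ : ℝ) : Real.exp (li M i ℓ) = Real.exp ℓ / (Ai M i : ℝ) := by
  unfold li
  rw [Real.exp_sub, Real.exp_log (Ai_pos M i)]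

lemma log_WW_le {ℓ : ℝ} (h1 : 1 < ℓ) (e : ℕ) : Real.log (WW ℓ e) ≤ 2 * Real.log ℓ ^ 2 := by
  have hW : (0:ℝ) < WW ℓ e := by exact_mod_cast WW_pos_aux ℓ e
  have h6 : (WW ℓ e : ℝ) ≤ 4 ^ wz ℓ := by exact_mod_cast WW_le_pow ℓ e
  have h7 := Real.log_le_log hW h6
  rw [Real.log_pow] at h7
  have h8 : (wz ℓ : ℝ) ≤ Real.log ℓ ^ 2 := Nat.floor_le (by positivity)
  have h9 : Real.log 4 ≤ 2 := by
    have h10 : Real.log 4 = 2 * Real.log 2 := by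
      rw [show (4:ℝ) = 2 ^ 2 by norm_num, Real.log_pow]; norm_num
    have := Real.log_two_lt_d9
    linarith
  have h11 : 0 ≤ Real.log 4 := Real.log_nonneg (by norm_num)
  calc Real.log (WW ℓ e) ≤ wz ℓ * Real.log 4 := h7
    _ ≤ Real.log ℓ ^ 2 * 2 := mul_le_mul h8 h9 h11 (by positivity)
    _ = _ := by ring

lemma log_pow_WW_le {ℓ : ℝ} (h1 : 1 < ℓ) (e : ℕ) {M i : ℕ} (hi : i ≤ M) :
    Real.log ((2 ^ i * WW ℓ e : ℕ) : ℝ) ≤ M + 2 * Real.log ℓ ^ 2 := by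
  have hW : (0:ℝ) < WW ℓ e := by exact_mod_cast WW_pos_aux ℓ e
  push_cast
  rw [Real.log_mul (by positivity) hW.ne', Real.log_pow]
  have h2 := log_WW_le h1 e
  have h3 : 0 ≤ Real.log 2 := Real.log_nonneg (by norm_num)
  have h4 : Real.log 2 ≤ 1 := by
    have := Real.log_two_lt_d9
    linarith
  have h5 : (i : ℝ) ≤ M := by exact_mod_cast hi
  have h6 : (i : ℝ) * Real.log 2 ≤ M * 1 := mul_le_mul h5 h4 h3 (Nat.cast_nonneg _)
  linarith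

theorem ev_WM (M : ℕ) {ε : ℝ} (hε : 0 < ε) : ∀ᶠ ℓ : ℝ in atTop, ∀ e : ℕ,
    ((2 ^ (M - 1) * WW ℓ e : ℕ) : ℝ) ≤ Real.exp (ε * ℓ) ∧
      ∀ i < M, Real.log ((2 ^ i * WW ℓ e : ℕ) : ℝ) ≤ li M i ℓ / (2 * (Real.log (li M i ℓ)) ^ 2) := by
  have h2 := (Real.isLittleO_pow_log_id_atTop (n := 2)).def (show (0:ℝ) < ε / 4 by positivity)
  have h2' := (Real.isLittleO_pow_log_id_atTop (n := 2)).def
    (show (0:ℝ) < 1 / (8 * (M + 1)) by positivity)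
  have h4 := (Real.isLittleO_pow_log_id_atTop (n := 4)).def (show (0:ℝ) < 1 / 16 by norm_num)
  filter_upwards [h2, h2', h4, eventually_gt_atTop (M + 2 : ℝ), eventually_ge_atTop (4 * (M : ℝ)),
    eventually_ge_atTop (2 * M / ε)] with ℓ h2 h2' h4 hM hM4 hMε e
  have hM0 : (0 : ℝ) ≤ M := Nat.cast_nonneg M
  have h1 : 1 < ℓ := by linarith
  have h0 : 0 < ℓ := by linarith
  have hlog : 0 < Real.log ℓ := Real.log_pos h1
  rw [id, Real.norm_eq_abs, Real.norm_eq_abs, abs_of_pos h0, abs_of_pos (by positivity)] at h2 h2' h4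
  have hW : (0:ℝ) < WW ℓ e := by exact_mod_cast WW_pos_aux ℓ e
  constructor
  · have hpos : (0 : ℝ) < ((2 ^ (M - 1) * WW ℓ e : ℕ) : ℝ) := by
      push_cast
      positivity
    rw [← Real.log_le_iff_le_exp hpos]
    have h5 := log_pow_WW_le h1 e (show M - 1 ≤ M by omega)
    rw [div_le_iff₀ hε] at hMε
    nlinarith
  · intro i hi
    have h5 := log_pow_WW_le h1 e (show i ≤ M by omega)
    obtain ⟨h6, h7⟩ := li_bounds ℓ hi
    have h8 : 1 < li M i ℓ := by linarith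
    have h9 : 0 < Real.log (li M i ℓ) := Real.log_pos h8
    have h10 : Real.log (li M i ℓ) ≤ Real.log ℓ := Real.log_le_log (by linarith) h7
    rw [le_div_iff₀ (by positivity)]
    have h11 : Real.log (li M i ℓ) ^ 2 ≤ Real.log ℓ ^ 2 := by gcongr
    have h12 : 2 * (M : ℝ) * Real.log ℓ ^ 2 ≤ ℓ / 4 := by
      have h13 : 2 * (M : ℝ) * Real.log ℓ ^ 2 ≤ 2 * M * (1 / (8 * (M + 1)) * ℓ) := by gcongr
      have h14 : 2 * (M : ℝ) * (1 / (8 * (M + 1)) * ℓ) = (M / (M + 1)) * (ℓ / 4) := by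
        field_simp
        ring
      have h15 : (M : ℝ) / (M + 1) ≤ 1 := by
        rw [div_le_one (by positivity)]
        linarith
      have h16 : (M : ℝ) / (M + 1) * (ℓ / 4) ≤ 1 * (ℓ / 4) := by gcongr
      linarith
    calc Real.log ((2 ^ i * WW ℓ e : ℕ) : ℝ) * (2 * Real.log (li M i ℓ) ^ 2)
        ≤ (M + 2 * Real.log ℓ ^ 2) * (2 * Real.log ℓ ^ 2) := by
          gcongr
      _ = 2 * M * Real.log ℓ ^ 2 + 4 * Real.log ℓ ^ 4 := by ring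
      _ ≤ ℓ / 4 + 4 * (1 / 16 * ℓ) := by linarith
      _ ≤ ℓ - M := by linarith
      _ ≤ li M i ℓ := h6

theorem totient_WM {ℓ : ℝ} {e : ℕ} (he : e ≠ 2) (hw : 2 ≤ wz ℓ) (i : ℕ) :
    (2 ^ i * WW ℓ e).totient = 2 ^ i * (WW ℓ e).totient := by
  have h2 : 2 ∣ WW ℓ e := (AS.prime_dvd_WW Nat.prime_two).2 ⟨hw, he.symm⟩
  induction i with
  | zero => simp
  | succ i ih =>
    rw [pow_succ', mul_assoc, Nat.totient_mul_of_prime_of_dvd Nat.prime_two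
      (h2.mul_left (2 ^ i)), ih, mul_assoc]

lemma XT_le_log4 (ℓ : ℝ) (y : ℕ) : XT ℓ y ≤ Real.log 4 * Real.exp ℓ := by
  have h1 := Chebyshev.theta_le_log4_mul_x (Real.exp_pos ℓ).le
  refine le_trans ?_ h1
  rw [Chebyshev.theta, Finset.sum_filter]
  unfold XT
  apply Finset.sum_le_sum
  intro n hn
  rw [Finset.mem_Ioc] at hn
  unfold aw
  by_cases hp : n.Prime
  · rw [if_pos hp]
    have hlog : 0 ≤ Real.log n := Real.log_natCast_nonneg n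
    split_ifs
    · have := tent_le_one (Real.exp ℓ / 3) n (by positivity) (by exact_mod_cast hn.1)
      nlinarith
    · exact hlog
  · rw [if_neg hp, if_neg (by tauto)]

lemma tendsto_li (M i : ℕ) : Tendsto (li M i) atTop atTop := by
  unfold li
  exact tendsto_atTop_add_const_right _ _ tendsto_id

theorem xt_li (M : ℕ) {υ : ℝ} (hυ : 0 < υ) (hυ2 : υ ≤ 1 / 4) : ∀ᶠ ℓ : ℝ in atTop, ∀ i < M,
    1 / 100 * Real.exp (li M i ℓ) ≤ XT (li M i ℓ) (zz υ ℓ) ∧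
      XT (li M i ℓ) (zz υ ℓ) ≤ Real.log 4 * Real.exp (li M i ℓ) := by
  have hX : ∀ᶠ ℓ : ℝ in atTop, ∀ i ∈ Finset.range M, ∀ y : ℕ,
      (y : ℝ) ≤ Real.exp (li M i ℓ) / 100 →
      1 / 100 * Real.exp (li M i ℓ) ≤ ∑ n ∈ Ioc 0 ⌊Real.exp (li M i ℓ)⌋₊, aw (li M i ℓ) y n := by
    rw [Filter.eventually_all_finset]
    intro i _
    exact (tendsto_li M i).eventually X_ge
  filter_upwards [hX, eventually_ge_atTop (2 * (M : ℝ)), eventually_ge_atTop (400 : ℝ)]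
    with ℓ hX hℓM hℓ i hi
  refine ⟨?_, XT_le_log4 _ _⟩
  apply hX i (Finset.mem_range.2 hi)
  have h1 : (zz υ ℓ : ℝ) ≤ Real.exp (υ * ℓ) := Nat.floor_le (Real.exp_pos _).le
  have h2 : Real.exp (υ * ℓ) ≤ Real.exp (ℓ / 4) := Real.exp_le_exp.2 (by nlinarith)
  have h3 : (100 : ℝ) ≤ Real.exp (ℓ / 4) := by
    have := Real.add_one_le_exp (ℓ / 4); linarith
  have h4 : Real.exp (ℓ / 4) * Real.exp (ℓ / 4) ≤ Real.exp (li M i ℓ) := by
    rw [← Real.exp_add]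
    apply Real.exp_le_exp.2
    have := (li_bounds ℓ hi).1
    linarith
  rw [le_div_iff₀ (by norm_num)]
  calc (zz υ ℓ : ℝ) * 100 ≤ Real.exp (ℓ / 4) * 100 :=
        mul_le_mul_of_nonneg_right (h1.trans h2) (by norm_num)
    _ ≤ Real.exp (ℓ / 4) * Real.exp (ℓ / 4) := mul_le_mul_of_nonneg_left h3 (Real.exp_pos _).le
    _ ≤ _ := h4

theorem mass_ratio (M : ℕ) {δ υ : ℝ} (hδ : 0 < δ) (hυ : 0 < υ) (hυ2 : υ ≤ 1 / 4) :
    ∀ᶠ ℓ : ℝ in atTop, ∀ e : ℕ, e ≠ 2 → ∀ i < M, 0 < XPm M υ ℓ e i ∧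
      1 / 100 * δ * V1 δ ℓ e * X0 M ℓ e / 4 ≤ XPm M υ ℓ e i / ℓ := by
  obtain ⟨c, hc, hV⟩ := V1_bounds
  filter_upwards [xt_li M hυ hυ2, hV δ hδ, ev_wz 2, eventually_gt_atTop (0 : ℝ)]
    with ℓ hX VB hw hℓ e he i hi
  have hw2 : 2 ≤ wz ℓ := by exact_mod_cast hw.2
  have hWpos : (0 : ℝ) < WW ℓ e := by exact_mod_cast WW_pos ℓ e
  have hφpos : (0 : ℝ) < (((WW ℓ e).totient : ℕ) : ℝ) := by
    exact_mod_cast Nat.totient_pos.2 (WW_pos ℓ e)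
  have hAi : (Ai M i : ℝ) * 2 ^ i = 2 ^ (M - 1) := by
    unfold Ai
    push_cast
    rw [← pow_add]
    congr 1
    omega
  have hden : (((2 ^ i * WW ℓ e).totient : ℕ) : ℝ) = 2 ^ i * (((WW ℓ e).totient : ℕ) : ℝ) := by
    rw [totient_WM he hw2 i]
    push_cast
    ring
  have hlow : 1 / 100 * (Real.exp ℓ / (2 ^ (M - 1) * (((WW ℓ e).totient : ℕ) : ℝ))) ≤
      XPm M υ ℓ e i := by
    unfold XPm
    rw [hden, ← hAi]
    have h1 := (hX i hi).1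
    rw [exp_li] at h1
    rw [le_div_iff₀ (by positivity)]
    refine le_trans (le_of_eq ?_) h1
    have := (Ai_pos M i).ne'
    field_simp
  refine ⟨lt_of_lt_of_le (by positivity) hlow, ?_⟩
  have h2 : δ * V1 δ ℓ e / (4 * (WW ℓ e : ℝ)) ≤ 1 / (ℓ * (((WW ℓ e).totient : ℕ) : ℝ)) := by
    have h1 := (VB e).2.1
    rw [div_le_div_iff₀ (by positivity) (by positivity)]
    have h3 := mul_le_mul_of_nonneg_right h1 (by positivity : 0 ≤ δ * ℓ * (WW ℓ e : ℝ))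
    have h4 : V1 δ ℓ e * ((((WW ℓ e).totient : ℕ) : ℝ) / (WW ℓ e : ℝ)) * (δ * ℓ * (WW ℓ e : ℝ)) =
        δ * V1 δ ℓ e * (ℓ * (((WW ℓ e).totient : ℕ) : ℝ)) := by
      field_simp
    have h5 : 4 / (δ * ℓ) * (δ * ℓ * (WW ℓ e : ℝ)) = 1 * (4 * (WW ℓ e : ℝ)) := by
      field_simp
    linarith
  have hXX : X0 M ℓ e = Real.exp ℓ / (2 ^ (M - 1) * (WW ℓ e : ℝ)) := by
    unfold X0
    push_cast
    rfl
  calc 1 / 100 * δ * V1 δ ℓ e * X0 M ℓ e / 4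
      = 1 / 100 * (Real.exp ℓ / 2 ^ (M - 1)) * (δ * V1 δ ℓ e / (4 * (WW ℓ e : ℝ))) := by
        rw [hXX]
        field_simp
    _ ≤ 1 / 100 * (Real.exp ℓ / 2 ^ (M - 1)) * (1 / (ℓ * (((WW ℓ e).totient : ℕ) : ℝ))) := by
        gcongr
    _ = 1 / 100 * (Real.exp ℓ / (2 ^ (M - 1) * (((WW ℓ e).totient : ℕ) : ℝ))) / ℓ := by
        field_simp
    _ ≤ XPm M υ ℓ e i / ℓ := by gcongr

end Pool.Agent.H81.CC
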