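import Pool.Agent.H81.CC.Exc
import Pool.Agent.H81.CC.Env
import Pool.Agent.H81.AS.DistP

/-!
JOB CC-DISTP. The distribution hypothesis for the primes `(N + x)/A_i` at each scale.

PROOF. As `dist_prime` (AS/DistP.lean), with the uniform exceptional modulus. `RP_supK (1/4) .. A .. (24K)` gives `L1`, the
exponents of `SmallProp` it needs are `a1 = (2A+4+(24K)^2)+1+4`, `a2 = (2A+4+(24K)^2)+1+3+12`; `exc_unif M a1 a2 M` gives `q₁`, `e`.
For `i < M` use `RP_supK` at `ℓ' = li M i ℓ ∈ [ℓ - M, ℓ]` (`li_bounds`), `W = 2^i WW` (`ev_WM`; its primes are `≤ wz ℓ ≤ y`),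
`y = zz υ ℓ ≤ exp (υ ℓ) ≤ exp (ℓ'/2)` (large `ℓ`, `υ ≤ 1/4`), `z = wz ℓ`, `P = PP ∪ QQ`. `q₁ ∤ W ∏ D`: `W ∏ D = 2^{i+1} m` with `m` odd
(`WW = 2 W_o`, `W_o` odd because `WW` is squarefree; the primes of `D` are odd) and no prime factor of `m` is `e`.
(`exc_unif` with `M + 1` in place of `M`, or `i + 1 ≤ M`.) It gives `Mf` with the bound of the total remainder; the last claim
is proved exactly as in `dist_prime` (copy).
`Dist`: the sum over `N ∈ SM`, `N ≡ b' p mod p (p ∈ D)`, of `aw ℓ' y ((N + x)/A)`, `A = A_i`, `x = A h`. Since `2^M ∣ b`, `A ∣ N` for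
`N ∈ SM`; write `N = A u`: `(N + x)/A = u + h =: m`. `N ≡ b mod 2^(M-1) WW = A 2^i WW` iff `u ≡ b/A mod 2^i WW` iff
`m ≡ A0 := b/A + h mod 2^i WW`. `A0` is coprime to `2^i WW`: `b/A` is even and `h` odd; for an odd prime `p ∣ WW`
(`p ≤ wz ℓ`, `p ≠ e`) `p ∤ b + x = A A0` (`AdmB`). `N ≡ b' p mod p` iff `u ≡ c p mod p` with `A c_p ≡ b'_p mod p` (`A` is a power of
two, `p` odd) iff `m ≡ c_p + h =: b'' p`; `p ∤ b'' p`, otherwise `p ∣ A b'' p ≡ b' p + x`. The range: `aw ℓ' y m ≠ 0` implies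
`exp ℓ'/9 < m < exp ℓ'` (`aw_ne_zero`, `aw_zero_of_big`), so `u = m - h` satisfies `0 < u` (large `ℓ`: `h < exp ℓ'/9`) and
`N = A u < A exp ℓ' = exp ℓ` (`exp_li`). `cop`: `p ∣ N + x` and `p` odd give `p ∣ m`, so `m` would be a prime `> y ≥ p` divisible by `p`.
`X0`: masses are nonnegative. `gd {x} p = 1/(p-1)`.
-/

set_option autoImplicit false

open Finset Filter Topology

namespace Pool.Agent.H81.CC

open Pool.Agent.H16 Pool.Agent.H81.AS

lemma distP_A_mul {M i : ℕ} (hi : i < M) (W : ℕ) : 2 ^ (M - 1) * W = Ai M i * (2 ^ i * W) := by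
  unfold Ai
  rw [← mul_assoc, ← pow_add]
  congr 2
  omega

lemma distP_A_pos (M i : ℕ) : 0 < Ai M i := by unfold Ai; positivity

lemma distP_A_cop {M i p : ℕ} (hp : p.Prime) (hp2 : p ≠ 2) : Nat.Coprime (Ai M i) p := by
  unfold Ai
  apply Nat.Coprime.pow_left
  exact (Nat.coprime_primes Nat.prime_two hp).mpr (fun h => hp2 h.symm)

lemma distP_A_dvd {M i b : ℕ} (hi : i < M) (hb : 2 ^ M ∣ b) : ∃ b0, b = Ai M i * b0 ∧ Even b0 := by
  obtain ⟨c, rfl⟩ := hb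
  refine ⟨2 ^ (i + 1) * c, ?_, ?_⟩
  · unfold Ai
    rw [← mul_assoc, ← pow_add]
    congr 2
    omega
  · rw [pow_succ]
    exact ⟨2 ^ i * c, by ring⟩

/-- elements of `SM` are divisible by `A_i` -/
lemma distP_SM {M i b e : ℕ} {ℓ : ℝ} (hi : i < M) {b0 : ℕ} (hb0 : b = Ai M i * b0) {n : ℕ}
    (hn : n ∈ SM M ℓ e b) : ∃ u, n = Ai M i * u ∧ u ≡ b0 [MOD 2 ^ i * WW ℓ e] := by
  unfold SM at hn
  rw [Finset.mem_filter] at hn
  have h1 := hn.2
  rw [distP_A_mul hi] at h1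
  have h2 : Ai M i ∣ n := by
    have h3 : n ≡ b [MOD Ai M i] := h1.of_mul_right _
    rw [hb0] at h3
    exact (Nat.modEq_zero_iff_dvd).mp (h3.trans ((Nat.modEq_zero_iff_dvd).mpr (dvd_mul_right _ _)))
  obtain ⟨u, rfl⟩ := h2
  refine ⟨u, rfl, ?_⟩
  rw [hb0] at h1
  exact Nat.ModEq.mul_left_cancel' (distP_A_pos M i).ne' h1

lemma distP_div {M i : ℕ} (u h : ℕ) : (Ai M i * u + ps M i h) / Ai M i = u + h := by
  unfold ps
  rw [← mul_add]
  exact Nat.mul_div_cancel_left _ (distP_A_pos M i)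

/-- change of variable in the sums over primes at the scale `i` -/
lemma distP_shift {M i h e b b0 : ℕ} {ℓ : ℝ} (hi : i < M) (hb0 : b = Ai M i * b0)
    (hh : (h : ℝ) ≤ Real.exp (li M i ℓ) / 9) (y : ℕ) (D : Finset ℕ) (b' c : ℕ → ℕ)
    (hpr : ∀ p ∈ D, p.Prime ∧ p ≠ 2) (hc : ∀ p ∈ D, Ai M i * c p ≡ b' p [MOD p]) :
    ∑ n ∈ (SM M ℓ e b).filter (fun n => ∀ p ∈ D, n ≡ b' p [MOD p]), aM M y ℓ i (ps M i h) n =
      ∑ m ∈ (Ioc 0 ⌊Real.exp (li M i ℓ)⌋₊).filter (fun m => m ≡ b0 + h [MOD 2 ^ i * WW ℓ e] ∧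
        ∀ p ∈ D, m ≡ c p + h [MOD p]), aw (li M i ℓ) y m := by
  classical
  have hA := distP_A_pos M i
  set S := (SM M ℓ e b).filter (fun n => ∀ p ∈ D, n ≡ b' p [MOD p]) with hS
  have hu : ∀ n ∈ S, ∃ u, n = Ai M i * u ∧ u ≡ b0 [MOD 2 ^ i * WW ℓ e] ∧
      ∀ p ∈ D, u ≡ c p [MOD p] := by
    intro n hn
    rw [hS, Finset.mem_filter] at hn
    obtain ⟨u, hu1, hu2⟩ := distP_SM hi hb0 hn.1
    refine ⟨u, hu1, hu2, fun p hp => ?_⟩
    have h1 := hn.2 p hp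
    rw [hu1] at h1
    have h2 : Ai M i * u ≡ Ai M i * c p [MOD p] := h1.trans (hc p hp).symm
    exact Nat.ModEq.cancel_left_of_coprime (by
      have := distP_A_cop (M := M) (i := i) (hpr p hp).1 (hpr p hp).2
      rw [Nat.gcd_comm]; exact this) h2
  have hinj : ∀ a ∈ S, ∀ a' ∈ S, (a + ps M i h) / Ai M i = (a' + ps M i h) / Ai M i → a = a' := by
    intro a ha a' ha' haa
    obtain ⟨u, hu1, -⟩ := hu a ha
    obtain ⟨u', hu1', -⟩ := hu a' ha'
    rw [hu1, hu1', distP_div, distP_div] at haa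
    rw [hu1, hu1', Nat.add_right_cancel haa]
  have hsum : ∑ n ∈ S, aM M y ℓ i (ps M i h) n =
      ∑ m ∈ S.image (fun n => (n + ps M i h) / Ai M i), aw (li M i ℓ) y m := by
    rw [Finset.sum_image (fun a ha a' ha' => hinj a ha a' ha')]
    rfl
  rw [hsum]
  apply Finset.sum_congr_of_eq_on_inter
  · intro m hm hm2
    by_contra h0
    apply hm2
    rw [Finset.mem_image] at hm
    obtain ⟨n, hn, rfl⟩ := hm
    obtain ⟨u, hu1, hu2, hu3⟩ := hu n hn
    rw [hu1, distP_div] at h0 ⊢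
    obtain ⟨g1, g2, g3⟩ := aw_ne_zero h0
    rw [Finset.mem_filter, Finset.mem_Ioc]
    refine ⟨⟨g1.pos, ?_⟩, hu2.add_right h, fun p hp => (hu3 p hp).add_right h⟩
    by_contra hcon
    apply h0
    apply aw_zero_of_big
    exact (Nat.lt_of_floor_lt (by omega : ⌊Real.exp (li M i ℓ)⌋₊ < u + h)).le
  · intro m hm hm2
    by_contra h0
    apply hm2
    rw [Finset.mem_filter, Finset.mem_Ioc] at hm
    obtain ⟨⟨k1, k2⟩, k3, k4⟩ := hm
    obtain ⟨g1, g2, g3⟩ := aw_ne_zero h0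
    have hhm : h < m := by
      have : (h : ℝ) < m := lt_of_le_of_lt hh g3
      exact_mod_cast this
    obtain ⟨u, rfl⟩ : ∃ u, m = u + h := ⟨m - h, by omega⟩
    have hu0 : 0 < u := by omega
    rw [Finset.mem_image]
    refine ⟨Ai M i * u, ?_, distP_div u h⟩
    have k3' : u ≡ b0 [MOD 2 ^ i * WW ℓ e] := Nat.ModEq.add_right_cancel' h k3
    rw [hS, Finset.mem_filter]
    constructor
    · unfold SM
      rw [Finset.mem_filter, Finset.mem_Ioc]
      refine ⟨⟨Nat.mul_pos hA hu0, ?_⟩, ?_⟩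
      · apply Nat.le_floor
        have h1 : (u : ℝ) ≤ Real.exp (li M i ℓ) := by
          have h2 : ((u + h : ℕ) : ℝ) ≤ Real.exp (li M i ℓ) :=
            (Nat.cast_le.mpr k2).trans (Nat.floor_le (Real.exp_pos _).le)
          push_cast at h2
          have h3 : (0 : ℝ) ≤ h := Nat.cast_nonneg h
          linarith
        rw [exp_li] at h1
        have hA' : (0 : ℝ) < Ai M i := by exact_mod_cast hA
        rw [le_div_iff₀ hA'] at h1
        push_cast
        linarith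
      · rw [distP_A_mul hi, hb0]
        exact k3'.mul_left' (Ai M i)
    · intro p hp
      have h1 : u ≡ c p [MOD p] := Nat.ModEq.add_right_cancel' h (k4 p hp)
      exact (h1.mul_left (Ai M i)).trans (hc p hp)
  · intro m _ _
    rfl

theorem distp (M : ℕ) (hM : 1 ≤ M) (B : Finset ℕ) (hB : ∀ h ∈ B, Odd h) (K : ℕ) (hK : 1 ≤ K) (A : ℝ)
    (hA : 0 ≤ A) {υ : ℝ} (hυ0 : 0 < υ) (hυ : υ ≤ 1 / 4) :
    ∀ᶠ ℓ : ℝ in atTop, ∃ e : ℕ, e ≠ 2 ∧ ∀ δ : ℝ, wz ℓ ≤ zz δ ℓ → zz δ ℓ ≤ zz υ ℓ → ∀ i < M,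
      ∃ Mf : Finset ℕ → ℝ,
      (∀ b h : ℕ, h ∈ B → AdmB M (Hp M B) ℓ e b →
        Dist (PP δ ℓ e) (QQ δ υ ℓ e) {ps M i h} (SM M ℓ e b) (aM M (zz υ ℓ) ℓ i (ps M i h))
          (XPm M υ ℓ e i) (Real.exp (li M i ℓ / 4)) Mf) ∧
      ∀ (s : ℕ) (T : ℝ), (zz δ ℓ : ℝ) ^ (4 * s + 5) * T ^ 2 ≤ Real.exp (li M i ℓ / 4) →
        ∑ Q' ∈ (QQ δ υ ℓ e).powerset.filter (fun Q' => ((∏ p ∈ Q', p : ℕ) : ℝ) ≤ T ^ 2),
          (24 * (K : ℝ)) ^ #Q' *
            ∑ D ∈ (PP δ ℓ e).powerset.filter (fun D => (∏ p ∈ D, p) ≤ zz δ ℓ ^ (4 * s + 5)),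
              (K : ℝ) ^ #D * Mf (D ∪ Q') ≤
          Real.exp (li M i ℓ) * (li M i ℓ) ^ (-A) / (((2 ^ i * WW ℓ e).totient : ℕ) : ℝ) := by
  classical
  obtain ⟨L1, hL1⟩ := RP_supK (1 / 4) (by norm_num) le_rfl A hA (24 * K)
  have hexc := exc_unif M
    ((2 * A + 4 + ((24 * K : ℕ) : ℝ) ^ 2) + 1 + 4)
    ((2 * A + 4 + ((24 * K : ℕ) : ℝ) ^ 2) + 1 + 3 + 12) (M : ℝ) (by positivity) (by positivity)
    (Nat.cast_nonneg M)
  have hsmall : ∀ᶠ ℓ : ℝ in atTop, ((∑ h ∈ B, h : ℕ) : ℝ) ≤ Real.exp (ℓ - M) / 9 := by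
    have h1 : Tendsto (fun ℓ : ℝ => Real.exp (ℓ - M)) atTop atTop :=
      Real.tendsto_exp_atTop.comp (tendsto_atTop_add_const_right _ _ tendsto_id)
    filter_upwards [h1.eventually_ge_atTop (9 * ((∑ h ∈ B, h : ℕ) : ℝ))] with ℓ hℓ
    linarith
  filter_upwards [eventually_ge_atTop (L1 + M), hexc, ev_wz 3, ev_WM M (show (0 : ℝ) < 1 by norm_num),
    hsmall, eventually_ge_atTop (2 * (M : ℝ)), eventually_ge_atTop (1 : ℝ)] with ℓ l1 hex hwz hWM hi9 hℓM hℓ1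
  obtain ⟨q₁, e, he2, hSP, hq1⟩ := hex
  obtain ⟨hwz1, hwz3⟩ := hwz
  have hwz2 : 3 ≤ wz ℓ := by exact_mod_cast hwz3
  refine ⟨e, he2, fun δ hδ1 hδ2 i hi => ?_⟩
  obtain ⟨hli1, hli2⟩ := li_bounds ℓ hi
  set ℓ' := li M i ℓ with hℓ'
  set y := zz υ ℓ with hy
  have hyexp : (y : ℝ) ≤ Real.exp (ℓ' / 2) := by
    have h1 : (y : ℝ) ≤ Real.exp (υ * ℓ) := by
      rw [hy]; unfold zz
      exact Nat.floor_le (Real.exp_pos _).le
    refine h1.trans (Real.exp_le_exp.mpr ?_)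
    nlinarith
  have hsub := PPQQ_sub (e := e) hδ1 hδ2
  have hpodd : ∀ p ∈ PP δ ℓ e ∪ QQ δ υ ℓ e, p.Prime ∧ p ≠ 2 ∧ wz ℓ < p ∧ p ≤ y := by
    intro p hp
    have h1 := mem_primesIoc.mp (hsub hp)
    exact ⟨h1.2.2, by omega, h1.1, h1.2.1⟩
  have hWpos : 0 < 2 ^ i * WW ℓ e := Nat.mul_pos (by positivity) (WW_pos ℓ e)
  have hPW : ∀ p ∈ PP δ ℓ e ∪ QQ δ υ ℓ e, ¬ p ∣ 2 ^ i * WW ℓ e := by
    intro p hp hpW
    obtain ⟨h1, h2, h3, h4⟩ := hpodd p hp
    rcases (Nat.Prime.dvd_mul h1).mp hpW with h5 | h5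
    · exact h2 ((Nat.prime_dvd_prime_iff_eq h1 Nat.prime_two).mp (h1.dvd_of_dvd_pow h5))
    · have h6 := (AS.prime_dvd_WW h1).mp h5
      omega
  have h2W : 2 ∣ WW ℓ e := (AS.prime_dvd_WW Nat.prime_two).mpr ⟨by omega, fun h => he2 h.symm⟩
  obtain ⟨Wo, hWo⟩ := h2W
  have hWoodd : Odd Wo := by
    rw [← Nat.not_even_iff_odd]
    rintro ⟨k, hk⟩
    have h1 := WW_squarefree ℓ e
    have h2 : (2 * 2) ∣ WW ℓ e := ⟨k, by rw [hWo, hk]; ring⟩
    have h3 := h1 2 h2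
    simp at h3
  have hq : ∀ D ⊆ PP δ ℓ e ∪ QQ δ υ ℓ e, ¬ q₁ ∣ (2 ^ i * WW ℓ e) * ∏ p ∈ D, p := by
    intro D hD hdiv
    have h1 : (2 ^ i * WW ℓ e) * ∏ p ∈ D, p = 2 ^ (i + 1) * (Wo * ∏ p ∈ D, p) := by
      rw [hWo]; ring
    rw [h1] at hdiv
    refine hq1 (i + 1) (Wo * ∏ p ∈ D, p) (by omega) ?_ ?_ hdiv
    · refine hWoodd.mul ?_
      rw [← Nat.not_even_iff_odd, even_iff_two_dvd]
      intro h2
      obtain ⟨p, hp, hpe⟩ := (Prime.dvd_finsetProd_iff Nat.prime_two.prime _).mp h2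
      obtain ⟨g1, g2, g3, g4⟩ := hpodd p (hD hp)
      exact g2 ((Nat.prime_dvd_prime_iff_eq Nat.prime_two g1).mp hpe).symm
    · intro p hp hpd hpe
      rcases (Nat.Prime.dvd_mul hp).mp hpd with h5 | h5
      · have h6 : p ∣ WW ℓ e := by rw [hWo]; exact h5.mul_left 2
        exact ((AS.prime_dvd_WW hp).mp h6).2 hpe
      · obtain ⟨r, hr, hre⟩ := (Prime.dvd_finsetProd_iff hp.prime _).mp h5
        obtain ⟨g1, g2, g3, g4⟩ := hpodd r (hD hr)
        have h6 := (Nat.prime_dvd_prime_iff_eq hp g1).mp hre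
        exact PPQQ_ne (hD hr) (h6.symm.trans hpe)
  obtain ⟨Mf, hM0, hMsum, hMf⟩ := hL1 ℓ' (by linarith) q₁ (hSP ℓ' (by linarith) hli2) (2 ^ i * WW ℓ e)
    hWpos (hWM e |>.2 i hi) y hyexp
    (fun p hp hpW => by
      rcases (Nat.Prime.dvd_mul hp).mp hpW with h5 | h5
      · have h6 := (Nat.prime_dvd_prime_iff_eq hp Nat.prime_two).mp (hp.dvd_of_dvd_pow h5)
        have h7 := hδ1.trans hδ2
        omega
      · have := (AS.prime_dvd_WW hp).mp h5
        exact this.1.trans (hδ1.trans hδ2))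
    (wz ℓ) (by linarith) (hδ1.trans hδ2) (PP δ ℓ e ∪ QQ δ υ ℓ e) hsub hPW hq
  have hY : Real.exp ((1 / 2 - 1 / 4) * ℓ') = Real.exp (ℓ' / 4) := by
    congr 1; ring
  rw [hY] at hMsum hMf
  refine ⟨Mf, ?_, ?_⟩
  · intro b h hhB hadm
    obtain ⟨hb2, hadm2⟩ := hadm
    obtain ⟨b0, hb0, hb0e⟩ := distP_A_dvd hi hb2
    have hh : (h : ℝ) ≤ Real.exp ℓ' / 9 := by
      have h1 : h ≤ ∑ h ∈ B, h := Finset.single_le_sum (f := fun h => h) (fun _ _ => Nat.zero_le _) hhB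
      have h2 : (h : ℝ) ≤ ((∑ h ∈ B, h : ℕ) : ℝ) := by exact_mod_cast h1
      have h3 : Real.exp (ℓ - M) ≤ Real.exp ℓ' := Real.exp_le_exp.mpr hli1
      linarith
    have hxH : ps M i h ∈ Hp M B := by
      unfold Hp
      exact Finset.mem_biUnion.mpr ⟨i, Finset.mem_range.mpr hi, Finset.mem_image_of_mem _ hhB⟩
    have hbx : b + ps M i h = Ai M i * (b0 + h) := by
      rw [hb0]; unfold ps; ring
    have hcop : Nat.Coprime (b0 + h) (2 ^ i * WW ℓ e) := by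
      have hodd : Odd (b0 + h) := hb0e.add_odd (hB h hhB)
      apply Nat.Coprime.mul_right
      · apply Nat.Coprime.pow_right
        exact Nat.coprime_two_right.mpr hodd
      · apply Nat.coprime_of_dvd
        intro p hp hpa hpW
        have h1 := (AS.prime_dvd_WW hp).mp hpW
        by_cases hp2 : p = 2
        · subst hp2
          exact (Nat.not_even_iff_odd.mpr hodd) (even_iff_two_dvd.mpr hpa)
        · apply hadm2 p hp h1.1 h1.2 hp2 (ps M i h) hxH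
          rw [hbx]
          exact hpa.mul_left _
    refine ⟨fun n _ => aw_nonneg _ _ _, ?_, hM0, ?_, ?_⟩
    · unfold XPm XT
      apply div_nonneg _ (Nat.cast_nonneg _)
      exact Finset.sum_nonneg (fun n _ => aw_nonneg _ _ _)
    · intro n hn z hz p hp hpn
      rw [Finset.mem_singleton] at hz
      subst hz
      obtain ⟨u, hu1, -⟩ := distP_SM hi hb0 hn
      obtain ⟨g1, g2, g3, g4⟩ := hpodd p hp
      show aw ℓ' y ((n + ps M i h) / Ai M i) = 0
      by_contra h0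
      rw [hu1, distP_div] at h0
      obtain ⟨k1, k2, _⟩ := aw_ne_zero h0
      have h5 : p ∣ Ai M i * (u + h) := by
        have h6 : n + ps M i h = Ai M i * (u + h) := by rw [hu1]; unfold ps; ring
        rw [← h6]; exact hpn
      have h7 : p ∣ u + h := by
        refine Nat.Coprime.dvd_of_dvd_mul_left ?_ h5
        exact (distP_A_cop g1 g2).symm
      have h8 := (Nat.prime_dvd_prime_iff_eq g1 k1).mp h7
      omega
    · intro D hD hDle b' hb'
      have hDpr : ∀ p ∈ D, p.Prime ∧ p ≠ 2 := fun p hp => ⟨(hpodd p (hD hp)).1, (hpodd p (hD hp)).2.1⟩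
      have hcex : ∀ p : ℕ, ∃ c : ℕ, p ∈ D → Ai M i * c ≡ b' p [MOD p] := by
        intro p
        by_cases hp : p ∈ D
        · obtain ⟨g1, g2⟩ := hDpr p hp
          obtain ⟨m, -, hm⟩ := Nat.exists_mul_mod_eq_one_of_coprime (distP_A_cop (M := M) (i := i) g1 g2)
            g1.one_lt
          refine ⟨m * b' p, fun _ => ?_⟩
          have h1 : Ai M i * m ≡ 1 [MOD p] := by
            unfold Nat.ModEq
            rw [hm, Nat.mod_eq_of_lt g1.one_lt]
          have h2 := h1.mul_right (b' p)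
          rw [one_mul, mul_assoc] at h2
          exact h2
        · exact ⟨0, fun h => absurd h hp⟩
      choose c hc using hcex
      have hc' : ∀ p ∈ D, Ai M i * c p ≡ b' p [MOD p] := fun p hp => hc p hp
      have hnd : ∀ p ∈ D, ¬ p ∣ c p + h := by
        intro p hp hdv
        apply hb' p hp (ps M i h) (Finset.mem_singleton_self _)
        have h1 : Ai M i * c p + ps M i h ≡ b' p + ps M i h [MOD p] := (hc' p hp).add_right _
        have h2 : p ∣ Ai M i * c p + ps M i h := by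
          unfold ps
          rw [← mul_add]
          exact hdv.mul_left _
        exact (Nat.modEq_zero_iff_dvd).mp (h1.symm.trans ((Nat.modEq_zero_iff_dvd).mpr h2))
      have h1 := hMf (b0 + h) (fun p => c p + h) hcop D (mem_lev.mpr ⟨hD, hDle⟩) hnd
      have h2 : ∏ p ∈ D, gd {ps M i h} p = ∏ p ∈ D, 1 / ((p : ℝ) - 1) := by
        apply Finset.prod_congr rfl
        intro p _
        unfold gd
        rw [Finset.card_singleton]; norm_num
      have h3 : ∑ n ∈ (SM M ℓ e b).filter (fun n => ∀ p ∈ D, n ≡ b' p [MOD p]),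
          aM M y ℓ i (ps M i h) n =
          AD ((Ioc 0 ⌊Real.exp ℓ'⌋₊).filter (fun n => n ≡ b0 + h [MOD 2 ^ i * WW ℓ e])) (aw ℓ' y)
            (cb (fun p => c p + h)) D := by
        rw [distP_shift hi hb0 hh y D b' c hDpr hc']
        unfold AD
        rw [← Finset.filter_filter, Finset.sum_filter]
        apply Finset.sum_congr rfl
        intro m _
        by_cases hall : ∀ p ∈ D, m ≡ c p + h [MOD p]
        · rw [if_pos hall, Finset.prod_eq_one, mul_one]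
          intro p hp
          unfold cb
          rw [if_pos (hall p hp)]
        · rw [if_neg hall]
          push Not at hall
          obtain ⟨p, hp, hpn⟩ := hall
          rw [Finset.prod_eq_zero hp, mul_zero]
          unfold cb
          rw [if_neg hpn]
      show |∑ n ∈ (SM M ℓ e b).filter (fun n => ∀ p ∈ D, n ≡ b' p [MOD p]), aM M y ℓ i (ps M i h) n -
        XT ℓ' y / (((2 ^ i * WW ℓ e).totient : ℕ) : ℝ) * ∏ p ∈ D, gd {ps M i h} p| ≤ Mf D
      rw [h3, h2]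
      unfold RD at h1
      exact h1
  · intro s T hsT
    refine le_trans ?_ hMsum
    set A1 := (QQ δ υ ℓ e).powerset.filter (fun Q' => ((∏ p ∈ Q', p : ℕ) : ℝ) ≤ T ^ 2) with hA1
    set B1 := (PP δ ℓ e).powerset.filter (fun D => (∏ p ∈ D, p) ≤ zz δ ℓ ^ (4 * s + 5)) with hB1
    have hA1m : ∀ Q' ∈ A1, Q' ⊆ QQ δ υ ℓ e ∧ ((∏ p ∈ Q', p : ℕ) : ℝ) ≤ T ^ 2 := by
      intro Q' hQ'
      rw [hA1, Finset.mem_filter, Finset.mem_powerset] at hQ'
      exact hQ'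
    have hB1m : ∀ D ∈ B1, D ⊆ PP δ ℓ e ∧ (∏ p ∈ D, p) ≤ zz δ ℓ ^ (4 * s + 5) := by
      intro D hD
      rw [hB1, Finset.mem_filter, Finset.mem_powerset] at hD
      exact hD
    have hdisj : ∀ Q' ∈ A1, ∀ D ∈ B1, Disjoint D Q' := by
      intro Q' hQ' D hD
      exact Finset.disjoint_of_subset_left (hB1m D hD).1
        (Finset.disjoint_of_subset_right (hA1m Q' hQ').1 PPQQ_disj)
    have hK1 : (1 : ℝ) ≤ K := by exact_mod_cast hK
    have hterm : ∀ Q' ∈ A1, ∀ D ∈ B1, (24 * (K : ℝ)) ^ #Q' * ((K : ℝ) ^ #D * Mf (D ∪ Q')) ≤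
        ((24 * K : ℕ) : ℝ) ^ #(D ∪ Q') * Mf (D ∪ Q') := by
      intro Q' hQ' D hD
      rw [Finset.card_union_of_disjoint (hdisj Q' hQ' D hD), pow_add]
      have h0 : 0 ≤ Mf (D ∪ Q') := hM0 _ (Finset.union_subset
        ((hB1m D hD).1.trans Finset.subset_union_left) ((hA1m Q' hQ').1.trans Finset.subset_union_right))
      push_cast
      have h1 : (K : ℝ) ^ #D ≤ (24 * (K : ℝ)) ^ #D := pow_le_pow_left₀ (by positivity) (by linarith) _
      have h2 : 0 ≤ (24 * (K : ℝ)) ^ #Q' := by positivity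
      calc (24 * (K : ℝ)) ^ #Q' * ((K : ℝ) ^ #D * Mf (D ∪ Q')) =
          (24 * (K : ℝ)) ^ #Q' * Mf (D ∪ Q') * (K : ℝ) ^ #D := by ring
        _ ≤ (24 * (K : ℝ)) ^ #Q' * Mf (D ∪ Q') * (24 * (K : ℝ)) ^ #D :=
            mul_le_mul_of_nonneg_left h1 (mul_nonneg h2 h0)
        _ = _ := by ring
    calc ∑ Q' ∈ A1, (24 * (K : ℝ)) ^ #Q' * ∑ D ∈ B1, (K : ℝ) ^ #D * Mf (D ∪ Q')
        ≤ ∑ Q' ∈ A1, ∑ D ∈ B1, ((24 * K : ℕ) : ℝ) ^ #(D ∪ Q') * Mf (D ∪ Q') := by
          apply Finset.sum_le_sum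
          intro Q' hQ'
          rw [Finset.mul_sum]
          exact Finset.sum_le_sum (fun D hD => hterm Q' hQ' D hD)
      _ = ∑ x ∈ A1 ×ˢ B1, ((24 * K : ℕ) : ℝ) ^ #(x.2 ∪ x.1) * Mf (x.2 ∪ x.1) := by
          rw [Finset.sum_product]
      _ = ∑ E ∈ (A1 ×ˢ B1).image (fun x => x.2 ∪ x.1), ((24 * K : ℕ) : ℝ) ^ #E * Mf E := by
          rw [Finset.sum_image]
          rintro ⟨a, d⟩ h1 ⟨a', d'⟩ h2 h3
          simp only [Finset.coe_product, Set.mem_prod, Finset.mem_coe] at h1 h2 h3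
          have e1 : ∀ a ∈ A1, ∀ d ∈ B1, (d ∪ a) ∩ PP δ ℓ e = d := by
            intro a ha d hd
            rw [Finset.union_inter_distrib_right, Finset.inter_eq_left.mpr (hB1m d hd).1]
            have : a ∩ PP δ ℓ e = ∅ := by
              rw [← Finset.disjoint_iff_inter_eq_empty]
              exact Finset.disjoint_of_subset_left (hA1m a ha).1 PPQQ_disj.symm
            rw [this, Finset.union_empty]
          have e2 : ∀ a ∈ A1, ∀ d ∈ B1, (d ∪ a) ∩ QQ δ υ ℓ e = a := by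
            intro a ha d hd
            rw [Finset.union_inter_distrib_right, Finset.inter_eq_left.mpr (hA1m a ha).1]
            have : d ∩ QQ δ υ ℓ e = ∅ := by
              rw [← Finset.disjoint_iff_inter_eq_empty]
              exact Finset.disjoint_of_subset_left (hB1m d hd).1 PPQQ_disj
            rw [this, Finset.empty_union]
          have f1 := e1 a h1.1 d h1.2
          have f2 := e1 a' h2.1 d' h2.2
          have f3 := e2 a h1.1 d h1.2
          have f4 := e2 a' h2.1 d' h2.2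
          rw [h3] at f1 f3
          rw [Prod.mk.injEq]
          exact ⟨f3.symm.trans f4, f1.symm.trans f2⟩
      _ ≤ ∑ D ∈ lev (PP δ ℓ e ∪ QQ δ υ ℓ e) (Real.exp (ℓ' / 4)), ((24 * K : ℕ) : ℝ) ^ #D * Mf D := by
          apply Finset.sum_le_sum_of_subset_of_nonneg
          · intro E hE
            rw [Finset.mem_image] at hE
            obtain ⟨⟨a, d⟩, h1, rfl⟩ := hE
            rw [Finset.mem_product] at h1
            rw [mem_lev]
            refine ⟨Finset.union_subset ((hB1m d h1.2).1.trans Finset.subset_union_left)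
              ((hA1m a h1.1).1.trans Finset.subset_union_right), ?_⟩
            rw [Finset.prod_union (hdisj a h1.1 d h1.2)]
            push_cast
            refine le_trans ?_ hsT
            have h2 : ((∏ p ∈ d, p : ℕ) : ℝ) ≤ (zz δ ℓ : ℝ) ^ (4 * s + 5) := by
              exact_mod_cast (hB1m d h1.2).2
            have h3 := (hA1m a h1.1).2
            push_cast at h2 h3
            apply mul_le_mul h2 h3 (Finset.prod_nonneg (fun p _ => Nat.cast_nonneg p)) (by positivity)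
          · intro D hD _
            exact mul_nonneg (by positivity) (hM0 D (mem_lev.mp hD).1)


end Pool.Agent.H81.CC
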