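import Pool.Agent.H81.CC.Key
import Pool.Agent.H81.DH.Main

/-!
JOB CC-EQRATIO. Chains with equal ratio.

PROOF of `equal_ratio`. `k = 0, 1`: trivial (`d = 1`, `c = 0`, infinitely many primes; `k = 0`: all `p`). For `k ≥ 2`: `n₁` from
`scales k δ₀`; `M = n₁ k + 1`, `B` from `key`. Given `Y` let `S, w` be as in `key`. For `n ∈ S` let
`A_n = {i | i < M ∧ ∃ h ∈ B, (2^i n + h).Prime ∧ Y < 2^i n + h}`. `∑_n w n ∑_{u : Fin n₁ → Fin k} ind A_n (∑ u) ≥ δ₀ k^{n₁} ∑ w`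
(every `∑ u < M`), so some `n` has `∑_u ind A_n (∑ u) ≥ δ₀ k^{n₁}`, and `scales` gives `s, d > 0` with `s + j d ∈ A_n` for `j < k`, with
shifts `h_j ∈ B`. So for every `Y` there are `(s, d, h) ∈ [0,M) × [1,M] × B^k` (a finite set: `d ≤ M` since `k ≥ 2`) and `n` with
`q_j = 2^(s + j d) n + h_j` prime and `q_0 > Y`. Pigeonhole: one `(s,d,h)` works for arbitrarily large `Y`. With
`c_j = h_{j+1} - 2^d h_j`: `q_{j+1} = 2^d q_j + c_j`.
-/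

set_option autoImplicit false

open Finset Filter Topology

namespace Pool.Agent.H81.CC

open Pool.Agent.H81.DH (ind ind_of_mem ind_of_notMem scales)

theorem eqr_step (k : ℕ) (hk : 2 ≤ k) : ∃ (M : ℕ) (B : Finset ℕ), ∀ Y : ℕ, ∃ (n s d : ℕ) (h : ℕ → ℕ),
    s < M ∧ 0 < d ∧ d < M ∧ (∀ j < k, h j ∈ B) ∧ (∀ j < k, (2 ^ (s + j * d) * n + h j).Prime) ∧
    Y < 2 ^ s * n + h 0 := by
  classical
  obtain ⟨δ₀, hδ₀, hkey⟩ := key
  obtain ⟨n₁, hn₁⟩ := scales k hδ₀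
  obtain ⟨B, hB⟩ := hkey (n₁ * k + 1) (Nat.le_add_left 1 _)
  refine ⟨n₁ * k + 1, B, fun Y => ?_⟩
  obtain ⟨S, w, hw0, hwpos, hw⟩ := hB Y
  let A : ℕ → Set ℕ := fun n => {i | i < n₁ * k + 1 ∧ ∃ h ∈ B, (2 ^ i * n + h).Prime ∧ Y < 2 ^ i * n + h}
  have hsum : ∀ u : Fin n₁ → Fin k, ∑ i, (u i : ℕ) < n₁ * k + 1 := by
    intro u
    have : ∑ i, (u i : ℕ) ≤ n₁ * k := by
      calc ∑ i, (u i : ℕ) ≤ ∑ _i : Fin n₁, k := Finset.sum_le_sum fun i _ => (u i).2.le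
        _ = n₁ * k := by simp
    omega
  have hF : ∑ n ∈ S, w n * (δ₀ * (k : ℝ) ^ n₁) ≤
      ∑ n ∈ S, w n * ∑ u : Fin n₁ → Fin k, ind (A n) (∑ i, (u i : ℕ)) := by
    calc ∑ n ∈ S, w n * (δ₀ * (k : ℝ) ^ n₁)
        = ∑ _u : Fin n₁ → Fin k, δ₀ * ∑ n ∈ S, w n := by
          rw [Finset.sum_const, Finset.card_univ, Fintype.card_fun, Fintype.card_fin,
            Fintype.card_fin, nsmul_eq_mul, ← Finset.sum_mul]
          push_cast
          ring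
      _ ≤ ∑ u : Fin n₁ → Fin k, ∑ n ∈ S, w n * ind (A n) (∑ i, (u i : ℕ)) := by
          refine Finset.sum_le_sum fun u _ => ?_
          refine (hw _ (hsum u)).trans (le_of_eq ?_)
          rw [Finset.sum_filter]
          refine Finset.sum_congr rfl fun n _ => ?_
          by_cases h : ∃ h ∈ B, (2 ^ (∑ i, (u i : ℕ)) * n + h).Prime ∧ Y < 2 ^ (∑ i, (u i : ℕ)) * n + h
          · rw [if_pos h, ind_of_mem (A := A n) ⟨hsum u, h⟩, mul_one]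
          · rw [if_neg h, ind_of_notMem (A := A n) (fun h' => h h'.2), mul_zero]
      _ = _ := by
          rw [Finset.sum_comm]
          exact Finset.sum_congr rfl fun n _ => (Finset.mul_sum _ _ _).symm
  obtain ⟨n, hnS, hn⟩ : ∃ n ∈ S, δ₀ * (k : ℝ) ^ n₁ ≤
      ∑ u : Fin n₁ → Fin k, ind (A n) (∑ i, (u i : ℕ)) := by
    by_contra hcon
    push Not at hcon
    obtain ⟨m, hmS, hm⟩ : ∃ m ∈ S, 0 < w m := by
      by_contra h
      push Not at h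
      exact absurd (Finset.sum_nonpos h) (not_le.2 hwpos)
    refine absurd hF (not_le.2 (Finset.sum_lt_sum (fun n hn => ?_) ⟨m, hmS, ?_⟩))
    · exact mul_le_mul_of_nonneg_left (hcon n hn).le (hw0 n hn)
    · exact mul_lt_mul_of_pos_left (hcon m hmS) hm
  obtain ⟨s, d, hd, hA⟩ := hn₁ (A n) hn
  have hA' : ∀ j, ∃ h, j < k → (h ∈ B ∧ (2 ^ (s + j * d) * n + h).Prime ∧ Y < 2 ^ (s + j * d) * n + h) := by
    intro j
    by_cases hj : j < k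
    · obtain ⟨_, h, h1, h2, h3⟩ := hA j hj
      exact ⟨h, fun _ => ⟨h1, h2, h3⟩⟩
    · exact ⟨0, fun h => absurd h hj⟩
  choose h hh using hA'
  refine ⟨n, s, d, h, ?_, hd, ?_, fun j hj => (hh j hj).1, fun j hj => (hh j hj).2.1, ?_⟩
  · have := (hA 0 (by omega)).1
    simpa using this
  · have := (hA 1 (by omega)).1
    simp only [one_mul] at this
    omega
  · have := (hh 0 (by omega)).2.2
    simpa using this

theorem equal_ratio (k : ℕ) : ∃ d : ℕ, 1 ≤ d ∧ ∃ c : ℕ → ℤ,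
    {p : ℕ | ∃ q : ℕ → ℕ, q 0 = p ∧ (∀ j < k, (q j).Prime) ∧
      ∀ j, j + 1 < k → (q (j + 1) : ℤ) = 2 ^ d * (q j : ℤ) + c j}.Infinite := by
  rcases Nat.lt_or_ge k 2 with hk | hk
  · refine ⟨1, le_rfl, fun _ => 0, Nat.infinite_setOfPred_prime.mono ?_⟩
    intro p hp
    exact ⟨fun _ => p, rfl, fun _ _ => hp, fun j hj => absurd hj (by omega)⟩
  obtain ⟨M, B, hMB⟩ := eqr_step k hk
  choose n s d h h1 h2 h3 h4 h5 h6 using hMB
  let f : ℕ → Fin M × Fin M × (Fin k → B) := fun Y =>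
    (⟨s Y, h1 Y⟩, ⟨d Y, h3 Y⟩, fun j => ⟨h Y j, h4 Y j j.2⟩)
  obtain ⟨⟨a, b, g⟩, hfib⟩ := Finite.exists_infinite_fiber f
  have hinf : (f ⁻¹' {(a, b, g)}).Infinite := Set.infinite_coe_iff.1 hfib
  obtain ⟨Y₀, hY₀⟩ := hinf.nonempty
  have hkey2 : ∀ Y ∈ f ⁻¹' {(a, b, g)}, s Y = a ∧ d Y = b ∧ ∀ j : Fin k, h Y j = g j := by
    intro Y hY
    have hY' : f Y = (a, b, g) := hY
    have e1 : (⟨s Y, h1 Y⟩ : Fin M) = a := congrArg Prod.fst hY'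
    have e2 : (⟨d Y, h3 Y⟩ : Fin M) = b := congrArg (fun z => z.2.1) hY'
    have e3 : (fun j : Fin k => (⟨h Y j, h4 Y j j.2⟩ : B)) = g := congrArg (fun z => z.2.2) hY'
    refine ⟨congrArg Fin.val e1, congrArg Fin.val e2, fun j => ?_⟩
    exact congrArg Subtype.val (congrFun e3 j)
  refine ⟨b, ?_, fun j => (h Y₀ (j + 1) : ℤ) - 2 ^ (b : ℕ) * (h Y₀ j : ℤ), ?_⟩
  · have := h2 Y₀
    rw [(hkey2 Y₀ hY₀).2.1] at this
    exact this
  · refine Set.infinite_of_forall_exists_gt fun N => ?_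
    obtain ⟨Y, hY, hYN⟩ := hinf.exists_gt N
    obtain ⟨e1, e2, e3⟩ := hkey2 Y hY
    have e4 : ∀ j < k, h Y j = h Y₀ j := fun j hj => by
      rw [e3 ⟨j, hj⟩, (hkey2 Y₀ hY₀).2.2 ⟨j, hj⟩]
    refine ⟨2 ^ s Y * n Y + h Y 0, ⟨fun j => 2 ^ (s Y + j * d Y) * n Y + h Y j, by simp,
      fun j hj => h5 Y j hj, fun j hj => ?_⟩, lt_trans hYN (h6 Y)⟩
    beta_reduce
    rw [← e4 j (by omega), ← e4 (j + 1) hj, ← e2]
    push_cast
    have : (2 : ℤ) ^ (s Y + (j + 1) * d Y) = 2 ^ d Y * 2 ^ (s Y + j * d Y) := by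
      rw [← pow_add]
      congr 1
      ring
    rw [this]
    ring

end Pool.Agent.H81.CC
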