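import Pool.Agent.H81.CC.Defs
import Pool.Agent.H16.SB3

/-!
JOB CC-SB. The small moduli property from the mollifier bound.

PROOF. The proof of `smallB` (H16/SB3.lean) with `hL1 ℓ` (`mollSmall`) replaced by the hypothesis `MollAt (1/200) (A+12) ℓ q₁`
(it uses only this property of `q₁`). `SmallProp A A2 ℓ q₁` unfolds to the conclusion.
-/

set_option autoImplicit false

open Complex Finset Filter Topology MeasureTheory
open scoped ComplexConjugate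
open ArithmeticFunction (vonMangoldt moebius)
open DirichletCharacter

namespace Pool.Agent.H81.CC

open Pool.Agent.H16 Pool.Agent.H81.AS

theorem small_of_moll (A A2 : ℝ) (hA : 0 ≤ A) (hA2 : 0 ≤ A2) : ∃ L0 : ℝ, ∀ ℓ : ℝ, L0 ≤ ℓ →
    ∀ q₁ : ℕ, MollAt (1 / 200) (A + 12) ℓ q₁ → SmallProp A A2 ℓ q₁ := by
  classical
  set A' : ℝ := A + 12 with hA'
  set δ : ℝ := 1 / 200 with hδ
  have ev1 : ∀ᶠ ℓ : ℝ in atTop, 8000 ≤ (Real.log ℓ) ^ 2 := by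
    have h := (Real.tendsto_log_atTop).eventually (eventually_ge_atTop (100 : ℝ))
    filter_upwards [h] with ℓ hℓ
    nlinarith
  have ev2 := ev_log3 A2 hA2
  have ev3 := ev_loglin A2 (δ / 20) (by norm_num)
  have ev4 := ev_exp_pow (3 / 100) (A + 4) 20000 (by norm_num) (by norm_num)
  obtain ⟨L2, hL2⟩ := Filter.eventually_atTop.mp
    (ev1.and (ev2.and (ev3.and (ev4.and (eventually_ge_atTop (220000 : ℝ))))))
  refine ⟨L2, fun ℓ hℓ q₁ hq => ?_⟩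
  obtain ⟨c1, c2, c3, c4, c5⟩ := hL2 ℓ hℓ
  intro W hW1 hW D hD B hB1 hB0
  have hℓ0 : 0 < ℓ := by linarith
  have hℓ1 : 1 ≤ ℓ := by linarith
  have hlog2 : 0 < (Real.log ℓ) ^ 2 := by linarith
  have hWpos : (0 : ℝ) < W := by exact_mod_cast hW1
  have hW' : Real.log W ≤ δ / 20 * ℓ := by
    refine hW.trans ?_
    rw [div_le_iff₀ (by positivity), hδ]
    nlinarith
  have hp : 0 < ℓ ^ (-A) := by positivity
  have hE := Real.exp_pos ℓ
  have hδℓ : 10 ≤ δ * ℓ := by rw [hδ]; linarith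
  have hδℓ0 : 0 < δ * ℓ := by linarith
  obtain ⟨x1, x2, x3, x4⟩ := x0_facts ℓ (by linarith)
  set N := ⌊Real.exp ℓ⌋₊ with hN
  set v := vH δ ℓ with hv
  have hlogd : ∀ d ∈ D, Real.log d ≤ A2 * Real.log ℓ := by
    intro d hd
    obtain ⟨h1, h2, _⟩ := hD d hd
    have hd0 : (0 : ℝ) < d := by exact_mod_cast h1
    calc Real.log d ≤ Real.log (ℓ ^ A2) := Real.log_le_log hd0 h2
      _ = _ := Real.log_rpow hℓ0 _
  have hWd : ∀ d ∈ D, ((W * d : ℕ) : ℝ) ≤ Real.exp (δ * ℓ / 10) := by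
    intro d hd
    obtain ⟨h1, h2, _⟩ := hD d hd
    have hd0 : (0 : ℝ) < d := by exact_mod_cast h1
    push_cast
    rw [← Real.exp_log (mul_pos hWpos hd0), Real.log_mul hWpos.ne' hd0.ne']
    apply Real.exp_le_exp.mpr
    have := hlogd d hd
    linarith
  have hcardD : (#D : ℝ) ≤ Real.exp (δ * ℓ / 10) := by
    have h4 : D ⊆ Finset.Icc 1 ⌊ℓ ^ A2⌋₊ := by
      intro d hd
      obtain ⟨h1, h2, _⟩ := hD d hd
      rw [Finset.mem_Icc]
      exact ⟨h1, Nat.le_floor h2⟩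
    have h5 := Finset.card_le_card h4
    rw [Nat.card_Icc, Nat.add_sub_cancel] at h5
    calc (#D : ℝ) ≤ (⌊ℓ ^ A2⌋₊ : ℝ) := by exact_mod_cast h5
      _ ≤ ℓ ^ A2 := Nat.floor_le (by positivity)
      _ = Real.exp (A2 * Real.log ℓ) := by rw [Real.rpow_def_of_pos hℓ0, mul_comm]
      _ ≤ Real.exp (δ * ℓ / 10) := by
          apply Real.exp_le_exp.mpr
          linarith
  have hDbase : ∀ d ∈ D, 1 ≤ d ∧ ((W * d : ℕ) : ℝ) ≤ Real.exp (δ * ℓ / 10) ∧ Nat.Coprime d W :=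
    fun d hd => ⟨(hD d hd).1, hWd d hd, (hD d hd).2.2.1⟩
  have hsm := block_boundB δ ℓ (by norm_num) hδℓ (by linarith) W hW1 D hDbase hcardD
    (ℓ ^ A') (ℓ ^ (-A')) (by positivity) (by positivity) (by
      intro d hd ξ hξ t ht
      obtain ⟨h1, h2, h3, h4⟩ := hD d hd
      have hpos : 0 < W * d := Nat.mul_pos hW1 h1
      have : NeZero (W * d) := ⟨by omega⟩
      apply rf_small_of_moll ξ δ ℓ (by norm_num) hℓ1 t
      apply hq (W * d) _ h4 ξ ((mem_fam W d ξ).mp hξ).1 t ht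
      have hdpos : (0 : ℝ) < d := by exact_mod_cast h1
      push_cast
      rw [Real.log_mul hWpos.ne' hdpos.ne']
      have e1 := hlogd d hd
      have e2 : ℓ / (Real.log ℓ) ^ 2 = ℓ / (2 * (Real.log ℓ) ^ 2) + ℓ / (2 * (Real.log ℓ) ^ 2) := by
        field_simp
        ring
      linarith) B hB1
  -- type I
  have hK1 : 1 ≤ ⌊Real.exp (0.74 * ℓ)⌋₊ := by
    apply Nat.le_floor
    rw [Nat.cast_one]
    exact Real.one_le_exp (by positivity)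
  have hNlt : Real.exp ℓ < N + 1 := Nat.lt_floor_add_one _
  have hK1N : ((⌊Real.exp (0.74 * ℓ)⌋₊ : ℕ) : ℝ) ≤ (N : ℝ) ^ (3 / 4 : ℝ) := by
    have h1 : ((⌊Real.exp (0.74 * ℓ)⌋₊ : ℕ) : ℝ) ≤ Real.exp (0.74 * ℓ) := Nat.floor_le (Real.exp_pos _).le
    refine h1.trans ?_
    have h2 : Real.exp (ℓ - 1) ≤ N := by
      rw [Real.exp_sub]
      have h3 : Real.exp ℓ / Real.exp 1 ≤ Real.exp ℓ / 2 := by
        apply div_le_div_of_nonneg_left hE.le (by norm_num)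
        have := Real.exp_one_gt_d9; linarith
      have h4 : (4 : ℝ) ≤ Real.exp ℓ := by
        have := Real.add_one_le_exp ℓ; linarith
      linarith
    calc Real.exp (0.74 * ℓ) ≤ Real.exp (3 / 4 * (ℓ - 1)) := Real.exp_le_exp.mpr (by linarith)
      _ = (Real.exp (ℓ - 1)) ^ (3 / 4 : ℝ) := by rw [← Real.exp_mul]; congr 1; ring
      _ ≤ (N : ℝ) ^ (3 / 4 : ℝ) := Real.rpow_le_rpow (Real.exp_pos _).le h2 (by norm_num)
  have hlogN : Real.log N ≤ ℓ := by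
    have hNpos : (0 : ℝ) < N := by exact_mod_cast x3
    calc Real.log N ≤ Real.log (Real.exp ℓ) := Real.log_le_log hNpos x4
      _ = ℓ := Real.log_exp _
  have hlogN0 : 0 ≤ Real.log (N : ℝ) := Real.log_natCast_nonneg _
  have htI : ∑ d ∈ D, ∑ ξ ∈ fam W d, ‖∑ n ∈ Finset.Icc 1 N,
      (ξ (n : ℕ) * (B * T1 v) n) * ((tent (Real.exp ℓ / 3) n : ℝ) : ℂ)‖ ≤
      Real.exp ℓ * (ℓ ^ (-A) / 2) := by
    set X : ℝ := 77 * (4 * Real.exp (δ * ℓ / 10)) * (Real.exp (2 * δ * ℓ)) ^ 3 * (1 + ℓ) ^ 4 *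
      Real.exp (15 / 16 * ℓ) with hX
    have hX0 : 0 ≤ X := by positivity
    have hpt : ∀ d ∈ D, ∀ ξ ∈ fam W d, ‖∑ n ∈ Finset.Icc 1 N,
      (ξ (n : ℕ) * (B * T1 v) n) * ((tent (Real.exp ℓ / 3) n : ℝ) : ℂ)‖ ≤ X := by
      intro d hd ξ hξ
      obtain ⟨h1, h2, h3⟩ := hDbase d hd
      have hpos : 0 < W * d := Nat.mul_pos hW1 h1
      have : NeZero (W * d) := ⟨by omega⟩
      have hξ1 := ((mem_fam W d ξ).mp hξ).1
      have hDfl : (⌊Real.exp (2 * δ * ℓ)⌋₊ : ℝ) ≤ Real.exp (2 * δ * ℓ) :=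
        Nat.floor_le (Real.exp_pos _).le
      have hD1 : 1 ≤ ⌊Real.exp (2 * δ * ℓ)⌋₊ := by
        apply Nat.le_floor
        rw [Nat.cast_one]
        exact Real.one_le_exp (by positivity)
      have hb := typeI_B ξ (4 * ((W * d : ℕ) : ℝ)) (by positivity)
        (fun n => norm_sum_Ioc_char ξ hξ1 n) v ⌊Real.exp (2 * δ * ℓ)⌋₊ hD1
        (vH_nonneg _ _ hδℓ0) (vH_le_one _ _ hδℓ0) (vH_eq_zero _ _ hδℓ0) N x3
        (Real.exp ℓ / 3) (by positivity) B hB1 ⌊Real.exp (0.74 * ℓ)⌋₊ hK1 hK1N (by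
          intro n hn
          exact hB0 n ((Nat.floor_lt (Real.exp_pos _).le).mp hn))
      refine hb.trans ?_
      rw [hX]
      have e2 : (⌊Real.exp (2 * δ * ℓ)⌋₊ : ℝ) ^ 3 ≤ Real.exp (2 * δ * ℓ) ^ 3 :=
        pow_le_pow_left₀ (Nat.cast_nonneg _) hDfl 3
      have e3 : (1 + Real.log (N : ℝ)) ^ 4 ≤ (1 + ℓ) ^ 4 :=
        pow_le_pow_left₀ (by linarith) (by linarith) 4
      have e4 : (N : ℝ) ^ (15 / 16 : ℝ) ≤ Real.exp (15 / 16 * ℓ) := by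
        calc (N : ℝ) ^ (15 / 16 : ℝ) ≤ (Real.exp ℓ) ^ (15 / 16 : ℝ) :=
              Real.rpow_le_rpow (Nat.cast_nonneg _) x4 (by norm_num)
          _ = Real.exp (15 / 16 * ℓ) := by rw [← Real.exp_mul]; congr 1; ring
      have f1 : 77 * (4 * ((W * d : ℕ) : ℝ)) ≤ 77 * (4 * Real.exp (δ * ℓ / 10)) := by linarith
      have f2 := mul_le_mul f1 e2 (by positivity) (by positivity)
      have f3 := mul_le_mul f2 e3 (by positivity) (by positivity)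
      exact mul_le_mul f3 e4 (by positivity) (by positivity)
    have hcard : ∀ d ∈ D, (#(fam W d) : ℝ) ≤ Real.exp (δ * ℓ / 10) := by
      intro d hd
      obtain ⟨h1, h2, _⟩ := hDbase d hd
      have h3 : (#(fam W d) : ℝ) ≤ ((W * d : ℕ) : ℝ) := by
        exact_mod_cast card_fam_le W d (Nat.mul_pos hW1 h1)
      exact h3.trans h2
    calc ∑ d ∈ D, ∑ ξ ∈ fam W d, ‖∑ n ∈ Finset.Icc 1 N,
      (ξ (n : ℕ) * (B * T1 v) n) * ((tent (Real.exp ℓ / 3) n : ℝ) : ℂ)‖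
        ≤ ∑ d ∈ D, ∑ ξ ∈ fam W d, X :=
          Finset.sum_le_sum (fun d hd => Finset.sum_le_sum (fun ξ hξ => hpt d hd ξ hξ))
      _ = ∑ d ∈ D, (#(fam W d) : ℝ) * X := by
          apply Finset.sum_congr rfl
          intro d _
          rw [Finset.sum_const, nsmul_eq_mul]
      _ ≤ ∑ d ∈ D, Real.exp (δ * ℓ / 10) * X :=
          Finset.sum_le_sum (fun d hd => mul_le_mul_of_nonneg_right (hcard d hd) hX0)
      _ = (#D : ℝ) * (Real.exp (δ * ℓ / 10) * X) := by rw [Finset.sum_const, nsmul_eq_mul]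
      _ ≤ Real.exp (δ * ℓ / 10) * (Real.exp (δ * ℓ / 10) * X) :=
          mul_le_mul_of_nonneg_right hcardD (by positivity)
      _ = 308 * (1 + ℓ) ^ 4 * Real.exp (0.969 * ℓ) := by
          rw [hX]
          have e : Real.exp (δ * ℓ / 10) * (Real.exp (δ * ℓ / 10) * (77 * (4 * Real.exp (δ * ℓ / 10)) *
            (Real.exp (2 * δ * ℓ)) ^ 3 * (1 + ℓ) ^ 4 * Real.exp (15 / 16 * ℓ))) =
            308 * (1 + ℓ) ^ 4 * (Real.exp (δ * ℓ / 10) * Real.exp (δ * ℓ / 10) *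
            Real.exp (δ * ℓ / 10) * (Real.exp (2 * δ * ℓ)) ^ 3 * Real.exp (15 / 16 * ℓ)) := by ring
          rw [e]
          congr 1
          rw [← Real.exp_nat_mul, ← Real.exp_add, ← Real.exp_add, ← Real.exp_add, ← Real.exp_add]
          congr 1
          rw [hδ]
          push_cast
          ring
      _ ≤ Real.exp ℓ * (ℓ ^ (-A) / 2) := by
          have e1 : 20000 * ℓ ^ (A + 4) * Real.exp (-(3 / 100 * ℓ)) =
              (ℓ ^ (-A))⁻¹ * (20000 * ℓ ^ 4 * Real.exp (-(3 / 100 * ℓ))) := by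
            rw [Real.rpow_add hℓ0, Real.rpow_neg hℓ0.le, inv_inv]
            norm_cast
            ring
          rw [e1, inv_mul_le_iff₀ hp, mul_one] at c4
          have e2 : (1 + ℓ) ^ 4 ≤ 16 * ℓ ^ 4 := by
            calc (1 + ℓ) ^ 4 ≤ (2 * ℓ) ^ 4 := pow_le_pow_left₀ (by linarith) (by linarith) 4
              _ = 16 * ℓ ^ 4 := by ring
          have e3 : Real.exp (0.969 * ℓ) ≤ Real.exp ℓ * Real.exp (-(3 / 100 * ℓ)) := by
            rw [← Real.exp_add]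
            apply Real.exp_le_exp.mpr
            linarith
          have h0 : 0 ≤ ℓ ^ 4 * Real.exp (-(3 / 100 * ℓ)) := by positivity
          calc 308 * (1 + ℓ) ^ 4 * Real.exp (0.969 * ℓ) ≤
              308 * (16 * ℓ ^ 4) * (Real.exp ℓ * Real.exp (-(3 / 100 * ℓ))) := by
                apply mul_le_mul _ e3 (Real.exp_pos _).le (by positivity)
                linarith
            _ = Real.exp ℓ * (4928 * (ℓ ^ 4 * Real.exp (-(3 / 100 * ℓ)))) := by ring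
            _ ≤ _ := by
                apply mul_le_mul_of_nonneg_left _ hE.le
                linarith
  have hII : 2 * Real.exp ℓ * ((1 + ℓ) * (1920 * ℓ ^ 8) * (4 * ℓ ^ (-A') + 10 * ℓ ^ 2 / ℓ ^ A')) ≤
      Real.exp ℓ * (ℓ ^ (-A) / 2) := by
    have e1 : ℓ ^ (-A') = ℓ ^ (-A) / ℓ ^ 12 := by
      have : -A' = -A - ((12 : ℕ) : ℝ) := by rw [hA']; push_cast; ring
      rw [this, Real.rpow_sub hℓ0, Real.rpow_natCast]
    have e3 : 10 * ℓ ^ 2 / ℓ ^ A' = 10 * ℓ ^ 2 * ℓ ^ (-A') := by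
      rw [Real.rpow_neg hℓ0.le, div_eq_mul_inv]
    rw [e3, e1]
    have e4 : 4 * (ℓ ^ (-A) / ℓ ^ 12) + 10 * ℓ ^ 2 * (ℓ ^ (-A) / ℓ ^ 12) ≤
        14 * ℓ ^ 2 * (ℓ ^ (-A) / ℓ ^ 12) := by
      have h1 : (1 : ℝ) ≤ ℓ ^ 2 := one_le_pow₀ hℓ1
      have h2 : 0 ≤ ℓ ^ (-A) / ℓ ^ 12 := by positivity
      nlinarith
    have e5 : (1 + ℓ) * (1920 * ℓ ^ 8) * (14 * ℓ ^ 2 * (ℓ ^ (-A) / ℓ ^ 12)) ≤
        (2 * ℓ) * (1920 * ℓ ^ 8) * (14 * ℓ ^ 2 * (ℓ ^ (-A) / ℓ ^ 12)) := by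
      apply mul_le_mul_of_nonneg_right _ (by positivity)
      apply mul_le_mul_of_nonneg_right _ (by positivity)
      linarith
    have e6 : (2 * ℓ) * (1920 * ℓ ^ 8) * (14 * ℓ ^ 2 * (ℓ ^ (-A) / ℓ ^ 12)) =
        ℓ ^ (-A) * (53760 / ℓ) := by
      field_simp
      ring
    have e7 : 53760 / ℓ ≤ 1 / 4 := by rw [div_le_iff₀ hℓ0]; linarith
    calc 2 * Real.exp ℓ * ((1 + ℓ) * (1920 * ℓ ^ 8) *
        (4 * (ℓ ^ (-A) / ℓ ^ 12) + 10 * ℓ ^ 2 * (ℓ ^ (-A) / ℓ ^ 12))) ≤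
        2 * Real.exp ℓ * ((1 + ℓ) * (1920 * ℓ ^ 8) * (14 * ℓ ^ 2 * (ℓ ^ (-A) / ℓ ^ 12))) := by
          apply mul_le_mul_of_nonneg_left _ (by positivity)
          exact mul_le_mul_of_nonneg_left e4 (by positivity)
      _ ≤ 2 * Real.exp ℓ * (ℓ ^ (-A) * (53760 / ℓ)) := by
          apply mul_le_mul_of_nonneg_left _ (by positivity)
          rw [← e6]; exact e5
      _ ≤ 2 * Real.exp ℓ * (ℓ ^ (-A) * (1 / 4)) := by
          apply mul_le_mul_of_nonneg_left _ (by positivity)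
          exact mul_le_mul_of_nonneg_left e7 hp.le
      _ = _ := by ring
  -- split
  have hsplit : ∀ d : ℕ, ∀ ξ : DirichletCharacter ℂ (W * d), ‖∑ n ∈ Finset.Icc 1 N,
      (ξ (n : ℕ) * (B * LamC) n) * ((tent (Real.exp ℓ / 3) n : ℝ) : ℂ)‖ ≤
      ‖∑ n ∈ Finset.Icc 1 N, (ξ (n : ℕ) * (B * T1 v) n) * ((tent (Real.exp ℓ / 3) n : ℝ) : ℂ)‖ +
      ‖∑ n ∈ Finset.Icc 1 N, (ξ (n : ℕ) * (B * (LamC * rf v ^ 3)) n) *
        ((tent (Real.exp ℓ / 3) n : ℝ) : ℂ)‖ := by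
    intro d ξ
    have e : ∑ n ∈ Finset.Icc 1 N, (ξ (n : ℕ) * (B * LamC) n) * ((tent (Real.exp ℓ / 3) n : ℝ) : ℂ) =
        ∑ n ∈ Finset.Icc 1 N, (ξ (n : ℕ) * (B * T1 v) n) * ((tent (Real.exp ℓ / 3) n : ℝ) : ℂ) +
        ∑ n ∈ Finset.Icc 1 N, (ξ (n : ℕ) * (B * (LamC * rf v ^ 3)) n) *
          ((tent (Real.exp ℓ / 3) n : ℝ) : ℂ) := by
      rw [← Finset.sum_add_distrib]
      apply Finset.sum_congr rfl
      intro n _
      have h1 : (B * LamC) n = (B * T1 v) n + (B * (LamC * rf v ^ 3)) n := by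
        have h2 : B * LamC = B * T1 v + B * (LamC * rf v ^ 3) := by
          conv_lhs => rw [Lam_ident' v]
          rw [mul_add]
        rw [h2]
        rfl
      rw [h1]
      ring
    rw [e]
    exact norm_add_le _ _
  calc ∑ d ∈ D, ∑ ξ ∈ fam W d, ‖∑ n ∈ Finset.Icc 1 N,
      (ξ (n : ℕ) * (B * LamC) n) * ((tent (Real.exp ℓ / 3) n : ℝ) : ℂ)‖ ≤
      ∑ d ∈ D, ∑ ξ ∈ fam W d, (‖∑ n ∈ Finset.Icc 1 N, (ξ (n : ℕ) * (B * T1 v) n) *
        ((tent (Real.exp ℓ / 3) n : ℝ) : ℂ)‖ +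
      ‖∑ n ∈ Finset.Icc 1 N, (ξ (n : ℕ) * (B * (LamC * rf v ^ 3)) n) *
        ((tent (Real.exp ℓ / 3) n : ℝ) : ℂ)‖) :=
        Finset.sum_le_sum (fun d _ => Finset.sum_le_sum (fun ξ _ => hsplit d ξ))
    _ = ∑ d ∈ D, ∑ ξ ∈ fam W d, ‖∑ n ∈ Finset.Icc 1 N, (ξ (n : ℕ) * (B * T1 v) n) *
        ((tent (Real.exp ℓ / 3) n : ℝ) : ℂ)‖ +
        ∑ d ∈ D, ∑ ξ ∈ fam W d, ‖∑ n ∈ Finset.Icc 1 N, (ξ (n : ℕ) * (B * (LamC * rf v ^ 3)) n) *
        ((tent (Real.exp ℓ / 3) n : ℝ) : ℂ)‖ := by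
        rw [← Finset.sum_add_distrib]
        apply Finset.sum_congr rfl
        intro d _
        rw [Finset.sum_add_distrib]
    _ ≤ Real.exp ℓ * (ℓ ^ (-A) / 2) + Real.exp ℓ * (ℓ ^ (-A) / 2) :=
        add_le_add htI (hsm.trans hII)
    _ = _ := by ring

end Pool.Agent.H81.CC
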