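import Pool.Agent.H81.CC.Moll
import Pool.Agent.H81.CC.SB

/-!
JOB CC-EXC. The exceptional modulus and the exceptional prime `e ≠ 2`, uniformly in `ℓ' ∈ [ℓ - C, ℓ]`.

PROOF. `moll_unif (1/200) (A+12)` with `Y = 2^(M+1)` and `small_of_moll` at every `ℓ' ≥ ℓ - C`. Choice of `e`: if `q₁` has an odd
prime factor, `e` is one of them; then `q₁ ∣ 2^j m` gives `e ∣ 2^j m`, `e ∣ m`, a contradiction. Otherwise `q₁` is a power of two,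
`q₁ > 2^(M+1)`, and `e = 0`: `q₁ ∣ 2^j m` with `m` odd gives `q₁ ∣ 2^j`, `q₁ ≤ 2^M`, a contradiction. (`q₁ ≥ 1` since `Y < q₁`.)
-/

set_option autoImplicit false

open Finset Filter Topology

namespace Pool.Agent.H81.CC

open Pool.Agent.H16 Pool.Agent.H81.AS

/-- the choice of the exceptional prime -/
lemma exc_choice (M q : ℕ) (hq : 2 ^ (M + 1) < q) :
    ∃ e : ℕ, e ≠ 2 ∧ ∀ j m : ℕ, j ≤ M → Odd m → (∀ p : ℕ, p.Prime → p ∣ m → p ≠ e) →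
      ¬ q ∣ 2 ^ j * m := by
  by_cases h : ∃ p : ℕ, p.Prime ∧ p ∣ q ∧ p ≠ 2
  · obtain ⟨p, hp, hpq, hp2⟩ := h
    refine ⟨p, hp2, ?_⟩
    intro j m _ _ hm hd
    have h1 : p ∣ 2 ^ j * m := hpq.trans hd
    rcases hp.dvd_mul.1 h1 with h2 | h2
    · exact hp2 ((Nat.prime_dvd_prime_iff_eq hp Nat.prime_two).1 (hp.dvd_of_dvd_pow h2))
    · exact hm p hp h2 rfl
  · push Not at h
    refine ⟨0, by norm_num, ?_⟩
    intro j m hj hm _ hd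
    have hqm : Nat.Coprime q m := by
      refine Nat.coprime_of_dvd ?_
      intro p hp hpq hpm
      have h2 := h p hp hpq
      subst h2
      exact (Nat.not_even_iff_odd.2 hm) (even_iff_two_dvd.2 hpm)
    have h1 : q ∣ 2 ^ j := hqm.dvd_of_dvd_mul_right hd
    have h2 : q ≤ 2 ^ j := Nat.le_of_dvd (by positivity) h1
    have h3 : 2 ^ j ≤ 2 ^ (M + 1) := Nat.pow_le_pow_right (by norm_num) (by omega)
    omega

theorem exc_unif (M : ℕ) (A A2 C : ℝ) (hA : 0 ≤ A) (hA2 : 0 ≤ A2) (hC : 0 ≤ C) :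
    ∀ᶠ ℓ : ℝ in atTop, ∃ q₁ e : ℕ, e ≠ 2 ∧
      (∀ ℓ' : ℝ, ℓ - C ≤ ℓ' → ℓ' ≤ ℓ → SmallProp A A2 ℓ' q₁) ∧
      ∀ j m : ℕ, j ≤ M → Odd m → (∀ p : ℕ, p.Prime → p ∣ m → p ≠ e) → ¬ q₁ ∣ 2 ^ j * m := by
  obtain ⟨L0, hL0⟩ := moll_unif (1 / 200) (by norm_num) (A + 12) (2 ^ (M + 1)) C hC
  obtain ⟨L1, hL1⟩ := small_of_moll A A2 hA hA2
  filter_upwards [eventually_ge_atTop L0, eventually_ge_atTop (L1 + C)] with ℓ h0 h1
  obtain ⟨q₁, hq, hm⟩ := hL0 ℓ h0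
  obtain ⟨e, he, hee⟩ := exc_choice M q₁ hq
  refine ⟨q₁, e, he, ?_, hee⟩
  intro ℓ' h2 h3
  exact hL1 ℓ' (by linarith) q₁ (hm ℓ' h2 h3)

end Pool.Agent.H81.CC
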