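import Pool.Agent.H81.CC.PairLe

/-!
JOB CC-HIT. The scale with the positions `Bk` is hit with probability at least `1/(12 + 19 c₂)`.

PROOF. `K = #H`, `B = ∑ g pf`, `A2 = ∑ g² pf ≥ 1` (`sum_gpf_ge`), `F = Sfi Q R ≥ 1`, `J = #Bk ≥ 1`, `w n = Psi n ^ 2`.
(1) `cg_s1`: `S1 := ∑ w ≤ X V^K ((9/8) A2^K + 1/8) ≤ (5/4) X V^K A2^K`.
(2) `cg_s2`, for `x ∈ Bk`: `∑ a_x w ≥ XP V^(K-1) B² ((7/8) m - 1/8)`, `m = max 1 (A2^(K-1)/2) ≥ 1`, so `≥ (3/4) m ≥ (3/8) A2^(K-1)`: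
`≥ L := (3/8) XP V^(K-1) B² A2^(K-1) > 0`. In particular some `w n > 0`, so `0 < S1`.
(3) `cg_s2u`: `∑ a_x w ≤ U := (5/4) XP V^(K-1) B² A2^(K-1)`.
(4) `pair_le`, `x ≠ x'` in `Bk`: `∑ a_x [n+x' free] w ≤ G := (17/8) XP V^(K-1) B⁴ A2^(K-2)/F`, because `Ξ + ε₁ ≤ 1/F ≤ A2^(K-2)/F`.
Let `Y n = ∑_{x ∈ Bk} a x n/ℓ`. `Y n = 0` unless some `a x n ≠ 0`. `0 ≤ a x n/ℓ ≤ 1`, and `a x' n ≠ 0` implies that `n + x'` is free, so
`Y² = ∑_{x,x'} ≤ ∑_x a_x/ℓ + ∑_{x≠x'} (a_x/ℓ) [n+x' free]`. Cauchy-Schwarz (`Finset.sum_mul_sq_le_sq_mul_sq` or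
`inner_mul_le_norm_mul_norm`; `(∑ Y w)² ≤ (∑_{hit} w) (∑ Y² w)`):
`(J L/ℓ)² ≤ (∑_{hit} w) (J U + J² G)/ℓ`. Hence `S1 J L² ≤ (∑_{hit} w) S1 ℓ (U + J G)` and
`S1 ℓ U ≤ (5/4)(5/4)(64/9) · J L² · [X V ℓ A2/(J XP B²)] ≤ 12 J L²` by `h1` (`(5/4)² 64/9 = 11.11..`), using `V^K = V^(K-1) V`,
`A2^K = A2^(K-1) A2`; `S1 ℓ J G ≤ (5/4)(17/8)(64/9) J L² [X V ℓ/(XP F)] ≤ 19 c₂ J L²` by `h2` (only needed if `J ≥ 2`, so `K ≥ 2` and
`A2^K A2^(K-2) = A2^(2(K-1))`; `(5/4)(17/8)(64/9) = 18.88..`). Divide by `J L² > 0`.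
-/

set_option autoImplicit false

open Finset Filter Topology

namespace Pool.Agent.H81.CC

open Pool.Agent.H16 Pool.Agent.H81.AS

theorem hit_cs {S Bk : Finset ℕ} {w : ℕ → ℝ} (hw : ∀ n ∈ S, 0 ≤ w n) {a : ℕ → ℕ → ℝ} {ℓ L U G : ℝ}
    (hℓ : 0 ≤ ℓ) (hL : 0 ≤ L) (hG : 0 ≤ G)
    (ha : ∀ x ∈ Bk, ∀ n ∈ S, 0 ≤ a x n ∧ a x n ≤ ℓ) (fr : ℕ → ℕ → ℝ)
    (hfr : ∀ x ∈ Bk, ∀ n ∈ S, 0 ≤ fr x n) (hfr1 : ∀ x ∈ Bk, ∀ n ∈ S, a x n ≠ 0 → fr x n = 1)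
    (h1 : ∀ x ∈ Bk, L ≤ ∑ n ∈ S, a x n * w n) (h2 : ∀ x ∈ Bk, ∑ n ∈ S, a x n * w n ≤ U)
    (h3 : ∀ x ∈ Bk, ∀ x' ∈ Bk, x ≠ x' → ∑ n ∈ S, a x n * fr x' n * w n ≤ G)
    (hne : Bk.Nonempty) [DecidablePred fun n => ∃ x ∈ Bk, a x n ≠ 0] :
    (#Bk : ℝ) * L ^ 2 ≤ (∑ n ∈ S.filter (fun n => ∃ x ∈ Bk, a x n ≠ 0), w n) * (ℓ * (U + #Bk * G)) := by
  classical
  set Wh := ∑ n ∈ S.filter (fun n => ∃ x ∈ Bk, a x n ≠ 0), w n with hWh
  have hJ : (0 : ℝ) < #Bk := by exact_mod_cast Finset.card_pos.2 hne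
  let Y : ℕ → ℝ := fun n => ∑ x ∈ Bk, a x n
  have hY0 : ∀ n ∈ S, 0 ≤ Y n := fun n hn => Finset.sum_nonneg fun x hx => (ha x hx n hn).1
  -- first moment
  have e1 : (#Bk : ℝ) * L ≤ ∑ n ∈ S, Y n * w n := by
    have : ∑ n ∈ S, Y n * w n = ∑ x ∈ Bk, ∑ n ∈ S, a x n * w n := by
      rw [Finset.sum_comm]
      exact Finset.sum_congr rfl fun n _ => by simp only [Y]; rw [Finset.sum_mul]
    rw [this]
    calc (#Bk : ℝ) * L = ∑ _x ∈ Bk, L := by rw [Finset.sum_const, nsmul_eq_mul]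
      _ ≤ _ := Finset.sum_le_sum h1
  -- pointwise second moment
  have e2 : ∀ n ∈ S, Y n ^ 2 ≤ ℓ * (∑ x ∈ Bk, a x n) +
      ℓ * ∑ x ∈ Bk, ∑ x' ∈ Bk.erase x, a x n * fr x' n := by
    intro n hn
    have e3 : Y n ^ 2 = ∑ x ∈ Bk, ∑ x' ∈ Bk, a x n * a x' n := by
      rw [sq]; simp only [Y]; rw [Finset.sum_mul_sum]
    rw [e3, Finset.mul_sum, Finset.mul_sum, ← Finset.sum_add_distrib]
    refine Finset.sum_le_sum fun x hx => ?_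
    rw [← Finset.add_sum_erase _ _ hx, Finset.mul_sum]
    refine add_le_add ?_ (Finset.sum_le_sum fun x' hx' => ?_)
    · have := ha x hx n hn
      nlinarith [this.1, this.2]
    · have hx'' := Finset.mem_of_mem_erase hx'
      have h4 := ha x hx n hn
      have h5 := ha x' hx'' n hn
      by_cases h0 : a x' n = 0
      · rw [h0, mul_zero]
        exact mul_nonneg hℓ (mul_nonneg h4.1 (hfr x' hx'' n hn))
      · rw [hfr1 x' hx'' n hn h0, mul_one, mul_comm ℓ]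
        exact mul_le_mul_of_nonneg_left h5.2 h4.1
  have e4 : ∑ n ∈ S, Y n ^ 2 * w n ≤ ℓ * (#Bk * U + #Bk * (#Bk * G)) := by
    calc ∑ n ∈ S, Y n ^ 2 * w n ≤ ∑ n ∈ S, (ℓ * (∑ x ∈ Bk, a x n) +
          ℓ * ∑ x ∈ Bk, ∑ x' ∈ Bk.erase x, a x n * fr x' n) * w n :=
          Finset.sum_le_sum fun n hn => mul_le_mul_of_nonneg_right (e2 n hn) (hw n hn)
      _ = ℓ * (∑ x ∈ Bk, ∑ n ∈ S, a x n * w n) +
          ℓ * ∑ x ∈ Bk, ∑ x' ∈ Bk.erase x, ∑ n ∈ S, a x n * fr x' n * w n := by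
          simp only [add_mul, Finset.sum_add_distrib, mul_assoc, Finset.mul_sum, Finset.sum_mul]
          congr 1
          · rw [Finset.sum_comm]
          · rw [Finset.sum_comm]
            refine Finset.sum_congr rfl fun x _ => ?_
            rw [Finset.sum_comm]
      _ ≤ ℓ * (#Bk * U + #Bk * (#Bk * G)) := by
          rw [← mul_add]
          refine mul_le_mul_of_nonneg_left (add_le_add ?_ ?_) hℓ
          · calc ∑ x ∈ Bk, ∑ n ∈ S, a x n * w n ≤ ∑ _x ∈ Bk, U := Finset.sum_le_sum h2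
              _ = _ := by rw [Finset.sum_const, nsmul_eq_mul]
          · calc ∑ x ∈ Bk, ∑ x' ∈ Bk.erase x, ∑ n ∈ S, a x n * fr x' n * w n
                ≤ ∑ _x ∈ Bk, (#Bk : ℝ) * G := by
                  refine Finset.sum_le_sum fun x hx => ?_
                  calc ∑ x' ∈ Bk.erase x, ∑ n ∈ S, a x n * fr x' n * w n
                      ≤ ∑ _x' ∈ Bk.erase x, G := Finset.sum_le_sum fun x' hx' =>
                        h3 x hx x' (Finset.mem_of_mem_erase hx') (Finset.ne_of_mem_erase hx').symm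
                    _ ≤ _ := by
                      rw [Finset.sum_const, nsmul_eq_mul]
                      refine mul_le_mul_of_nonneg_right ?_ hG
                      exact_mod_cast Finset.card_le_card (Finset.erase_subset _ _)
              _ = _ := by rw [Finset.sum_const, nsmul_eq_mul]
  -- Cauchy-Schwarz
  have e5 : (∑ n ∈ S, Y n * w n) ^ 2 ≤ Wh * ∑ n ∈ S, Y n ^ 2 * w n := by
    have e6 : ∑ n ∈ S, Y n * w n =
        ∑ n ∈ S.filter (fun n => ∃ x ∈ Bk, a x n ≠ 0), Y n * w n := by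
      symm
      apply Finset.sum_filter_of_ne
      intro n hn hne'
      by_contra hcon
      push Not at hcon
      apply hne'
      have : Y n = 0 := Finset.sum_eq_zero fun x hx => hcon x hx
      rw [this, zero_mul]
    rw [e6]
    calc (∑ n ∈ S.filter (fun n => ∃ x ∈ Bk, a x n ≠ 0), Y n * w n) ^ 2
        ≤ Wh * ∑ n ∈ S.filter (fun n => ∃ x ∈ Bk, a x n ≠ 0), Y n ^ 2 * w n := by
          apply Finset.sum_sq_le_sum_mul_sum_of_sq_le_mul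
          · intro n hn
            exact hw n (Finset.mem_of_mem_filter n hn)
          · intro n hn
            exact mul_nonneg (sq_nonneg _) (hw n (Finset.mem_of_mem_filter n hn))
          · intro n _
            exact le_of_eq (by ring)
      _ ≤ Wh * ∑ n ∈ S, Y n ^ 2 * w n := by
          refine mul_le_mul_of_nonneg_left ?_ ?_
          · exact Finset.sum_le_sum_of_subset_of_nonneg (Finset.filter_subset _ _)
              fun n hn _ => mul_nonneg (sq_nonneg _) (hw n hn)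
          · exact Finset.sum_nonneg fun n hn => hw n (Finset.mem_of_mem_filter n hn)
  have hWh0 : 0 ≤ Wh := Finset.sum_nonneg fun n hn => hw n (Finset.mem_of_mem_filter n hn)
  have e7 : ((#Bk : ℝ) * L) ^ 2 ≤ Wh * (ℓ * (#Bk * U + #Bk * (#Bk * G))) :=
    calc ((#Bk : ℝ) * L) ^ 2 ≤ (∑ n ∈ S, Y n * w n) ^ 2 :=
          pow_le_pow_left₀ (mul_nonneg hJ.le hL) e1 2
      _ ≤ _ := e5.trans (mul_le_mul_of_nonneg_left e4 hWh0)
  have e8 : (#Bk : ℝ) * ((#Bk : ℝ) * L ^ 2) ≤ (#Bk : ℝ) * (Wh * (ℓ * (U + #Bk * G))) := by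
    calc (#Bk : ℝ) * ((#Bk : ℝ) * L ^ 2) = ((#Bk : ℝ) * L) ^ 2 := by ring
      _ ≤ _ := e7
      _ = _ := by ring
  exact le_of_mul_le_mul_left e8 hJ

/-- the arithmetic -/
theorem hit_arith {S1 Wh J v q B XP X V ℓ c₂ A2 U G L : ℝ} (hWh : 0 ≤ Wh)
    (hJ : 0 < J) (hL : 0 < L) (hℓ : 0 < ℓ)
    (hv : 0 < v) (hq : 0 < q) (hB : 0 < B) (hXP : 0 < XP)
    (hS1 : S1 ≤ 5 / 4 * (X * (v * V) * (q * A2)))
    (hLe : L = 3 / 8 * (XP * v * B ^ 2 * q)) (hUe : U = 5 / 4 * (XP * v * B ^ 2 * q))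
    (h1 : X * V * ℓ * A2 ≤ J * XP * B ^ 2) (hS10 : 0 ≤ S1) (hG : S1 * ℓ * G ≤ 19 * c₂ * L ^ 2)
    (hcs : J * L ^ 2 ≤ Wh * (ℓ * (U + J * G))) : S1 ≤ (12 + 19 * c₂) * Wh := by
  have hU : S1 * ℓ * U ≤ 12 * (J * L ^ 2) := by
    have hU0 : 0 ≤ U := by rw [hUe]; positivity
    have e1 : S1 * ℓ * U ≤ 5 / 4 * (X * (v * V) * (q * A2)) * ℓ * U :=
      mul_le_mul_of_nonneg_right (mul_le_mul_of_nonneg_right hS1 hℓ.le) hU0
    have e2 : 5 / 4 * (X * (v * V) * (q * A2)) * ℓ * U =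
        25 / 16 * (X * V * ℓ * A2) * (XP * v ^ 2 * q ^ 2 * B ^ 2) := by rw [hUe]; ring
    have e3 : 25 / 16 * (X * V * ℓ * A2) * (XP * v ^ 2 * q ^ 2 * B ^ 2) ≤
        25 / 16 * (J * XP * B ^ 2) * (XP * v ^ 2 * q ^ 2 * B ^ 2) :=
      mul_le_mul_of_nonneg_right (by linarith) (by positivity)
    have e4 : 25 / 16 * (J * XP * B ^ 2) * (XP * v ^ 2 * q ^ 2 * B ^ 2) =
        100 / 9 * (J * L ^ 2) := by rw [hLe]; ring
    have e5 : 0 ≤ J * L ^ 2 := by positivity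
    linarith
  have e6 : S1 * (J * L ^ 2) ≤ Wh * ((12 + 19 * c₂) * (J * L ^ 2)) := by
    calc S1 * (J * L ^ 2) ≤ S1 * (Wh * (ℓ * (U + J * G))) := mul_le_mul_of_nonneg_left hcs hS10
      _ = Wh * (S1 * ℓ * U + J * (S1 * ℓ * G)) := by ring
      _ ≤ Wh * (12 * (J * L ^ 2) + J * (19 * c₂ * L ^ 2)) := by
          refine mul_le_mul_of_nonneg_left (add_le_add hU ?_) hWh
          exact mul_le_mul_of_nonneg_left hG hJ.le
      _ = _ := by ring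
  have e7 : (J * L ^ 2) * S1 ≤ (J * L ^ 2) * ((12 + 19 * c₂) * Wh) := by linarith
  exact le_of_mul_le_mul_left e7 (by positivity)

open Classical in
theorem hit_bound {P Q H S Bk : Finset ℕ} {κ : ℕ} {g : ℕ → ℝ} {T1 T1l Tg T2 V Ξ ε₁ X XP R ℓ c₂ : ℝ}
    (hQ : ∀ q ∈ Q, q.Prime) (hg : ∀ r, 0 ≤ g r) (hg1 : ∀ r, g r ≤ 1) (hg11 : g 1 = 1) (hκ : #H ≤ κ)
    (hBk : Bk ⊆ H) (hne : Bk.Nonempty) (hTg : ∀ r, g r ≠ 0 → (r : ℝ) ≤ Tg) (hT1 : T1l * Tg ≤ T1)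
    (hT1l : 1 < T1l) (hT11 : 1 ≤ T1) (hR : 1 ≤ R) (hT2 : T1 * R ≤ T2)
    (hV : 0 < V) (hX : 0 < X) (hXP : 0 < XP) (hℓ : 0 < ℓ) (hε : 0 ≤ ε₁) (hΞ : 0 ≤ Ξ)
    (h8 : Ξ + ε₁ ≤ 1 / 8) (hS : (Ξ + ε₁) * Sfi Q R ≤ 1) (hc₂ : 0 ≤ c₂)
    (hmean : 2 * ((#H : ℝ) - 1) * ∑ D ∈ Q.powerset, g (pd D) ^ 2 * pf D * Real.log (pd D) ≤
      (∑ D ∈ Q.powerset, g (pd D) ^ 2 * pf D) * Real.log T1l)
    (h1 : X * V * ℓ * (∑ D ∈ Q.powerset, g (pd D) ^ 2 * pf D) ≤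
      #Bk * XP * (∑ D ∈ Q.powerset, g (pd D) * pf D) ^ 2)
    (h2 : X * V * ℓ ≤ c₂ * XP * Sfi Q R)
    {a : ℕ → ℕ → ℝ} (ha : ∀ x ∈ Bk, ∀ n ∈ S, 0 ≤ a x n ∧ a x n ≤ ℓ)
    (hap : ∀ x ∈ Bk, ∀ n ∈ S, a x n ≠ 0 → ∀ p ∈ P ∪ Q, ¬ p ∣ n + x)
    (TI : TPH P Q H S κ T2 V Ξ ε₁ (fun _ => 1) X (fun _ => True))
    (TP : ∀ x ∈ Bk, TPH P Q H S κ T2 V Ξ ε₁ (a x) XP (fun U => x ∉ U)) :
    0 < ∑ n ∈ S, Psi P Q H H (Cg H g T1) n ^ 2 ∧
    ∑ n ∈ S, Psi P Q H H (Cg H g T1) n ^ 2 ≤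
      (12 + 19 * c₂) * ∑ n ∈ S.filter (fun n => ∃ x ∈ Bk, a x n ≠ 0), Psi P Q H H (Cg H g T1) n ^ 2 := by
  classical
  have hB1 : 1 ≤ ∑ D ∈ Q.powerset, g (pd D) * pf D := sum_gpf_ge hQ hg hg11
  have hA1 : 1 ≤ ∑ D ∈ Q.powerset, g (pd D) ^ 2 * pf D :=
    sum_gpf_ge (g := fun r => g r ^ 2) hQ (fun r => sq_nonneg (g r)) (by simp [hg11])
  have hF1 : 1 ≤ Sfi Q R := sfi_one_le hQ hR
  set B := ∑ D ∈ Q.powerset, g (pd D) * pf D with hBdef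
  set A2 := ∑ D ∈ Q.powerset, g (pd D) ^ 2 * pf D with hA2def
  set F := Sfi Q R with hFdef
  have hB0 : 0 < B := lt_of_lt_of_le one_pos hB1
  have hA0 : 0 < A2 := lt_of_lt_of_le one_pos hA1
  have hF0 : 0 < F := lt_of_lt_of_le one_pos hF1
  have hε8 : ε₁ ≤ 1 / 8 := by linarith
  have hT12 : T1 ≤ T2 := by
    have : T1 * 1 ≤ T1 * R := mul_le_mul_of_nonneg_left hR (by linarith)
    linarith
  have hK : #H = (#H - 1) + 1 := by
    have h1 := Finset.card_le_card hBk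
    have h2 := Finset.card_pos.2 hne
    omega
  have hVK : V ^ #H = V ^ (#H - 1) * V := by
    conv_lhs => rw [hK]
    rw [pow_succ]
  have hAK : A2 ^ #H = A2 ^ (#H - 1) * A2 := by
    conv_lhs => rw [hK]
    rw [pow_succ]
  have hv : 0 < V ^ (#H - 1) := pow_pos hV _
  have hq1 : 1 ≤ A2 ^ (#H - 1) := one_le_pow₀ hA1
  have hq : 0 < A2 ^ (#H - 1) := lt_of_lt_of_le one_pos hq1
  have hw : ∀ n ∈ S, 0 ≤ Psi P Q H H (Cg H g T1) n ^ 2 := fun n _ => sq_nonneg _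
  have hS10 : 0 ≤ ∑ n ∈ S, Psi P Q H H (Cg H g T1) n ^ 2 := Finset.sum_nonneg hw
  have hS1 : ∑ n ∈ S, Psi P Q H H (Cg H g T1) n ^ 2 ≤
      5 / 4 * (X * (V ^ (#H - 1) * V) * (A2 ^ (#H - 1) * A2)) := by
    have h0 := cg_s1 hQ hg hg1 hκ hT12 hV.le hX.le hε TI
    rw [hVK, hAK] at h0
    refine h0.trans ?_
    have e1 : (1 + ε₁) * (A2 ^ (#H - 1) * A2) + Ξ + ε₁ ≤ 5 / 4 * (A2 ^ (#H - 1) * A2) := by
      have e2 : 1 ≤ A2 ^ (#H - 1) * A2 := one_le_mul_of_one_le_of_one_le hq1 hA1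
      nlinarith
    calc X * (V ^ (#H - 1) * V * ((1 + ε₁) * (A2 ^ (#H - 1) * A2) + Ξ + ε₁))
        ≤ X * (V ^ (#H - 1) * V * (5 / 4 * (A2 ^ (#H - 1) * A2))) := by
          refine mul_le_mul_of_nonneg_left (mul_le_mul_of_nonneg_left e1 ?_) hX.le
          positivity
      _ = _ := by ring
  have hlow : ∀ x ∈ Bk, 3 / 8 * (XP * V ^ (#H - 1) * B ^ 2 * A2 ^ (#H - 1)) ≤
      ∑ n ∈ S, a x n * Psi P Q H H (Cg H g T1) n ^ 2 := by
    intro x hx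
    have h0 := cg_s2 hQ hg hg1 hg11 hκ hT12 hV.le hTg hT1 hT1l (by linarith) hXP.le hmean
      (hBk hx) (hap x hx) (TP x hx)
    refine le_trans ?_ h0
    have e1 : 3 / 8 * A2 ^ (#H - 1) ≤
        (1 - ε₁) * max 1 (A2 ^ (#H - 1) / 2) - Ξ - ε₁ := by
      have m1 := le_max_left (1 : ℝ) (A2 ^ (#H - 1) / 2)
      have m2 := le_max_right (1 : ℝ) (A2 ^ (#H - 1) / 2)
      nlinarith
    calc 3 / 8 * (XP * V ^ (#H - 1) * B ^ 2 * A2 ^ (#H - 1))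
        = XP * (V ^ (#H - 1) * B ^ 2 * (3 / 8 * A2 ^ (#H - 1))) := by ring
      _ ≤ _ := by
          refine mul_le_mul_of_nonneg_left (mul_le_mul_of_nonneg_left e1 ?_) hXP.le
          positivity
  have hup : ∀ x ∈ Bk, ∑ n ∈ S, a x n * Psi P Q H H (Cg H g T1) n ^ 2 ≤
      5 / 4 * (XP * V ^ (#H - 1) * B ^ 2 * A2 ^ (#H - 1)) := by
    intro x hx
    have h0 := cg_s2u hQ hg hg1 hg11 hκ hT12 hV.le hXP.le hε (hBk hx) (hap x hx) (TP x hx)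
    refine h0.trans ?_
    have e1 : (1 + ε₁) * A2 ^ (#H - 1) + Ξ + ε₁ ≤ 5 / 4 * A2 ^ (#H - 1) := by nlinarith
    calc XP * (V ^ (#H - 1) * B ^ 2 * ((1 + ε₁) * A2 ^ (#H - 1) + Ξ + ε₁))
        ≤ XP * (V ^ (#H - 1) * B ^ 2 * (5 / 4 * A2 ^ (#H - 1))) := by
          refine mul_le_mul_of_nonneg_left (mul_le_mul_of_nonneg_left e1 ?_) hXP.le
          positivity
      _ = _ := by ring
  have hL0 : 0 < 3 / 8 * (XP * V ^ (#H - 1) * B ^ 2 * A2 ^ (#H - 1)) := by positivity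
  refine ⟨?_, ?_⟩
  · obtain ⟨x, hx⟩ := hne
    have h0 := lt_of_lt_of_le hL0 (hlow x hx)
    obtain ⟨n, hn, hn0⟩ := Finset.exists_ne_zero_of_sum_ne_zero h0.ne'
    have h1 : Psi P Q H H (Cg H g T1) n ^ 2 ≠ 0 := right_ne_zero_of_mul hn0
    exact Finset.sum_pos' hw ⟨n, hn, lt_of_le_of_ne (hw n hn) (Ne.symm h1)⟩
  · -- the bound for the pairs
    obtain ⟨G, hG0, hG3, hG⟩ : ∃ G : ℝ, 0 ≤ G ∧
        (∀ x ∈ Bk, ∀ x' ∈ Bk, x ≠ x' → ∑ n ∈ S, a x n *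
          (if ∀ p ∈ P ∪ Q, ¬ p ∣ n + x' then 1 else 0) * Psi P Q H H (Cg H g T1) n ^ 2 ≤ G) ∧
        (∑ n ∈ S, Psi P Q H H (Cg H g T1) n ^ 2) * ℓ * G ≤
          19 * c₂ * (3 / 8 * (XP * V ^ (#H - 1) * B ^ 2 * A2 ^ (#H - 1))) ^ 2 := by
      by_cases hK2 : 2 ≤ #H
      · have hA2K : A2 ^ (#H - 1) = A2 ^ (#H - 2) * A2 := by
          rw [← pow_succ]
          congr 1
          omega
        have hr1 : 1 ≤ A2 ^ (#H - 2) := one_le_pow₀ hA1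
        refine ⟨17 / 8 * (XP * V ^ (#H - 1) * B ^ 4 * (A2 ^ (#H - 2) / F)), by positivity, ?_, ?_⟩
        · intro x hx x' hx' hxx
          have h0 := pair_le hQ hg hg1 hg11 hκ (by linarith) hR hT2 hV.le hXP.le hε (hBk hx)
            (hBk hx') hxx (fun n hn => (ha x hx n hn).1) (hap x hx) (TP x hx)
          refine h0.trans ?_
          have e1 : (1 + ε₁) * (A2 ^ (#H - 2) / F) + Ξ + ε₁ ≤ 17 / 8 * (A2 ^ (#H - 2) / F) := by
            have e2 : Ξ + ε₁ ≤ A2 ^ (#H - 2) / F := by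
              rw [le_div_iff₀ hF0]
              linarith
            have e3 : 0 ≤ A2 ^ (#H - 2) / F := by positivity
            nlinarith
          calc XP * (V ^ (#H - 1) * B ^ 4 * ((1 + ε₁) * (A2 ^ (#H - 2) / F) + Ξ + ε₁))
              ≤ XP * (V ^ (#H - 1) * B ^ 4 * (17 / 8 * (A2 ^ (#H - 2) / F))) := by
                refine mul_le_mul_of_nonneg_left (mul_le_mul_of_nonneg_left e1 ?_) hXP.le
                positivity
            _ = _ := by ring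
        · have hGnn : 0 ≤ 17 / 8 * (XP * V ^ (#H - 1) * B ^ 4 * (A2 ^ (#H - 2) / F)) := by
            positivity
          have e2 : X * V * ℓ / F ≤ c₂ * XP := by
            rw [div_le_iff₀ hF0]
            linarith
          calc (∑ n ∈ S, Psi P Q H H (Cg H g T1) n ^ 2) * ℓ *
                (17 / 8 * (XP * V ^ (#H - 1) * B ^ 4 * (A2 ^ (#H - 2) / F)))
              ≤ 5 / 4 * (X * (V ^ (#H - 1) * V) * (A2 ^ (#H - 1) * A2)) * ℓ *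
                (17 / 8 * (XP * V ^ (#H - 1) * B ^ 4 * (A2 ^ (#H - 2) / F))) :=
                mul_le_mul_of_nonneg_right (mul_le_mul_of_nonneg_right hS1 hℓ.le) hGnn
            _ = 85 / 32 * (X * V * ℓ / F) * (XP * (V ^ (#H - 1)) ^ 2 * B ^ 4 *
                  (A2 ^ (#H - 1) * (A2 ^ (#H - 2) * A2))) := by ring
            _ = 85 / 32 * (X * V * ℓ / F) * (XP * (V ^ (#H - 1)) ^ 2 * B ^ 4 *
                  (A2 ^ (#H - 1)) ^ 2) := by rw [← hA2K]; ring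
            _ ≤ 85 / 32 * (c₂ * XP) * (XP * (V ^ (#H - 1)) ^ 2 * B ^ 4 *
                  (A2 ^ (#H - 1)) ^ 2) := by
                refine mul_le_mul_of_nonneg_right (by linarith) (by positivity)
            _ ≤ 19 * c₂ * (3 / 8 * (XP * V ^ (#H - 1) * B ^ 2 * A2 ^ (#H - 1))) ^ 2 := by
                have e5 : 0 ≤ c₂ * (XP ^ 2 * (V ^ (#H - 1)) ^ 2 * B ^ 4 *
                  (A2 ^ (#H - 1)) ^ 2) := by positivity
                nlinarith [e5]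
      · refine ⟨0, le_rfl, ?_, ?_⟩
        · intro x hx x' hx' hxx
          exfalso
          have h1 : #Bk ≤ 1 := (Finset.card_le_card hBk).trans (by omega)
          exact hxx (Finset.card_le_one.1 h1 x hx x' hx')
        · rw [mul_zero]
          positivity
    have hcs := hit_cs (w := fun n => Psi P Q H H (Cg H g T1) n ^ 2) hw (a := a) hℓ.le hL0.le hG0
      ha (fun x n => if ∀ p ∈ P ∪ Q, ¬ p ∣ n + x then 1 else 0)
      (fun x _ n _ => by positivity)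
      (fun x hx n hn h0 => if_pos (hap x hx n hn h0)) hlow hup hG3 hne
    exact hit_arith (Finset.sum_nonneg fun n hn => hw n (Finset.mem_of_mem_filter n hn))
      (by exact_mod_cast Finset.card_pos.2 hne) hL0 hℓ hv hq hB0 hXP hS1 rfl rfl h1 hS10 hG hcs

end Pool.Agent.H81.CC
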