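import Mathlib

/-!
JOB CC-PAR. Choice of the parameters (real analysis only).

PROOF. Let `D = CQ/64/δ` (so `r = D`). Take `s = ⌊1/(64 δ)⌋₊` and let `δ → 0+`: `s ≥ 1/(64δ) - 1`, `C0 * (4k) ≤ s` eventually;
`8 s δ ≤ 1/8` and `10 δ ≤ 10/100`, so `4/32 + δ(8s+10) < 1/2`; `4 s δ ≤ 1/16`, `5 δ ≤ 1/20`, so `2/32 + δ(4s+5) < 1/4`.
`(1/2)^s (2·4^k) r^(12k+1) ≤ 2 (1/2)^{1/(64δ)} (2·4^k) (CQ/(64δ))^(12k+1) → 0` (exponential against power: put `t = 1/δ → ∞`,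
`tendsto_pow_const_mul_const_pow_of_abs_lt_one` or `Real.tendsto_pow_mul_exp_neg_atTop_nhds_zero`). Choose `δ` small enough,
also `δ ≤ δ₁`, `δ ≤ 1/100` and `δ ≤ CQ/64` (so `1 ≤ r`).
-/

set_option autoImplicit false

open Finset Filter Topology

namespace Pool.Agent.H81.CC

theorem par (k C0 : ℕ) {CQ δ₁ : ℝ} (hCQ : 1 ≤ CQ) (hδ₁ : 0 < δ₁) :
    ∃ (s : ℕ) (δ : ℝ), 0 < δ ∧ δ ≤ δ₁ ∧ δ ≤ 1 / 100 ∧ C0 * (4 * k) ≤ s ∧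
      4 * (1 / 32 : ℝ) + δ * (8 * (s : ℝ) + 10) < 1 / 2 ∧ 2 * (1 / 32 : ℝ) + δ * (4 * (s : ℝ) + 5) < 1 / 4 ∧
      1 ≤ CQ * (1 / 64) / δ ∧
      (1 / 2 : ℝ) ^ s * (2 * 4 ^ k) * (CQ * (1 / 64) / δ) ^ (6 * (2 * k)) * (CQ * (1 / 64) / δ) ≤ 1 / 16 := by
  have h1 : Tendsto (fun n : ℕ => (n : ℝ) ^ (6 * (2 * k) + 1) * (1 / 2 : ℝ) ^ n) atTop (𝓝 0) :=
    tendsto_pow_const_mul_const_pow_of_abs_lt_one _ (by rw [abs_of_pos] <;> norm_num)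
  have h2 : Tendsto (fun n : ℕ => (2 * 4 ^ k * CQ ^ (6 * (2 * k) + 1)) *
      ((n : ℝ) ^ (6 * (2 * k) + 1) * (1 / 2 : ℝ) ^ n)) atTop (𝓝 0) := by
    have := h1.const_mul (2 * 4 ^ k * CQ ^ (6 * (2 * k) + 1))
    simpa using this
  have h3 : ∀ᶠ n : ℕ in atTop, (2 * 4 ^ k * CQ ^ (6 * (2 * k) + 1)) *
      ((n : ℝ) ^ (6 * (2 * k) + 1) * (1 / 2 : ℝ) ^ n) ≤ 1 / 16 :=
    h2.eventually (eventually_le_nhds (by norm_num))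
  have h4 : ∀ᶠ n : ℕ in atTop, 1 / (64 * δ₁) ≤ (n : ℝ) :=
    tendsto_natCast_atTop_atTop.eventually (eventually_ge_atTop _)
  obtain ⟨s, hs1, hs2, hs3, hs4⟩ := (h3.and (h4.and ((eventually_ge_atTop (C0 * (4 * k))).and
    (eventually_ge_atTop 2)))).exists
  have hsR : (2 : ℝ) ≤ s := by exact_mod_cast hs4
  have hs0 : (0 : ℝ) < s := by linarith
  have hr : CQ * (1 / 64) / (1 / (64 * (s : ℝ))) = CQ * s := by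
    field_simp
  have e1 : 1 / (64 * (s : ℝ)) ≤ 1 / 128 := by
    apply one_div_le_one_div_of_le <;> linarith
  have e2 : 1 / (64 * (s : ℝ)) * s = 1 / 64 := by
    field_simp
  refine ⟨s, 1 / (64 * s), by positivity, ?_, by linarith, hs3, ?_, ?_, ?_, ?_⟩
  · rw [div_le_iff₀ (by positivity)] at hs2 ⊢
    nlinarith
  · nlinarith
  · nlinarith
  · rw [hr]
    nlinarith
  · rw [hr]
    calc (1 / 2 : ℝ) ^ s * (2 * 4 ^ k) * (CQ * s) ^ (6 * (2 * k)) * (CQ * s)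
        = (2 * 4 ^ k * CQ ^ (6 * (2 * k) + 1)) * ((s : ℝ) ^ (6 * (2 * k) + 1) * (1 / 2 : ℝ) ^ s) := by
          rw [mul_pow, pow_succ, pow_succ]; ring
      _ ≤ 1 / 16 := hs1

end Pool.Agent.H81.CC
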