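import Pool.Agent.H81.CC.Defs

/-!
JOB CC-SH. The shifts, and an admissible residue class for every `ℓ`, `e`.

PROOF. `K = M J`, `B = {1 + j * (2 * K!) : j < J}`; all odd, distinct, `≥ 1`. Injectivity: `ps M i h = ps M i' h'` with `h, h'` odd forces
equal powers of two, so `M-1-i = M-1-i'`, `i = i'` (both `< M`), `h = h'`; hence `#(Hp M B) = M J`, and `ps M i` is injective on `B`.
Admissible class: by CRT choose `b` with `b ≡ 0 mod 2^M` and, for every odd prime `p ≤ wz ℓ`, `p ≠ e`, `b ≡ r_p mod p`, where `r_p` is a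
residue with `p ∤ r_p + x` for all `x ∈ Hp M B`: if `p ≤ K`, then `p ∣ K!`, so every `h ∈ B` is `≡ 1 mod p` and `r_p = 0` works
(`x ≡ 2^(M-1-i) ≢ 0`); if `p > K` the `K` positions exclude at most `K < p` residues. (CRT: `Nat.chineseRemainderOfFinset` or
induction over the set of primes as `crt_ex` in AS/DistI.lean; cf. AS/Adm.lean.)
-/

set_option autoImplicit false

open Finset Filter Topology

namespace Pool.Agent.H81.CC

open Pool.Agent.H16 Pool.Agent.H81.AS

theorem ps_inj {M i i' h h' : ℕ} (hi : i < M) (hi' : i' < M) (hh : Odd h) (hh' : Odd h')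
    (heq : ps M i h = ps M i' h') : i = i' ∧ h = h' := by
  have key : ∀ a b h h' : ℕ, Odd h → a < b → 2 ^ a * h ≠ 2 ^ b * h' := by
    intro a b h h' hh hab heq
    obtain ⟨c, rfl⟩ : ∃ c, b = a + (c + 1) := ⟨b - a - 1, by omega⟩
    rw [pow_add, mul_assoc] at heq
    have h1 : h = 2 ^ (c + 1) * h' := Nat.eq_of_mul_eq_mul_left (by positivity) heq
    rw [pow_succ] at h1
    obtain ⟨m, hm⟩ := hh
    have h2 : h = 2 * (2 ^ c * h') := by rw [h1]; ring
    omega
  unfold ps Ai at heq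
  rcases lt_trichotomy (M - 1 - i) (M - 1 - i') with hlt | he | hgt
  · exact absurd heq (key _ _ _ _ hh hlt)
  · rw [he] at heq
    exact ⟨by omega, Nat.eq_of_mul_eq_mul_left (by positivity) heq⟩
  · exact absurd heq.symm (key _ _ _ _ hh' hgt)

theorem card_Hp (M : ℕ) (B : Finset ℕ) (hB : ∀ h ∈ B, Odd h) :
    #(Hp M B) = M * #B ∧ (∀ x ∈ Hp M B, 1 ≤ x) ∧ ∀ i < M, B.image (ps M i) ⊆ Hp M B ∧ #(B.image (ps M i)) = #B := by
  have himg : ∀ i < M, #(B.image (ps M i)) = #B := by
    intro i hi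
    apply Finset.card_image_of_injOn
    intro h hh h' hh' heq
    exact (ps_inj hi hi (hB h hh) (hB h' hh') heq).2
  refine ⟨?_, ?_, ?_⟩
  · unfold Hp
    rw [Finset.card_biUnion]
    · rw [Finset.sum_congr rfl (fun i hi => himg i (Finset.mem_range.1 hi)), Finset.sum_const,
        Finset.card_range, smul_eq_mul]
    · intro i hi j hj hij
      rw [Function.onFun, Finset.disjoint_left]
      intro x hx hx'
      obtain ⟨h, hh, rfl⟩ := Finset.mem_image.1 hx
      obtain ⟨h', hh', heq⟩ := Finset.mem_image.1 hx'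
      exact hij (ps_inj (Finset.mem_range.1 hi) (Finset.mem_range.1 hj) (hB h hh) (hB h' hh')
        heq.symm).1
  · intro x hx
    unfold Hp at hx
    obtain ⟨i, _, hx'⟩ := Finset.mem_biUnion.1 hx
    obtain ⟨h, hh, rfl⟩ := Finset.mem_image.1 hx'
    unfold ps Ai
    have h1 : 0 < h := (hB h hh).pos
    have h2 : 0 < 2 ^ (M - 1 - i) * h := by positivity
    exact h2
  · intro i hi
    refine ⟨?_, himg i hi⟩
    unfold Hp
    exact Finset.subset_biUnion_of_mem (fun i => B.image (ps M i)) (Finset.mem_range.2 hi)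

theorem sh_crt (M : ℕ) (H : Finset ℕ)
    (hres : ∀ q : ℕ, q.Prime → q ≠ 2 → ∃ r : ℕ, ∀ x ∈ H, ¬ q ∣ r + x) (P : Finset ℕ)
    (hP : ∀ p ∈ P, p.Prime ∧ p ≠ 2) : ∃ b : ℕ, 2 ^ M ∣ b ∧ ∀ p ∈ P, ∀ x ∈ H, ¬ p ∣ b + x := by
  classical
  induction P using Finset.induction_on with
  | empty => exact ⟨0, dvd_zero _, by simp⟩
  | insert q P hq ih =>
    obtain ⟨b₀, h1, h2⟩ := ih (fun p hp => hP p (Finset.mem_insert_of_mem hp))
    obtain ⟨hqp, hq2⟩ := hP q (Finset.mem_insert_self _ _)
    obtain ⟨r, hr⟩ := hres q hqp hq2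
    have hco : Nat.Coprime (2 ^ M * ∏ p ∈ P, p) q := by
      apply Nat.Coprime.mul_left
      · apply Nat.Coprime.pow_left
        exact (Nat.coprime_primes Nat.prime_two hqp).2 (fun h => hq2 h.symm)
      · apply Nat.Coprime.prod_left
        intro p hp
        refine (Nat.coprime_primes (hP p (Finset.mem_insert_of_mem hp)).1 hqp).2 ?_
        rintro rfl
        exact hq hp
    obtain ⟨k, hk1, hk2⟩ := Nat.chineseRemainder hco b₀ r
    refine ⟨k, ?_, ?_⟩
    · have h3 : k ≡ b₀ [MOD 2 ^ M] := hk1.of_dvd (Dvd.intro _ rfl)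
      exact (h3.dvd_iff (dvd_refl _)).2 h1
    · intro p hp x hx
      rcases Finset.mem_insert.1 hp with rfl | hp
      · have h3 : k + x ≡ r + x [MOD p] := hk2.add_right x
        rw [h3.dvd_iff (dvd_refl _)]
        exact hr x hx
      · have h4 : p ∣ 2 ^ M * ∏ p ∈ P, p := (Finset.dvd_prod_of_mem _ hp).mul_left _
        have h3 : k + x ≡ b₀ + x [MOD p] := (hk1.of_dvd h4).add_right x
        rw [h3.dvd_iff (dvd_refl _)]
        exact h2 p hp x hx

theorem shifts (M J : ℕ) : ∃ B : Finset ℕ, #B = J ∧ (∀ h ∈ B, Odd h) ∧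
    ∀ (ℓ : ℝ) (e : ℕ), ∃ b : ℕ, AdmB M (Hp M B) ℓ e b := by
  classical
  have hodd : ∀ h ∈ (range J).image (fun j => 1 + j * (2 * (M * J).factorial)), Odd h := by
    intro h hh
    obtain ⟨j, _, rfl⟩ := Finset.mem_image.1 hh
    exact ⟨j * (M * J).factorial, by ring⟩
  have hcard : #((range J).image (fun j => 1 + j * (2 * (M * J).factorial))) = J := by
    rw [Finset.card_image_of_injective, Finset.card_range]
    intro j j' hj
    have h1 : j * (2 * (M * J).factorial) = j' * (2 * (M * J).factorial) := Nat.add_left_cancel hj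
    exact Nat.eq_of_mul_eq_mul_right (by positivity) h1
  refine ⟨(range J).image (fun j => 1 + j * (2 * (M * J).factorial)), hcard, hodd, fun ℓ e => ?_⟩
  have hHc := (card_Hp M _ hodd).1
  rw [hcard] at hHc
  have hres : ∀ q : ℕ, q.Prime → q ≠ 2 → ∃ r : ℕ,
      ∀ x ∈ Hp M ((range J).image (fun j => 1 + j * (2 * (M * J).factorial))), ¬ q ∣ r + x := by
    intro q hq hq2
    rcases le_or_gt q (M * J) with hle | hgt
    · refine ⟨0, fun x hx hdvd => ?_⟩
      rw [zero_add] at hdvd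
      unfold Hp at hx
      obtain ⟨i, _, hx'⟩ := Finset.mem_biUnion.1 hx
      obtain ⟨h, hh, rfl⟩ := Finset.mem_image.1 hx'
      obtain ⟨j, _, rfl⟩ := Finset.mem_image.1 hh
      unfold ps Ai at hdvd
      rcases (Nat.Prime.dvd_mul hq).1 hdvd with h1 | h1
      · have h2 := hq.dvd_of_dvd_pow h1
        exact hq2 ((Nat.prime_dvd_prime_iff_eq hq Nat.prime_two).1 h2)
      · have h3 : q ∣ (M * J).factorial := (hq.dvd_factorial).2 hle
        have h4 : q ∣ j * (2 * (M * J).factorial) := (h3.mul_left 2).mul_left j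
        have h5 : q ∣ 1 := (Nat.dvd_add_iff_left h4).2 h1
        exact hq.one_lt.ne' (Nat.dvd_one.1 h5)
    · have : Fact q.Prime := ⟨hq⟩
      have h1 : #((Hp M ((range J).image (fun j => 1 + j * (2 * (M * J).factorial)))).image
          (fun x : ℕ => -(x : ZMod q))) < #(Finset.univ : Finset (ZMod q)) := by
        rw [Finset.card_univ, ZMod.card]
        refine lt_of_le_of_lt Finset.card_image_le ?_
        rw [hHc]
        exact hgt
      obtain ⟨c, _, hc⟩ := Finset.exists_mem_notMem_of_card_lt_card h1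
      refine ⟨c.val, fun x hx hdvd => hc ?_⟩
      rw [Finset.mem_image]
      refine ⟨x, hx, ?_⟩
      have h2 : ((c.val + x : ℕ) : ZMod q) = 0 := (ZMod.natCast_eq_zero_iff _ _).2 hdvd
      rw [Nat.cast_add, ZMod.natCast_zmod_val] at h2
      exact (eq_neg_of_add_eq_zero_left h2).symm
  obtain ⟨b, hb1, hb2⟩ := sh_crt M _ hres
    ((range (wz ℓ + 1)).filter (fun p => p.Prime ∧ p ≠ 2)) (fun p hp => (Finset.mem_filter.1 hp).2)
  refine ⟨b, hb1, fun p hp hpw hpe hp2 x hx => hb2 p ?_ x hx⟩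
  rw [Finset.mem_filter, Finset.mem_range]
  exact ⟨by omega, hp, hp2⟩

end Pool.Agent.H81.CC
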