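import Pool.Agent.H81.CC.Defs
import Pool.Agent.H81.AS.Vs
import Pool.Agent.H81.AS.VComp

/-!
JOB CC-VS. Sieve products for a fixed set of positions.

PROOF. For large `ℓ` all positions are `≤ ⌊1 * ℓ⌋₊` and `< zz δ ℓ` (`ev_pos`). `vv_comp (#H)` with `lam = 1`, `ε = 1`: every
`U = Hb ∪ H₁ ∪ H₂ ⊆ H` has `VV ≤ 2 V1^#U ≤ 2 V1^#Hb` (`0 < V1 ≤ 1`, `#Hb ≤ #U`), and there are at most `2^#H` sets `H₁` and `2^#H` sets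
`H₂` (`HH ⊆ powerset`). `hh_le`: `#(HH Po' Hb κ) ≤ 2^#Po' ≤ 2^#H`.
-/

set_option autoImplicit false

open Finset Filter Topology

namespace Pool.Agent.H81.CC

open Pool.Agent.H16 Pool.Agent.H81.AS

theorem hh_le (κ : ℕ) (H : Finset ℕ) {Po' Hb : Finset ℕ} (hPo : Po' ⊆ H) :
    (#(HH Po' Hb κ) : ℝ) ≤ 2 ^ #H := by
  have h1 : #(HH Po' Hb κ) ≤ 2 ^ #H := by
    calc #(HH Po' Hb κ) ≤ #(Po'.powerset) := card_le_card (filter_subset _ _)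
      _ = 2 ^ #Po' := card_powerset _
      _ ≤ 2 ^ #H := Nat.pow_le_pow_right (by norm_num) (card_le_card hPo)
  exact_mod_cast h1

theorem vs_fix (κ : ℕ) {δ : ℝ} (hδ : 0 < δ) (H : Finset ℕ) (hH : ∀ x ∈ H, 1 ≤ x) :
    ∀ᶠ ℓ : ℝ in atTop, H ⊆ Icc 1 ⌊1 * ℓ⌋₊ ∧ (∀ x ∈ H, x < zz δ ℓ) ∧
      ∀ e : ℕ, ∀ Po' Hb Z : Finset ℕ, Po' ⊆ H → Hb ⊆ H → Z ⊆ H → #Z ≤ 1 → Disjoint Z (Hb ∪ Po') →
        ∑ H₁ ∈ HH Po' Hb κ, ∑ H₂ ∈ HH Po' Hb κ, VV (PP δ ℓ e) Z (Hb ∪ H₁ ∪ H₂) ≤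
          V1 δ ℓ e ^ #Hb * (2 * 4 ^ #H) := by
  have hfin : ∀ᶠ ℓ : ℝ in atTop, ∀ x ∈ H, x ≤ ⌊1 * ℓ⌋₊ := by
    rw [Filter.eventually_all_finset]
    intro x _
    filter_upwards [eventually_ge_atTop (x : ℝ)] with ℓ hℓ
    exact Nat.le_floor (by linarith)
  filter_upwards [hfin, ev_pos hδ (one_pos : (0 : ℝ) < 1), vv_comp (#H) one_pos hδ (ε := 1) one_pos]
    with ℓ h1 h2 h3
  have hsub : H ⊆ Icc 1 ⌊1 * ℓ⌋₊ := fun x hx => mem_Icc.2 ⟨hH x hx, h1 x hx⟩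
  refine ⟨hsub, fun x hx => h2 x (hsub hx), ?_⟩
  · intro e Po' Hb Z hPo hHb hZ hZ1 hdis
    have hV0 : 0 ≤ V1 δ ℓ e := V1_nonneg δ ℓ e
    have hV1 : V1 δ ℓ e ≤ 1 := V1_le_one δ ℓ e
    have h5 : ∀ H₁ ∈ HH Po' Hb κ, ∀ H₂ ∈ HH Po' Hb κ,
        VV (PP δ ℓ e) Z (Hb ∪ H₁ ∪ H₂) ≤ 2 * V1 δ ℓ e ^ #Hb := by
      intro H₁ hH₁ H₂ hH₂
      rw [HH, mem_filter, mem_powerset] at hH₁ hH₂
      have hU : Hb ∪ H₁ ∪ H₂ ⊆ H :=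
        union_subset (union_subset hHb (hH₁.1.trans hPo)) (hH₂.1.trans hPo)
      have hd : Disjoint Z (Hb ∪ H₁ ∪ H₂) := by
        apply disjoint_of_subset_right _ hdis
        exact union_subset (union_subset subset_union_left
          (hH₁.1.trans subset_union_right)) (hH₂.1.trans subset_union_right)
      have h4 := h3 e Z (Hb ∪ H₁ ∪ H₂) (hZ.trans hsub) (hU.trans hsub) hZ1 hd (card_le_card hU)
      have h6 := (abs_le.mp h4).2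
      have h7 : V1 δ ℓ e ^ #(Hb ∪ H₁ ∪ H₂) ≤ V1 δ ℓ e ^ #Hb := by
        apply pow_le_pow_of_le_one hV0 hV1
        exact card_le_card (subset_union_left.trans subset_union_left)
      linarith
    have hn := hh_le κ H (Hb := Hb) hPo
    have hc0 : (0 : ℝ) ≤ #(HH Po' Hb κ) := Nat.cast_nonneg _
    have hp0 : 0 ≤ V1 δ ℓ e ^ #Hb := pow_nonneg hV0 _
    calc ∑ H₁ ∈ HH Po' Hb κ, ∑ H₂ ∈ HH Po' Hb κ, VV (PP δ ℓ e) Z (Hb ∪ H₁ ∪ H₂)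
        ≤ ∑ H₁ ∈ HH Po' Hb κ, ∑ H₂ ∈ HH Po' Hb κ, 2 * V1 δ ℓ e ^ #Hb :=
          Finset.sum_le_sum fun H₁ hH₁ => Finset.sum_le_sum fun H₂ hH₂ => h5 H₁ hH₁ H₂ hH₂
      _ = (#(HH Po' Hb κ) : ℝ) * (#(HH Po' Hb κ) : ℝ) * (2 * V1 δ ℓ e ^ #Hb) := by
          rw [sum_const, sum_const, nsmul_eq_mul, nsmul_eq_mul]
          ring
      _ ≤ (2 ^ #H * 2 ^ #H) * (2 * V1 δ ℓ e ^ #Hb) := by
          apply mul_le_mul_of_nonneg_right _ (by positivity)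
          exact mul_le_mul hn hn hc0 (by positivity)
      _ = V1 δ ℓ e ^ #Hb * (2 * 4 ^ #H) := by
          rw [← mul_pow]
          norm_num
          ring

end Pool.Agent.H81.CC
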