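import Pool.Agent.H81.CC.DistP
import Pool.Agent.H81.CC.Vs
import Pool.Agent.H81.AS.TPI

/-!
JOB CC-TP. The transfer principle for the primes at each scale.

PROOF. As `tpp` (AS/TPP.lean) and CC/TI.lean: `tp_core` with `Z = {x}`, `x = ps M i h ∈ Hp M B`, `X = XPm M υ ℓ e i`,
`Lv = exp (li M i ℓ/4)`, `Mf` from `distp` with `A = 4 #H + 10`, `T = exp (τℓ)`; the level condition
`z^(4s+5) T^2 ≤ exp ((2τ + δ(4s+5)) ℓ) ≤ exp ((ℓ - M)/4) ≤ exp (li/4)` holds for large `ℓ` because of the strict inequality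
`hlev`. `hR`: `X ≥ (1/100) exp (li)/φ(2^i WW)` (`xt_li`), `li ≥ ℓ - M ≥ ℓ/2`, `V1^#Hb ≥ (c/(δℓ))^#H`, `#HH ≤ 2^#H`.
`x ∉ Hb ∪ Po'` is the `ok` condition of `TPH`. Positions are `≥ 1` because the `h ∈ B` are odd.
-/

set_option autoImplicit false

open Finset Filter Topology

namespace Pool.Agent.H81.CC

open Pool.Agent.H16 Pool.Agent.H81.AS

theorem TP_mem_Hp {M i h : ℕ} {B : Finset ℕ} (hi : i < M) (hh : h ∈ B) : ps M i h ∈ Hp M B := by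
  unfold Hp
  rw [mem_biUnion]
  exact ⟨i, mem_range.2 hi, mem_image.2 ⟨h, hh, rfl⟩⟩

theorem TP_Hp_pos {M : ℕ} {B : Finset ℕ} (hB : ∀ h ∈ B, Odd h) : ∀ x ∈ Hp M B, 1 ≤ x := by
  intro x hx
  unfold Hp at hx
  rw [mem_biUnion] at hx
  obtain ⟨i, -, hx⟩ := hx
  obtain ⟨h, hh, rfl⟩ := mem_image.1 hx
  have h1 : 0 < h := (hB h hh).pos
  have h2 : 0 < Ai M i := by unfold Ai; positivity
  exact Nat.mul_pos h2 h1

/-- the comparison of the remainder with the main term -/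
theorem TP_rem {N : ℕ} {c δ ε₁ ℓ lI V X φ L R : ℝ} (hc : 0 < c) (hδ : 0 < δ) (hε : 0 < ε₁)
    (hℓ : 1 ≤ ℓ) (hlI : ℓ / 2 ≤ lI) (hV : c / (δ * ℓ) ≤ V) (hφ : 0 < φ)
    (hX : 1 / 100 * Real.exp lI / φ ≤ X) (hL0 : 0 ≤ L) (hL : L ≤ δ * ℓ)
    (hR : R ≤ Real.exp lI * lI ^ (-(4 * (N : ℝ) + 10)) / φ)
    (hbig : 4 ^ N * (1 + 2 * δ) * 2 ^ (4 * N + 10) * (200 / ε₁) * (δ ^ N / c ^ N) ≤ ℓ) :
    (2 ^ N : ℝ) ^ 2 * ((1 + 2 * L) * R) ≤ X * (V ^ N * (ε₁ / 2)) := by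
  have hℓ0 : 0 < ℓ := by linarith
  have hlI0 : 0 < lI := by linarith
  have h1 : lI ^ (-(4 * (N : ℝ) + 10)) ≤ 2 ^ (4 * N + 10) / ℓ ^ (4 * N + 10) := by
    have e1 : (4 * (N : ℝ) + 10) = ((4 * N + 10 : ℕ) : ℝ) := by push_cast; ring
    rw [Real.rpow_neg hlI0.le, e1, Real.rpow_natCast, ← div_pow]
    have h2 : (ℓ / 2) ^ (4 * N + 10) ≤ lI ^ (4 * N + 10) :=
      pow_le_pow_left₀ (by positivity) hlI _
    calc (lI ^ (4 * N + 10))⁻¹ ≤ ((ℓ / 2) ^ (4 * N + 10))⁻¹ := by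
          apply inv_anti₀ (by positivity) h2
      _ = (2 / ℓ) ^ (4 * N + 10) := by
          rw [← inv_pow]
          congr 1
          rw [inv_div]
  have h2 : R ≤ Real.exp lI * (2 ^ (4 * N + 10) / ℓ ^ (4 * N + 10)) / φ := by
    refine hR.trans ?_
    apply div_le_div_of_nonneg_right _ hφ.le
    exact mul_le_mul_of_nonneg_left h1 (Real.exp_pos _).le
  have h3 : 1 + 2 * L ≤ (1 + 2 * δ) * ℓ := by nlinarith
  have h4 : (c / (δ * ℓ)) ^ N ≤ V ^ N := pow_le_pow_left₀ (by positivity) hV _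
  have hX0 : 0 ≤ X := le_trans (by positivity) hX
  have heq : (2 ^ N : ℝ) ^ 2 * ((1 + 2 * δ) * ℓ *
      (Real.exp lI * (2 ^ (4 * N + 10) / ℓ ^ (4 * N + 10)) / φ)) =
      (4 ^ N * (1 + 2 * δ) * 2 ^ (4 * N + 10) * (200 / ε₁) * (δ ^ N / c ^ N)) *
        (1 / ℓ ^ (3 * N + 9)) *
        (1 / 100 * Real.exp lI / φ * ((c / (δ * ℓ)) ^ N * (ε₁ / 2))) := by
    have e4 : (2 ^ N : ℝ) ^ 2 = 4 ^ N := by
      rw [← pow_mul, mul_comm, pow_mul]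
      norm_num
    have e5 : ℓ ^ (4 * N + 10) = ℓ * (ℓ ^ (3 * N + 9) * ℓ ^ N) := by
      rw [← pow_add, ← pow_succ']
      congr 1
      ring
    rw [e4, e5, div_pow, mul_pow δ ℓ]
    field_simp
    ring
  have h6 : (4 ^ N * (1 + 2 * δ) * 2 ^ (4 * N + 10) * (200 / ε₁) * (δ ^ N / c ^ N)) *
        (1 / ℓ ^ (3 * N + 9)) ≤ 1 := by
    have h13 : ℓ ≤ ℓ ^ (3 * N + 9) := by
      calc ℓ = ℓ ^ 1 := (pow_one ℓ).symm
        _ ≤ ℓ ^ (3 * N + 9) := pow_le_pow_right₀ hℓ (by omega)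
    rw [mul_one_div, div_le_one (by positivity)]
    exact hbig.trans h13
  calc (2 ^ N : ℝ) ^ 2 * ((1 + 2 * L) * R)
      ≤ (2 ^ N : ℝ) ^ 2 * ((1 + 2 * δ) * ℓ *
      (Real.exp lI * (2 ^ (4 * N + 10) / ℓ ^ (4 * N + 10)) / φ)) := by
        apply mul_le_mul_of_nonneg_left _ (by positivity)
        calc (1 + 2 * L) * R
            ≤ (1 + 2 * L) * (Real.exp lI * (2 ^ (4 * N + 10) / ℓ ^ (4 * N + 10)) / φ) :=
              mul_le_mul_of_nonneg_left h2 (by linarith)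
          _ ≤ (1 + 2 * δ) * ℓ * (Real.exp lI * (2 ^ (4 * N + 10) / ℓ ^ (4 * N + 10)) / φ) :=
              mul_le_mul_of_nonneg_right h3 (by positivity)
    _ ≤ 1 * (1 / 100 * Real.exp lI / φ * ((c / (δ * ℓ)) ^ N * (ε₁ / 2))) := by
        rw [heq]
        apply mul_le_mul_of_nonneg_right h6
        positivity
    _ = 1 / 100 * Real.exp lI / φ * ((c / (δ * ℓ)) ^ N * (ε₁ / 2)) := one_mul _
    _ ≤ X * (V ^ N * (ε₁ / 2)) := by
        apply mul_le_mul hX _ (by positivity) hX0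
        exact mul_le_mul_of_nonneg_right h4 (by positivity)

theorem tph_prime {K s κ : ℕ} (hK : 1 ≤ K) (hκ : 2 * κ ≤ K) (hFL : FLP (2 * K) s) {δ υ τ r : ℝ}
    (hδ : 0 < δ) (hυ : δ ≤ υ) (hυ2 : υ ≤ 1 / 4) (hτ : 0 < τ) (hlev : 2 * τ + δ * (4 * (s : ℝ) + 5) < 1 / 4)
    (hr : 1 ≤ r)
    (hprod : ∀ᶠ ℓ : ℝ in atTop, ∀ e : ℕ, ∏ p ∈ QQ δ υ ℓ e, (1 + 1 / ((p : ℝ) - 1)) ≤ r)
    {ε₁ : ℝ} (hε : 0 < ε₁) (M : ℕ) (hM : 1 ≤ M) (B : Finset ℕ) (hB : ∀ h ∈ B, Odd h) :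
    ∀ᶠ ℓ : ℝ in atTop, ∃ e : ℕ, e ≠ 2 ∧ ∀ b : ℕ, AdmB M (Hp M B) ℓ e b → ∀ i < M, ∀ h ∈ B,
      TPH (PP δ ℓ e) (QQ δ υ ℓ e) (Hp M B) (SM M ℓ e b) κ (Real.exp (τ * ℓ)) (V1 δ ℓ e)
        (XiC K s #(Hp M B) r) ε₁ (aM M (zz υ ℓ) ℓ i (ps M i h)) (XPm M υ ℓ e i)
        (fun U => ps M i h ∉ U) := by
  obtain ⟨c, hc, hV1⟩ := V1_bounds
  have hK0 : (0 : ℝ) ≤ (K : ℝ) := Nat.cast_nonneg _
  have hυ0 : 0 < υ := by linarith
  set H : Finset ℕ := Hp M B with hH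
  have hHpos : ∀ x ∈ H, 1 ≤ x := TP_Hp_pos hB
  set N : ℕ := #H with hN
  set Bc : ℝ := 2 * 4 ^ N with hBdef
  have hBc : 0 ≤ Bc := by positivity
  have hr0 : (0 : ℝ) < r := by linarith
  set η : ℝ := 1 / 4 - (2 * τ + δ * (4 * (s : ℝ) + 5)) with hη
  have hη0 : 0 < η := by rw [hη]; linarith
  obtain ⟨ε', hε', hexp⟩ := small_exp (B' := Bc * r ^ K) (A := 4 ^ K * ((K : ℝ) + 2)) (ε₁ := ε₁)
    (by positivity) (by positivity) hε
  filter_upwards [ev_wz (4 * (K : ℝ)), ev_zz hδ (12 * (K : ℝ) + 2),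
    xt_li M hυ0 hυ2, hV1 δ hδ, QQ_sq hδ hε' υ, vv_comp κ (one_pos : (0 : ℝ) < 1) hδ hε,
    vs_fix κ hδ H hHpos, hprod, distp M hM B hB K hK (4 * (N : ℝ) + 10) (by positivity) hυ0 hυ2,
    eventually_ge_atTop 1, eventually_ge_atTop (2 * (M : ℝ)), eventually_ge_atTop ((M : ℝ) / (4 * η)),
    eventually_ge_atTop (4 ^ N * (1 + 2 * δ) * 2 ^ (4 * N + 10) * (200 / ε₁) * (δ ^ N / c ^ N))]
    with ℓ h1 h2 h4 h5 h6 h7 h8 h10 h11 hℓ hℓM hℓη hbig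
  obtain ⟨e, he2, he⟩ := h11
  refine ⟨e, he2, ?_⟩
  intro b hb i hi h hh
  have hℓ0 : 0 < ℓ := by linarith
  obtain ⟨Mf, hM1, hM2⟩ := he δ h2.1 (zz_mono hυ hℓ0.le) i hi
  have hli := li_bounds ℓ hi
  have hx : ps M i h ∈ H := TP_mem_Hp hi hh
  intro Po' Hb hPo' hHb hiU C hC hC2
  have hiU' : ps M i h ∉ Hb ∪ Po' := hiU
  have hlogz : Real.log (zz δ ℓ) ≤ (zz δ ℓ : ℝ) := by
    have := Real.log_le_sub_one_of_pos (x := (zz δ ℓ : ℝ)) (by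
      by_contra hneg
      have h0 : (zz δ ℓ : ℝ) = 0 := le_antisymm (not_lt.mp hneg) (Nat.cast_nonneg _)
      have h00 := h2.2.1
      rw [h0, Real.log_zero] at h00
      linarith)
    linarith
  have hzK : 12 * K + 2 ≤ zz δ ℓ := by
    have : (12 * (K : ℝ) + 2) ≤ (zz δ ℓ : ℝ) := h2.2.1.trans hlogz
    exact_mod_cast this
  have hW0 : (0 : ℝ) < (((2 ^ i * WW ℓ e).totient : ℕ) : ℝ) := by
    exact_mod_cast Nat.totient_pos.mpr (Nat.mul_pos (by positivity) (WW_pos ℓ e))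
  have hV0 := V1_pos δ ℓ e
  have hVle := V1_le_one δ ℓ e
  have hXge : 1 / 100 * Real.exp (li M i ℓ) / (((2 ^ i * WW ℓ e).totient : ℕ) : ℝ) ≤
      XPm M υ ℓ e i := div_le_div_of_nonneg_right (h4 i hi).1 hW0.le
  have hX0 : 0 ≤ XPm M υ ℓ e i := le_trans (by positivity) hXge
  have hlogz0 : 0 ≤ Real.log (zz δ ℓ) := by
    have := h2.2.2.1
    have h0 : 0 < δ * ℓ / 2 := by positivity
    linarith
  have hlev' : (zz δ ℓ : ℝ) ^ (4 * s + 5) * Real.exp (τ * ℓ) ^ 2 ≤ Real.exp (li M i ℓ / 4) := by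
    have ha : (zz δ ℓ : ℝ) ^ (4 * s + 5) ≤ Real.exp (δ * ℓ) ^ (4 * s + 5) :=
      pow_le_pow_left₀ (Nat.cast_nonneg _) h2.2.2.2.2.1 _
    calc (zz δ ℓ : ℝ) ^ (4 * s + 5) * Real.exp (τ * ℓ) ^ 2
        ≤ Real.exp (δ * ℓ) ^ (4 * s + 5) * Real.exp (τ * ℓ) ^ 2 :=
          mul_le_mul_of_nonneg_right ha (by positivity)
      _ = Real.exp ((2 * τ + δ * (4 * (s : ℝ) + 5)) * ℓ) := by
          rw [← Real.exp_nat_mul, ← Real.exp_nat_mul, ← Real.exp_add]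
          congr 1
          push_cast
          ring
      _ ≤ Real.exp (li M i ℓ / 4) := by
          apply Real.exp_le_exp.mpr
          have h12 : (M : ℝ) ≤ 4 * η * ℓ := by
            rw [div_le_iff₀ (by positivity)] at hℓη
            linarith
          have h13 : (2 * τ + δ * (4 * (s : ℝ) + 5)) * ℓ = ℓ / 4 - η * ℓ := by
            rw [hη]
            ring
          rw [h13]
          linarith [hli.1]
  have hRb := hM2 s (Real.exp (τ * ℓ)) hlev'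
  have hdis : Disjoint ({ps M i h} : Finset ℕ) (Hb ∪ Po') := Finset.disjoint_singleton_left.mpr hiU'
  have hcore := tp_core (K := K) (s := s) (κ := κ) hK hκ hFL (w := wz ℓ) (z := zz δ ℓ) h1.1 h1.2 h2.1 hzK
    (P := PP δ ℓ e) (Q := QQ δ υ ℓ e) (Z := {ps M i h}) (Po := Po') (Hb := Hb) (S := SM M ℓ e b)
    (Finset.erase_subset _ _) (fun q hq => ?_) (by simp) (fun x hx' => ?_)
    (fun x hx' => h8.2.1 x (hPo' hx')) (fun x hx' => h8.2.1 x (hHb hx')) hdis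
    (a := aM M (zz υ ℓ) ℓ i (ps M i h)) (X := XPm M υ ℓ e i)
    (Lv := Real.exp (li M i ℓ / 4)) (M := Mf)
    (hM1 b h hh hb) C (Real.exp_pos _).le hC hC2 hlev'
    (V := V1 δ ℓ e) (B := Bc) (r := r) (ε₁ := ε₁) hV0.le hBc
    (h8.2.2 e Po' Hb {ps M i h} hPo' hHb (Finset.singleton_subset_iff.mpr hx) (by simp) hdis)
    (fun E hE hCE => ?_) (h10 e) ?_ ?_
  · have hXi : XiC K s N r = (1 / 2 : ℝ) ^ s * Bc * r ^ (6 * K) := by
      rw [XiC, hBdef]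
    rw [hXi]
    exact hcore
  · have hq' := mem_primesIoc.mp (Finset.mem_of_mem_erase hq)
    exact ⟨hq'.2.2, hq'.1⟩
  · rw [Finset.mem_singleton] at hx'
    rw [hx']
    exact h8.2.1 _ hx
  · have hU : pos E ⊆ Po' := by
      intro x hx'
      obtain ⟨y, hy, rfl⟩ := Finset.mem_image.mp hx'
      exact (Finset.mem_product.mp ((Finset.mem_powerset.mp hE) hy)).1
    apply h7 e {ps M i h} (Hb ∪ pos E) (Finset.singleton_subset_iff.mpr (h8.1 hx)) _ (by simp) _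
      (hC2 E hE hCE).1
    · exact Finset.union_subset (hHb.trans h8.1) ((hU.trans hPo').trans h8.1)
    · exact hdis.mono_right (Finset.union_subset_union_right hU)
  · have := hexp _ (h6 e)
    calc Bc * (r ^ K * (Real.exp (4 ^ K * ((K : ℝ) + 2) * ∑ p ∈ QQ δ υ ℓ e, 1 / ((p : ℝ) - 1) ^ 2) - 1))
        = Bc * r ^ K * (Real.exp (4 ^ K * ((K : ℝ) + 2) * ∑ p ∈ QQ δ υ ℓ e, 1 / ((p : ℝ) - 1) ^ 2) - 1) := by
          ring
      _ ≤ ε₁ / 2 := this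
  · set R : ℝ := ∑ Q' ∈ (QQ δ υ ℓ e).powerset.filter
        (fun Q' => ((∏ p ∈ Q', p : ℕ) : ℝ) ≤ Real.exp (τ * ℓ) ^ 2), (24 * (K : ℝ)) ^ #Q' *
            ∑ D ∈ (PP δ ℓ e).powerset.filter (fun D => (∏ p ∈ D, p) ≤ zz δ ℓ ^ (4 * s + 5)),
              (K : ℝ) ^ #D * Mf (D ∪ Q') with hRdef
    have hR0 : 0 ≤ R := by
      apply Finset.sum_nonneg
      intro Q' hQ'
      apply mul_nonneg (by positivity)
      refine Finset.sum_nonneg (fun D hD => mul_nonneg (by positivity) ?_)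
      apply (hM1 b h hh hb).M0
      exact Finset.union_subset
        ((Finset.mem_powerset.mp (Finset.mem_filter.mp hD).1).trans Finset.subset_union_left)
        ((Finset.mem_powerset.mp (Finset.mem_filter.mp hQ').1).trans Finset.subset_union_right)
    have hrem := TP_rem (N := N) (V := V1 δ ℓ e) (X := XPm M υ ℓ e i) (L := Real.log (zz δ ℓ))
      (R := R) hc hδ hε hℓ (lI := li M i ℓ) (by linarith [hli.1]) (h5 e).2.2 hW0 hXge hlogz0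
      h2.2.2.2.1 hRb hbig
    have hHH : (#(HH Po' Hb κ) : ℝ) ≤ 2 ^ N := hh_le κ H hPo'
    have hpw : V1 δ ℓ e ^ N ≤ V1 δ ℓ e ^ #Hb :=
      pow_le_pow_of_le_one hV0.le hVle (card_le_card hHb)
    calc (#(HH Po' Hb κ) : ℝ) ^ 2 * ((1 + 2 * Real.log (zz δ ℓ)) * R)
        ≤ (2 ^ N : ℝ) ^ 2 * ((1 + 2 * Real.log (zz δ ℓ)) * R) := by
          apply mul_le_mul_of_nonneg_right (pow_le_pow_left₀ (Nat.cast_nonneg _) hHH 2)
          exact mul_nonneg (by linarith) hR0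
      _ ≤ XPm M υ ℓ e i * (V1 δ ℓ e ^ N * (ε₁ / 2)) := hrem
      _ ≤ XPm M υ ℓ e i * (V1 δ ℓ e ^ #Hb * (ε₁ / 2)) := by
          apply mul_le_mul_of_nonneg_left _ hX0
          exact mul_le_mul_of_nonneg_right hpw (by positivity)

end Pool.Agent.H81.CC
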