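import Pool.Agent.H81.CC.TI
import Pool.Agent.H81.CC.TP
import Pool.Agent.H81.CC.Hit
import Pool.Agent.H81.CC.Par
import Pool.Agent.H81.CC.Sh
import Pool.Agent.H81.AS.FLU

/-!
JOB CC-KEY. Weights on integers `n` for which every scale `i < M` is hit with probability at least `δ₀` (absolute).

PROOF. Constants: `C0` (`flp_exists`), `c` (`Vp_ge`), `CQ` (`QQ_prod`), `c₁ = 1/100`, `ρ = 1/128`, `υ = 1/64`,
`c₂ = 16/(c₁ c ρ)`, `δ₀ = 1/(12 + 19 c₂)`: independent of `M`. Given `M ≥ 1`: `inner_exists M c₁` gives `k ≥ M + 1`, `n₀`, `η₁`, `δ₁`;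
`J = k/M ≥ 1`, `k ≤ 2 M J`, `M J ≤ k`. `B` from `shifts M J`, `H = Hp M B`, `#H = M J ≤ k` (`card_Hp`). `par k C0` gives `s`, `δ`;
`r = CQ/64/δ`, `ε₁ = 1/(16 r)`, `K = 2 k`, `κ = k` (`FLP (2 K) s` from `flp_exists`), `τ = 1/32`.
`tph_int`, `tph_prime` (same `e`), `inner_exists`, `mass_ratio`, `ev_zz`. Given `Y`, choose `ℓ` large with all this and
`Y < zz υ ℓ`, `T1l = exp (15ℓ/1024)`, `Tg = exp (ℓ/1024)`, `T1 = exp (ℓ/64)`, `R = exp (ρ ℓ)`, `T2 = exp (ℓ/32)`, `g = gst n₀ (η₁ ℓ)` (its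
properties as in AS/KP.lean), `X = X0 M ℓ e`, `XP = XPm M υ ℓ e i`, `V = V1 δ ℓ e`, `Bk = B.image (ps M i)`, `a x n = aM M (zz υ ℓ) ℓ i x n`.
`Sfi Q R ≤ r` (`Sfi_le_prod` with `υ' = ρ`... or `∏_{QQ δ υ} ≤ r`), so `(Ξ + ε₁) Sfi ≤ 1/16 + 1/16`, `Ξ = XiC K s (M J) r ≤ XiC with N = k`
and `Ξ r ≤ 1/16` by `par`. `h1`: `mass_ratio` gives `X V ℓ ≤ (4/(c₁ δ)) XP`; `16 (M+1) A2 ≤ c₁ δ k A1²`, `k ≤ 2 M J` give
`4 A2 ≤ c₁ δ J A1²`. `h2`: `Sfi_ge` (`υ' = ρ`, `exp (ρℓ) ≤ zz υ ℓ` for large `ℓ`): `Sfi ≥ (c/4) ρ/δ`. `a ≤ ℓ`: `log m ≤ ℓ_i ≤ ℓ`,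
`tent ≤ 1`. `hap`: if `a x N ≠ 0`, `x = A h`, then `m = (N + x)/A` is a prime `> zz υ ℓ`, and `A ∣ N + x`; `p ∣ N + x = A m`, `p` odd, gives
`p ∣ m`, impossible for `p ≤ zz υ ℓ`. `b` from `shifts`.
`hit_bound` for each `i < M`. Finally transport to `n = N/2^(M-1)` (`2^(M-1) ∣ N` for `N ∈ SM`, since `2^M ∣ b`): `S' = image`, and
`w' n = Psi (2^(M-1) n)^2`. If `a x N ≠ 0`, `x = ps M i h`, then `2^i n + h = (N + x)/A_i` is a prime `> zz υ ℓ > Y`.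
-/

set_option autoImplicit false

open Finset Filter Topology

namespace Pool.Agent.H81.CC

open Pool.Agent.H16 Pool.Agent.H81.AS

/-- the prime weights are between `0` and `ℓ` -/
theorem key_aM_bounds {M y i x n : ℕ} {ℓ : ℝ} (hi : i < M) (hℓ : 0 ≤ ℓ) :
    0 ≤ aM M y ℓ i x n ∧ aM M y ℓ i x n ≤ ℓ := by
  unfold aM
  refine ⟨aw_nonneg _ _ _, ?_⟩
  by_cases h0 : aw (li M i ℓ) y ((n + x) / Ai M i) = 0
  · rw [h0]
    exact hℓ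
  · have hp := (aw_ne_zero h0).1
    have hle : (n + x) / Ai M i ≤ ⌊Real.exp (li M i ℓ)⌋₊ := by
      by_contra hc
      push Not at hc
      exact h0 (aw_zero_of_big _ _ (Nat.lt_of_floor_lt hc).le)
    exact (aw_le _ _ _ hle hp).trans (li_bounds ℓ hi).2

theorem key_dvd {M e b n : ℕ} {ℓ : ℝ} (hb : 2 ^ M ∣ b) (hn : n ∈ SM M ℓ e b) : 2 ^ (M - 1) ∣ n := by
  unfold SM at hn
  rw [Finset.mem_filter] at hn
  have h1 : n ≡ b [MOD 2 ^ (M - 1)] := Nat.ModEq.of_mul_right _ hn.2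
  have h2 : 2 ^ (M - 1) ∣ b := (pow_dvd_pow 2 (Nat.sub_le M 1)).trans hb
  exact (Nat.ModEq.dvd_iff h1 (dvd_refl _)).2 h2

theorem key_split {M i h n : ℕ} (hi : i < M) : 2 ^ (M - 1) * n + ps M i h = Ai M i * (2 ^ i * n + h) := by
  unfold ps Ai
  have h1 : 2 ^ (M - 1) = 2 ^ (M - 1 - i) * 2 ^ i := by
    rw [← pow_add]
    congr 1
    omega
  rw [h1]
  ring

theorem key_div {M i h n : ℕ} (hi : i < M) : (2 ^ (M - 1) * n + ps M i h) / Ai M i = 2 ^ i * n + h := by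
  rw [key_split hi]
  exact Nat.mul_div_cancel_left _ (by unfold Ai; positivity)

/-- a scale is hit only if the position is free of primes of `P ∪ Q` -/
theorem key_hap {M i h n e : ℕ} {δ υ ℓ : ℝ} (hi : i < M) (hn : 2 ^ (M - 1) ∣ n) (hw : 2 ≤ wz ℓ)
    (hwz : wz ℓ ≤ zz δ ℓ) (hzz : zz δ ℓ ≤ zz υ ℓ) (hne : aM M (zz υ ℓ) ℓ i (ps M i h) n ≠ 0) :
    ∀ p ∈ PP δ ℓ e ∪ QQ δ υ ℓ e, ¬ p ∣ n + ps M i h := by
  intro p hp hdvd
  obtain ⟨u, rfl⟩ := hn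
  unfold aM at hne
  rw [key_div hi] at hne
  rw [key_split hi] at hdvd
  obtain ⟨h1, h2, -⟩ := aw_ne_zero hne
  obtain ⟨hp1, hp2, -⟩ := PQ_coprime (ℓ := ℓ) (e := e) (δ := δ) (υ := υ) hwz hp
  have hple : p ≤ zz υ ℓ := by
    rcases Finset.mem_union.1 hp with h | h
    · have := (mem_primesIoc.1 (Finset.mem_of_mem_erase h)).2.1
      exact this.trans hzz
    · exact (mem_primesIoc.1 (Finset.mem_of_mem_erase h)).2.1
  rcases (Nat.Prime.dvd_mul hp1).1 hdvd with h3 | h3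
  · unfold Ai at h3
    have h4 := (Nat.prime_dvd_prime_iff_eq hp1 Nat.prime_two).1 (hp1.dvd_of_dvd_pow h3)
    omega
  · have h4 := (Nat.prime_dvd_prime_iff_eq hp1 h1).1 h3
    omega

theorem key_Sfi_mono {Q : Finset ℕ} (hQ : ∀ p ∈ Q, p.Prime) {Y Y' : ℝ} (h : Y ≤ Y') : Sfi Q Y ≤ Sfi Q Y' := by
  unfold Sfi
  apply Finset.sum_le_sum
  intro D hD
  apply mul_le_mul_of_nonneg_right _ (pf_nonneg_of_prime hQ hD)
  split_ifs with h1 h2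
  · exact le_rfl
  · exact absurd (h1.trans h) h2
  · norm_num
  · exact le_rfl

/-- the first mass condition -/
theorem key_h1 {X V ℓ δ XP A1 A2 : ℝ} {M J k : ℕ} (hX : 0 ≤ X) (hV : 0 ≤ V) (hℓ : 0 < ℓ) (hδ : 0 < δ)
    (hXP : 0 ≤ XP) (hA2 : 0 ≤ A2) (hm : 1 / 100 * δ * V * X / 4 ≤ XP / ℓ)
    (hin : 16 * ((M : ℝ) + 1) * A2 ≤ 1 / 100 * δ * k * A1 ^ 2) (hk : k ≤ 2 * (M * J)) :
    X * V * ℓ * A2 ≤ J * XP * A1 ^ 2 := by
  have h1 : δ * (X * V * ℓ) ≤ 400 * XP := by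
    rw [le_div_iff₀ hℓ] at hm
    nlinarith
  have hM0 : (0 : ℝ) ≤ M := Nat.cast_nonneg _
  have hJ0 : (0 : ℝ) ≤ J := Nat.cast_nonneg _
  have hk' : (k : ℝ) ≤ 2 * (M * J) := by exact_mod_cast hk
  have hXV : 0 ≤ X * V * ℓ := by positivity
  have h2 : 16 * ((M : ℝ) + 1) * (δ * (X * V * ℓ) * A2) ≤ 400 * XP * (1 / 100 * δ * k * A1 ^ 2) := by
    calc 16 * ((M : ℝ) + 1) * (δ * (X * V * ℓ) * A2) = δ * (X * V * ℓ) * (16 * ((M : ℝ) + 1) * A2) := by ring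
      _ ≤ 400 * XP * (1 / 100 * δ * k * A1 ^ 2) :=
        mul_le_mul h1 hin (by positivity) (by positivity)
  have h3 : 400 * XP * (1 / 100 * δ * k * A1 ^ 2) ≤ 400 * XP * (1 / 100 * δ * (2 * (M * J)) * A1 ^ 2) := by
    gcongr
  have h4 : 400 * XP * (1 / 100 * δ * (2 * (M * J)) * A1 ^ 2) ≤
      16 * ((M : ℝ) + 1) * (δ * (J * XP * A1 ^ 2)) := by
    have h5 : 0 ≤ δ * (J * XP * A1 ^ 2) := by positivity
    have h6 : 400 * XP * (1 / 100 * δ * (2 * (M * J)) * A1 ^ 2) = 8 * M * (δ * (J * XP * A1 ^ 2)) := by ring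
    rw [h6]
    nlinarith
  have h7 : 16 * ((M : ℝ) + 1) * (δ * (X * V * ℓ) * A2) ≤ 16 * ((M : ℝ) + 1) * (δ * (J * XP * A1 ^ 2)) :=
    h2.trans (h3.trans h4)
  have h8 : δ * (X * V * ℓ) * A2 ≤ δ * (J * XP * A1 ^ 2) :=
    le_of_mul_le_mul_left h7 (by positivity)
  have h9 : δ * (X * V * ℓ * A2) ≤ δ * (J * XP * A1 ^ 2) := by
    calc δ * (X * V * ℓ * A2) = δ * (X * V * ℓ) * A2 := by ring
      _ ≤ _ := h8
  exact le_of_mul_le_mul_left h9 hδ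

/-- the second mass condition -/
theorem key_h2 {X V ℓ δ XP F c : ℝ} (hc : 0 < c) (hℓ : 0 < ℓ) (hδ : 0 < δ)
    (hXP : 0 ≤ XP) (hm : 1 / 100 * δ * V * X / 4 ≤ XP / ℓ)
    (hF : (c / 4) * (1 / 128) / δ ≤ F) :
    X * V * ℓ ≤ 204800 / c * XP * F := by
  have h1 : δ * (X * V * ℓ) ≤ 400 * XP := by
    rw [le_div_iff₀ hℓ] at hm
    nlinarith
  have h2 : X * V * ℓ ≤ 400 * XP / δ := by
    rw [le_div_iff₀ hδ]
    linarith
  refine h2.trans ?_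
  calc 400 * XP / δ = 204800 / c * XP * ((c / 4) * (1 / 128) / δ) := by
        field_simp
        ring
    _ ≤ _ := by gcongr

open Classical in
theorem key : ∃ δ₀ : ℝ, 0 < δ₀ ∧ ∀ M : ℕ, 1 ≤ M → ∃ B : Finset ℕ, ∀ Y : ℕ, ∃ (S : Finset ℕ) (w : ℕ → ℝ),
    (∀ n ∈ S, 0 ≤ w n) ∧ 0 < ∑ n ∈ S, w n ∧ ∀ i < M, δ₀ * ∑ n ∈ S, w n ≤
      ∑ n ∈ S.filter (fun n => ∃ h ∈ B, (2 ^ i * n + h).Prime ∧ Y < 2 ^ i * n + h), w n := by
  obtain ⟨C0, hC0, hFLU⟩ := flp_exists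
  obtain ⟨c, hc, hcV⟩ := Vp_ge
  obtain ⟨CQ, hCQ, hQprod⟩ := QQ_prod
  have hc₂0 : 0 < 204800 / c := by positivity
  refine ⟨1 / (12 + 19 * (204800 / c)), by positivity, fun M hM => ?_⟩
  obtain ⟨k, n₀, η₁, δ₁, hk, hn₀, hη₁, h1024, hδ₁, hinner⟩ :=
    inner_exists M (show (0 : ℝ) < 1 / 100 by norm_num)
  have hMk : M ≤ k := by omega
  have hJ1 : 1 ≤ k / M := (Nat.one_le_div_iff hM).2 hMk
  have hMJ : M * (k / M) ≤ k := Nat.mul_div_le k M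
  have hk2 : k ≤ 2 * (M * (k / M)) := by
    have h1 : k < M * (k / M + 1) := Nat.lt_mul_div_succ k hM
    have h2 : M * (k / M + 1) = M * (k / M) + M := by ring
    have h3 : M * 1 ≤ M * (k / M) := Nat.mul_le_mul_left M hJ1
    omega
  obtain ⟨J, hJ⟩ : ∃ J : ℕ, J = k / M := ⟨_, rfl⟩
  rw [← hJ] at hJ1 hMJ hk2
  obtain ⟨B, hBJ, hBodd, hadm⟩ := shifts M J
  obtain ⟨hcH, hHpos, hBk⟩ := card_Hp M B hBodd
  rw [hBJ] at hcH
  have hcHk : #(Hp M B) ≤ k := by rw [hcH]; exact hMJ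
  obtain ⟨s, δ, hδ, hδδ₁, hδ100, hs, hlev1, hlev2, hr1, hpar⟩ := par k C0 hCQ hδ₁
  obtain ⟨r, hr⟩ : ∃ r : ℝ, r = CQ * (1 / 64) / δ := ⟨_, rfl⟩
  rw [← hr] at hr1 hpar
  have hr0 : 0 < r := by linarith
  have hk1 : 1 ≤ k := by omega
  have hδ64 : δ ≤ 1 / 64 := by linarith
  have hFL : FLP (2 * (2 * k)) s := hFLU (2 * (2 * k)) s (by omega) (by
    have : 2 * (2 * k) = 4 * k := by ring
    rw [this]
    exact hs)
  have hprod : ∀ᶠ ℓ : ℝ in atTop, ∀ e : ℕ,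
      ∏ p ∈ QQ δ (1 / 64) ℓ e, (1 + 1 / ((p : ℝ) - 1)) ≤ r := by
    rw [hr]
    exact hQprod δ (1 / 64) hδ hδ64
  have hε₁ : 0 < 1 / (16 * r) := by positivity
  have TI := tph_int (K := 2 * k) (κ := k) (by omega) (by omega) hFL hδ hδ64
    (by norm_num : (0 : ℝ) < 1 / 32) hlev1 hr1 hprod hε₁ M (Hp M B) hHpos
  have TP := tph_prime (K := 2 * k) (κ := k) (by omega) (by omega) hFL hδ hδ64 (by norm_num)
    (by norm_num : (0 : ℝ) < 1 / 32) hlev2 hr1 hprod hε₁ M hM B hBodd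
  have IN := hinner δ (1 / 64) hδ hδδ₁ (by norm_num) (by norm_num)
  have MR := mass_ratio M hδ (show (0 : ℝ) < 1 / 64 by norm_num) (by norm_num)
  have hΞ0 : 0 ≤ XiC (2 * k) s #(Hp M B) r := by
    unfold XiC
    positivity
  have hΞr : XiC (2 * k) s #(Hp M B) r * r ≤ 1 / 16 := by
    refine le_trans ?_ hpar
    unfold XiC
    have h4 : (4 : ℝ) ^ #(Hp M B) ≤ 4 ^ k := pow_le_pow_right₀ (by norm_num) hcHk
    gcongr
  have hΞ : XiC (2 * k) s #(Hp M B) r ≤ 1 / 16 := by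
    nlinarith
  have hε16 : 1 / (16 * r) ≤ 1 / 16 := by
    apply one_div_le_one_div_of_le (by norm_num)
    linarith
  have hεr : 1 / (16 * r) * r = 1 / 16 := by
    field_simp
  refine ⟨B, fun Y => ?_⟩
  have hY : ∀ᶠ ℓ : ℝ in atTop, (Y : ℝ) < Real.exp (1 / 64 * ℓ) / 2 := by
    have h1 : Tendsto (fun ℓ : ℝ => Real.exp (1 / 64 * ℓ) / 2) atTop atTop :=
      (Real.tendsto_exp_atTop.comp (Tendsto.const_mul_atTop (by norm_num) tendsto_id)).atTop_div_const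
        (by norm_num)
    exact h1.eventually_gt_atTop _
  obtain ⟨ℓ, TI, TP, IN, MR, ZD, ZU, WZ, hprodℓ, hYℓ, hℓ⟩ := (TI.and (TP.and (IN.and (MR.and
    ((ev_zz hδ 1).and ((ev_zz (show (0 : ℝ) < 1 / 64 by norm_num) 1).and ((ev_wz 2).and (hprod.and
    (hY.and (eventually_ge_atTop (128 : ℝ))))))))))).exists
  have hℓ0 : 0 < ℓ := by linarith
  obtain ⟨e, he2, TP⟩ := TP
  obtain ⟨b, hb⟩ := hadm ℓ e
  have hwz2 : 2 ≤ wz ℓ := by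
    have := WZ.2
    exact_mod_cast this
  have hwzδ : wz ℓ ≤ zz δ ℓ := ZD.1
  have hzz : zz δ ℓ ≤ zz (1 / 64) ℓ := zz_mono hδ64 hℓ0.le
  have hηℓ : 0 ≤ η₁ * ℓ := by positivity
  have hg0 : ∀ r, 0 ≤ gst n₀ (η₁ * ℓ) r := fun r => gst_nonneg _ _ _
  have hg11 : gst n₀ (η₁ * ℓ) 1 = 1 := gst_one hn₀ hηℓ
  have hg00 : gst n₀ (η₁ * ℓ) 0 = 1 := gst_eq_one hn₀ hηℓ (by
    have := gY_ge_one hηℓ 0
    push_cast
    linarith)
  have hg1 : ∀ r, gst n₀ (η₁ * ℓ) r ≤ 1 := by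
    intro r
    rw [← hg00]
    exact gst_anti n₀ (η₁ * ℓ) (Nat.zero_le r)
  have hTg : ∀ r, gst n₀ (η₁ * ℓ) r ≠ 0 → (r : ℝ) ≤ Real.exp (1 / 1024 * ℓ) := by
    intro r hr
    by_contra hc
    push Not at hc
    apply hr
    apply gst_eq_zero hηℓ
    refine lt_of_le_of_lt ?_ hc
    unfold gY
    apply Real.exp_le_exp.mpr
    nlinarith
  have hQP : ∀ q ∈ QQ δ (1 / 64) ℓ e, q.Prime := QQ_prime
  have hV0 : 0 < V1 δ ℓ e := V1_pos δ ℓ e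
  have hX0 : 0 < X0 M ℓ e := by
    unfold X0
    have : (0 : ℝ) < ((2 ^ (M - 1) * WW ℓ e : ℕ) : ℝ) := by
      exact_mod_cast Nat.mul_pos (by positivity) (WW_pos ℓ e)
    positivity
  have hA2 : 0 ≤ ∑ D ∈ (QQ δ (1 / 64) ℓ e).powerset, gst n₀ (η₁ * ℓ) (pd D) ^ 2 * pf D :=
    Finset.sum_nonneg fun D hD => mul_nonneg (sq_nonneg _) (pf_nonneg_of_prime hQP hD)
  have hA3 : 0 ≤ ∑ D ∈ (QQ δ (1 / 64) ℓ e).powerset,
      gst n₀ (η₁ * ℓ) (pd D) ^ 2 * pf D * Real.log (pd D) :=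
    Finset.sum_nonneg fun D hD => mul_nonneg (mul_nonneg (sq_nonneg _) (pf_nonneg_of_prime hQP hD))
      (Real.log_natCast_nonneg _)
  obtain ⟨IN1, IN2⟩ := IN e
  have hmean : 2 * ((#(Hp M B) : ℝ) - 1) * ∑ D ∈ (QQ δ (1 / 64) ℓ e).powerset,
      gst n₀ (η₁ * ℓ) (pd D) ^ 2 * pf D * Real.log (pd D) ≤
      (∑ D ∈ (QQ δ (1 / 64) ℓ e).powerset, gst n₀ (η₁ * ℓ) (pd D) ^ 2 * pf D) *
        Real.log (Real.exp (15 / 1024 * ℓ)) := by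
    rw [Real.log_exp]
    have h1 : (#(Hp M B) : ℝ) ≤ k := by exact_mod_cast hcHk
    calc 2 * ((#(Hp M B) : ℝ) - 1) * ∑ D ∈ (QQ δ (1 / 64) ℓ e).powerset,
          gst n₀ (η₁ * ℓ) (pd D) ^ 2 * pf D * Real.log (pd D)
        ≤ 2 * ((k : ℝ) - 1) * ∑ D ∈ (QQ δ (1 / 64) ℓ e).powerset,
          gst n₀ (η₁ * ℓ) (pd D) ^ 2 * pf D * Real.log (pd D) := by
          apply mul_le_mul_of_nonneg_right _ hA3
          linarith
      _ ≤ _ := IN2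
      _ ≤ _ := by
          apply mul_le_mul_of_nonneg_left _ hA2
          linarith
  have hSr : Sfi (QQ δ (1 / 64) ℓ e) (Real.exp (1 / 128 * ℓ)) ≤ r := by
    refine le_trans (key_Sfi_mono hQP ?_) ((Sfi_le_prod δ (1 / 64) (1 / 64) ℓ e).trans (hprodℓ e))
    apply Real.exp_le_exp.2
    linarith
  have hSge : (c / 4) * (1 / 128) / δ ≤ Sfi (QQ δ (1 / 64) ℓ e) (Real.exp (1 / 128 * ℓ)) := by
    apply Sfi_ge hcV hc (by norm_num) hℓ0.le hδ (hwz2.trans hwzδ) ZD.2.2.2.1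
    refine le_trans ?_ ZU.2.2.2.2.2
    have h1 : Real.exp (1 / 64 * ℓ) = Real.exp (1 / 128 * ℓ) * Real.exp (1 / 128 * ℓ) := by
      rw [← Real.exp_add]
      congr 1
      ring
    have h2 : 2 ≤ Real.exp (1 / 128 * ℓ) := by
      have := Real.add_one_le_exp (1 / 128 * ℓ)
      linarith
    rw [h1, le_div_iff₀ (by norm_num)]
    have h3 := Real.exp_pos (1 / 128 * ℓ)
    nlinarith
  have hS : (XiC (2 * k) s #(Hp M B) r + 1 / (16 * r)) *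
      Sfi (QQ δ (1 / 64) ℓ e) (Real.exp (1 / 128 * ℓ)) ≤ 1 := by
    calc (XiC (2 * k) s #(Hp M B) r + 1 / (16 * r)) *
        Sfi (QQ δ (1 / 64) ℓ e) (Real.exp (1 / 128 * ℓ))
        ≤ (XiC (2 * k) s #(Hp M B) r + 1 / (16 * r)) * r := by gcongr
      _ = XiC (2 * k) s #(Hp M B) r * r + 1 / (16 * r) * r := by ring
      _ ≤ 1 := by rw [hεr]; linarith
  -- the bound at each scale
  have hit : ∀ i < M,
      0 < ∑ n ∈ SM M ℓ e b, Psi (PP δ ℓ e) (QQ δ (1 / 64) ℓ e) (Hp M B) (Hp M B)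
        (Cg (Hp M B) (gst n₀ (η₁ * ℓ)) (Real.exp (1 / 64 * ℓ))) n ^ 2 ∧
      ∑ n ∈ SM M ℓ e b, Psi (PP δ ℓ e) (QQ δ (1 / 64) ℓ e) (Hp M B) (Hp M B)
        (Cg (Hp M B) (gst n₀ (η₁ * ℓ)) (Real.exp (1 / 64 * ℓ))) n ^ 2 ≤
      (12 + 19 * (204800 / c)) * ∑ n ∈ (SM M ℓ e b).filter
        (fun n => ∃ x ∈ B.image (ps M i), aM M (zz (1 / 64) ℓ) ℓ i x n ≠ 0),
        Psi (PP δ ℓ e) (QQ δ (1 / 64) ℓ e) (Hp M B) (Hp M B)
          (Cg (Hp M B) (gst n₀ (η₁ * ℓ)) (Real.exp (1 / 64 * ℓ))) n ^ 2 := by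
    intro i hi
    obtain ⟨hsub, hcard⟩ := hBk i hi
    obtain ⟨hXP, hm⟩ := MR e he2 i hi
    refine hit_bound (κ := k) (T1l := Real.exp (15 / 1024 * ℓ)) (Tg := Real.exp (1 / 1024 * ℓ))
      (T2 := Real.exp (1 / 32 * ℓ)) (V := V1 δ ℓ e) (Ξ := XiC (2 * k) s #(Hp M B) r)
      (ε₁ := 1 / (16 * r)) (X := X0 M ℓ e) (XP := XPm M (1 / 64) ℓ e i)
      (R := Real.exp (1 / 128 * ℓ)) (ℓ := ℓ)
      hQP hg0 hg1 hg11 hcHk hsub ?_ hTg ?_ ?_ ?_ ?_ ?_ hV0 hX0 hXP hℓ0 hε₁.le hΞ0 ?_ hS hc₂0.le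
      hmean ?_ ?_ ?_ ?_ (TI e b) ?_
    · rw [← Finset.card_pos, hcard, hBJ]
      omega
    · rw [← Real.exp_add]
      apply Real.exp_le_exp.2
      linarith
    · rw [← Real.exp_zero]
      apply Real.exp_lt_exp.2
      positivity
    · exact Real.one_le_exp (by positivity)
    · exact Real.one_le_exp (by positivity)
    · rw [← Real.exp_add]
      apply Real.exp_le_exp.2
      linarith
    · linarith
    · rw [hcard, hBJ]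
      exact key_h1 hX0.le hV0.le hℓ0 hδ hXP.le hA2 hm IN1 hk2
    · exact key_h2 hc hℓ0 hδ hXP.le hm hSge
    · intro x _ n _
      exact key_aM_bounds hi hℓ0.le
    · intro x hx n hn hne
      obtain ⟨h, hh, rfl⟩ := Finset.mem_image.1 hx
      exact key_hap hi (key_dvd hb.1 hn) hwz2 hwzδ hzz hne
    · intro x hx
      obtain ⟨h, hh, rfl⟩ := Finset.mem_image.1 hx
      exact TP b hb i hi h hh
  -- transport
  obtain ⟨Φ, hΦ⟩ : ∃ Φ : ℕ → ℝ, Φ = fun n => Psi (PP δ ℓ e) (QQ δ (1 / 64) ℓ e) (Hp M B) (Hp M B)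
      (Cg (Hp M B) (gst n₀ (η₁ * ℓ)) (Real.exp (1 / 64 * ℓ))) n ^ 2 := ⟨_, rfl⟩
  have hΦ0 : ∀ n, 0 ≤ Φ n := by
    intro n
    rw [hΦ]
    exact sq_nonneg _
  have hit' : ∀ i < M, 0 < ∑ n ∈ SM M ℓ e b, Φ n ∧ ∑ n ∈ SM M ℓ e b, Φ n ≤
      (12 + 19 * (204800 / c)) * ∑ n ∈ (SM M ℓ e b).filter
        (fun n => ∃ x ∈ B.image (ps M i), aM M (zz (1 / 64) ℓ) ℓ i x n ≠ 0), Φ n := by
    rw [hΦ]
    exact hit
  have hdvd : ∀ n ∈ SM M ℓ e b, 2 ^ (M - 1) * (n / 2 ^ (M - 1)) = n := fun n hn =>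
    Nat.mul_div_cancel' (key_dvd hb.1 hn)
  have hinj : Set.InjOn (fun n => n / 2 ^ (M - 1)) (SM M ℓ e b : Set ℕ) := by
    intro x hx y hy hxy
    rw [← hdvd x hx, ← hdvd y hy]
    simp only at hxy
    rw [hxy]
  refine ⟨(SM M ℓ e b).image (fun n => n / 2 ^ (M - 1)), fun n => Φ (2 ^ (M - 1) * n),
    fun n _ => hΦ0 _, ?_, fun i hi => ?_⟩
  · rw [Finset.sum_image hinj, Finset.sum_congr rfl fun n hn => by rw [hdvd n hn]]
    exact (hit' 0 (by omega)).1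
  · have e1 : ∑ n ∈ (SM M ℓ e b).image (fun n => n / 2 ^ (M - 1)), Φ (2 ^ (M - 1) * n) =
        ∑ n ∈ SM M ℓ e b, Φ n := by
      rw [Finset.sum_image hinj]
      refine Finset.sum_congr rfl fun n hn => ?_
      rw [hdvd n hn]
    have e2 : ∑ n ∈ ((SM M ℓ e b).image (fun n => n / 2 ^ (M - 1))).filter
          (fun n => ∃ h ∈ B, (2 ^ i * n + h).Prime ∧ Y < 2 ^ i * n + h), Φ (2 ^ (M - 1) * n) =
        ∑ n ∈ (SM M ℓ e b).filter (fun n => ∃ h ∈ B, (2 ^ i * (n / 2 ^ (M - 1)) + h).Prime ∧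
          Y < 2 ^ i * (n / 2 ^ (M - 1)) + h), Φ n := by
      rw [Finset.filter_image, Finset.sum_image (hinj.mono (by
        intro n hn
        exact Finset.mem_coe.2 (Finset.mem_of_mem_filter n (Finset.mem_coe.1 hn))))]
      refine Finset.sum_congr rfl fun n hn => ?_
      rw [hdvd n (Finset.mem_of_mem_filter n hn)]
    rw [e1, e2]
    have h1 := (hit' i hi).2
    rw [one_div, inv_mul_le_iff₀ (by positivity)]
    refine h1.trans ?_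
    apply mul_le_mul_of_nonneg_left _ (by positivity)
    apply Finset.sum_le_sum_of_subset_of_nonneg
    · intro n hn
      rw [Finset.mem_filter] at hn ⊢
      refine ⟨hn.1, ?_⟩
      obtain ⟨x, hx, hne⟩ := hn.2
      obtain ⟨h, hh, rfl⟩ := Finset.mem_image.1 hx
      refine ⟨h, hh, ?_⟩
      unfold aM at hne
      rw [← hdvd n hn.1, key_div hi] at hne
      obtain ⟨h2, h3, -⟩ := aw_ne_zero hne
      refine ⟨h2, ?_⟩
      have h4 : (Y : ℝ) < (zz (1 / 64) ℓ : ℝ) := lt_of_lt_of_le hYℓ ZU.2.2.2.2.2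
      have h5 : Y < zz (1 / 64) ℓ := by exact_mod_cast h4
      omega
    · intro n _ _
      exact hΦ0 _

end Pool.Agent.H81.CC
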