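import Pool.Agent.H81.CC.Defs
import Pool.Agent.H90.Moll

/-!
JOB CC-MOLL. The mollifier bound with ONE exceptional modulus for all `ℓ ∈ [L - C, L]`.

PROOF. Copy of the proof of `Pool.Agent.H90.moll_small` (H90/Moll.lean; `wt` and `wtH` are the same function). Apply `zeroFree`
with `Q = exp x_L`, `x_L = L/(log L)^2`, which does not depend on `ℓ`; let `q₁` be its exceptional modulus. For
`ℓ ∈ [L-C, L]` put `x = ℓ/(log ℓ)^2`; `x ≤ x_L` (the function is increasing for `ℓ ≥ e^2`) and `x_L ≤ (5/4) x` for large `L`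
(e.g. `L ≤ (5/4) ℓ` and `log ℓ ≤ log L`). A modulus with `log q ≤ x` has `q ≤ Q`. In the proof of `hlow`:
`Λ = log (Q (|Im| + 2)) ≤ x_L + (D+1) log ℓ ≤ 2 x` if `(2 D + 4) log ℓ ≤ x`, and `Λ ≥ x_L ≥ x`; the rest is unchanged
(`η = c₁ (log ℓ)^2/(2ℓ) = c₁/(2x)`), the final numerics use `moll_core` at `ℓ` only. The eventual conditions must hold for
all `ℓ ≥ L - C`, i.e. take `L0 + C` and `max`.
-/

set_option autoImplicit false

open Finset Filter Topology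

namespace Pool.Agent.H81.CC

open Complex Pool.Agent.H16 Pool.Agent.H81.AS
open Pool.Agent.H90 (zeroFree moll_core eventually_log_pow_le)

theorem moll_unif (δ : ℝ) (hδ : 0 < δ) (A : ℝ) (Y : ℕ) (C : ℝ) (hC : 0 ≤ C) :
    ∃ L0 : ℝ, ∀ L : ℝ, L0 ≤ L → ∃ q₁ : ℕ, Y < q₁ ∧ ∀ ℓ : ℝ, L - C ≤ ℓ → ℓ ≤ L → MollAt δ A ℓ q₁ := by
  obtain ⟨c₁, hc₁, B, hB⟩ := zeroFree
  obtain ⟨Q₀, hQ₀⟩ := hB Y
  set P : ℝ := |A| with hP
  set B' : ℝ := |B| with hB'
  have hP0 : 0 ≤ P := abs_nonneg _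
  have hB0 : 0 ≤ B' := abs_nonneg _
  set D : ℝ := P + B' + 12 with hD
  set E : ℝ := D + B' + P + 7 with hE
  have hD0 : 12 ≤ D := by rw [hD]; linarith
  -- eventual conditions
  have hlogtop := Real.tendsto_log_atTop
  have ev : ∀ᶠ ℓ : ℝ in atTop, 4 ≤ ℓ ∧ 4 * Real.exp (2 * δ) ≤ ℓ ∧ 1 / δ ≤ ℓ ∧ 16 / c₁ ^ 2 ≤ ℓ ∧
      2 ≤ Real.log ℓ ∧ 2 * E / (c₁ * δ) ≤ Real.log ℓ ∧ c₁ * (Real.log ℓ) ^ 2 ≤ ℓ ∧
      (2 * D + 4) * (Real.log ℓ) ^ 3 ≤ ℓ ∧ Real.log (max Q₀ 1) * (Real.log ℓ) ^ 2 ≤ ℓ := by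
    filter_upwards [eventually_ge_atTop (4 : ℝ), eventually_ge_atTop (4 * Real.exp (2 * δ)),
      eventually_ge_atTop (1 / δ), eventually_ge_atTop (16 / c₁ ^ 2),
      hlogtop.eventually_ge_atTop 2, hlogtop.eventually_ge_atTop (2 * E / (c₁ * δ)),
      eventually_log_pow_le 2 c₁, eventually_log_pow_le 3 (2 * D + 4),
      eventually_log_pow_le 2 (Real.log (max Q₀ 1))] with ℓ h1 h2 h3 h4 h5 h6 h7 h8 h9
    exact ⟨h1, h2, h3, h4, h5, h6, h7, h8, h9⟩
  obtain ⟨L0, hL0⟩ := eventually_atTop.mp ev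
  refine ⟨max (L0 + C) (11 * C), fun L hLL => ?_⟩
  have hLa : L0 ≤ L - C := by linarith [le_max_left (L0 + C) (11 * C)]
  have hLb : 11 * C ≤ L := le_trans (le_max_right (L0 + C) (11 * C)) hLL
  obtain ⟨k1, -, -, -, k5, -, -, -, k9⟩ := hL0 L (by linarith)
  obtain ⟨m1, -, -, -, m5, -, -, -, -⟩ := hL0 (L - C) hLa
  set X := L / (Real.log (L - C)) ^ 2 with hX
  set Qr := Real.exp X with hQr
  have hlogLC : Real.log (L - C) ≤ Real.log L := Real.log_le_log (by linarith) (by linarith)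
  have hQ0 : Q₀ ≤ Qr := by
    have h10 : Real.log (max Q₀ 1) ≤ X := by
      have h11 : Real.log (max Q₀ 1) ≤ L / (Real.log L) ^ 2 := by
        rw [le_div_iff₀ (by positivity)]; exact k9
      refine h11.trans ?_
      rw [hX]
      have h12 : (Real.log (L - C)) ^ 2 ≤ (Real.log L) ^ 2 := by
        apply pow_le_pow_left₀ (by linarith) hlogLC
      have h13 : 0 < (Real.log (L - C)) ^ 2 := by
        have : 0 < Real.log (L - C) := by linarith
        positivity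
      exact div_le_div_of_nonneg_left (by linarith) h13 h12
    have h11 : 0 < max Q₀ 1 := lt_of_lt_of_le one_pos (le_max_right _ _)
    calc Q₀ ≤ max Q₀ 1 := le_max_left _ _
      _ = Real.exp (Real.log (max Q₀ 1)) := (Real.exp_log h11).symm
      _ ≤ Qr := Real.exp_le_exp.mpr h10
  obtain ⟨q₁, hq₁, hmain⟩ := hQ₀ Qr hQ0
  refine ⟨q₁, hq₁, ?_⟩
  intro ℓ hℓ hℓL
  obtain ⟨h1, h2, h3, h4, h5, h6, h7, h8, h9⟩ := hL0 ℓ (hLa.trans hℓ)
  have hℓ0 : 0 < ℓ := by linarith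
  set lg := Real.log ℓ with hlg
  have hlg0 : 0 < lg := by linarith
  set x := ℓ / lg ^ 2 with hx
  have hx1 : (2 * D + 4) * lg ≤ x := by
    rw [hx, le_div_iff₀ (by positivity)]
    calc (2 * D + 4) * lg * lg ^ 2 = (2 * D + 4) * lg ^ 3 := by ring
      _ ≤ ℓ := h8
  have hx0 : 0 < x := by positivity
  have hlc : Real.log (L - C) ≤ lg := Real.log_le_log (by linarith) hℓ
  have hlc0 : 0 < Real.log (L - C) := by linarith
  have hxX : x ≤ X := by
    rw [hx, hX]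
    apply div_le_div₀ (by linarith) hℓL (by positivity)
    exact pow_le_pow_left₀ (by linarith) hlc 2
  have hXx : X ≤ 3 / 2 * x := by
    have h10 : lg ≤ 11 / 10 * Real.log (L - C) := by
      have h11 : lg ≤ Real.log (11 / 10 * (L - C)) := Real.log_le_log hℓ0 (by linarith)
      rw [Real.log_mul (by norm_num) (by linarith)] at h11
      have h12 : Real.log (11 / 10) ≤ 1 / 10 := by
        have := Real.log_le_sub_one_of_pos (show (0 : ℝ) < 11 / 10 by norm_num)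
        linarith
      linarith
    have h13 : lg ^ 2 ≤ (11 / 10 * Real.log (L - C)) ^ 2 := pow_le_pow_left₀ (by linarith) h10 2
    have h14 : L ≤ 11 / 10 * ℓ := by linarith
    have h15 : (0 : ℝ) < (Real.log (L - C)) ^ 2 := by positivity
    have h16 : L * lg ^ 2 ≤ 3 / 2 * ℓ * (Real.log (L - C)) ^ 2 := by
      calc L * lg ^ 2 ≤ (11 / 10 * ℓ) * (11 / 10 * Real.log (L - C)) ^ 2 := by
            apply mul_le_mul h14 h13 (by positivity) (by positivity)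
        _ = 1331 / 1000 * (ℓ * (Real.log (L - C)) ^ 2) := by ring
        _ ≤ 3 / 2 * (ℓ * (Real.log (L - C)) ^ 2) := by
            have : 0 ≤ ℓ * (Real.log (L - C)) ^ 2 := by positivity
            linarith
        _ = _ := by ring
    rw [hX, hx, mul_div_assoc', div_le_div_iff₀ h15 (by positivity)]
    exact h16
  intro q _ hqx hdvd χ hχ t ht
  have hqQ : (q : ℝ) ≤ Qr := by
    have hq0 : (0 : ℝ) < q := by exact_mod_cast Nat.pos_of_ne_zero (NeZero.ne q)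
    calc (q : ℝ) = Real.exp (Real.log q) := (Real.exp_log hq0).symm
      _ ≤ _ := Real.exp_le_exp.mpr (hqx.trans hxX)
  set s : ℂ := ((1 + 1 / ℓ : ℝ) : ℂ) + t * I with hs
  have hsre : s.re = 1 + 1 / ℓ := by simp [hs]
  have hsim : s.im = t := by simp [hs]
  set η := c₁ * lg ^ 2 / (2 * ℓ) with hη
  have hη0 : 0 < η := by positivity
  set T := ℓ ^ D with hT
  have hT0 : 0 < T := by positivity
  set M := ℓ ^ B' with hM
  have hℓ1 : 1 ≤ ℓ := by linarith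
  have hlow : ∀ w : ℂ, -η ≤ w.re → |w.im| ≤ T → DirichletCharacter.LFunction χ (s + w) ≠ 0 ∧
      ‖1 / DirichletCharacter.LFunction χ (s + w)‖ ≤ M := by
    intro w hw1 hw2
    set Λ := Real.log (Qr * (|(s + w).im| + 2)) with hΛ
    have him : |(s + w).im| + 2 ≤ ℓ ^ (D + 1) := by
      rw [Complex.add_im, hsim]
      have h10 : |t| ≤ ℓ ^ D := ht.trans (Real.rpow_le_rpow_of_exponent_le hℓ1 (by
        have := le_abs_self A
        linarith))
      have h11 : (1 : ℝ) ≤ ℓ ^ D := Real.one_le_rpow hℓ1 (by linarith)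
      calc |t + w.im| + 2 ≤ |t| + |w.im| + 2 := by linarith [abs_add_le t w.im]
        _ ≤ ℓ ^ D + ℓ ^ D + 2 * ℓ ^ D := by linarith
        _ = 4 * ℓ ^ D := by ring
        _ ≤ ℓ * ℓ ^ D := by gcongr
        _ = ℓ ^ (D + 1) := by rw [Real.rpow_add hℓ0 D 1, Real.rpow_one]; ring
    have him0 : 0 < |(s + w).im| + 2 := by positivity
    have hΛle : Λ ≤ 2 * x := by
      rw [hΛ, Real.log_mul (Real.exp_pos X).ne' him0.ne', Real.log_exp]
      have h10 : Real.log (|(s + w).im| + 2) ≤ (D + 1) * lg := by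
        rw [hlg, ← Real.log_rpow hℓ0]
        exact Real.log_le_log him0 him
      clear * - h10 hx1 hlg0 hXx
      nlinarith
    have hΛge : x ≤ Λ := by
      rw [hΛ, Real.log_mul (Real.exp_pos X).ne' him0.ne', Real.log_exp]
      have h10 : 0 ≤ Real.log (|(s + w).im| + 2) := Real.log_nonneg (by
        linarith [abs_nonneg (s + w).im])
      linarith
    have hΛ1 : 1 ≤ Λ := by
      clear * - hΛge hx1 hlg0 h5 hD0
      nlinarith
    have hΛℓ : Λ ≤ ℓ := by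
      refine hΛle.trans ?_
      rw [hx, mul_div_assoc', div_le_iff₀ (by positivity)]
      have h10 : 4 ≤ lg ^ 2 := by
        clear * - h5
        nlinarith
      clear * - h10 hℓ0
      nlinarith
    have hcond : 1 - c₁ / Λ ≤ (s + w).re := by
      rw [Complex.add_re, hsre]
      have h10 : η ≤ c₁ / Λ := by
        have h11 : c₁ / (2 * x) ≤ c₁ / Λ := by gcongr
        have h12 : c₁ / (2 * x) = η := by
          rw [hx, hη]; field_simp
        linarith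
      have h13 : 0 < 1 / ℓ := by positivity
      linarith
    have h10 := hmain q hqQ hdvd χ hχ (s + w) hcond
    rw [← hΛ] at h10
    have h11 : 0 < Λ ^ (-B) := by positivity
    have h12 : 0 < ‖DirichletCharacter.LFunction χ (s + w)‖ := lt_of_lt_of_le h11 h10
    refine ⟨norm_pos_iff.mp h12, ?_⟩
    rw [norm_div, norm_one]
    calc 1 / ‖DirichletCharacter.LFunction χ (s + w)‖ ≤ 1 / Λ ^ (-B) :=
          one_div_le_one_div_of_le h11 h10
      _ = Λ ^ B := by rw [Real.rpow_neg (by linarith), one_div, inv_inv]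
      _ ≤ Λ ^ B' := Real.rpow_le_rpow_of_exponent_le hΛ1 (le_abs_self B)
      _ ≤ ℓ ^ B' := Real.rpow_le_rpow (by linarith) hΛℓ hB0
  refine (moll_core χ hχ δ ℓ η T M hδ hℓ1 hη0 hT0 s hsre hlow).trans ?_
  -- final numerics
  have hM1 : 1 ≤ M := Real.one_le_rpow hℓ1 hB0
  have hM' : M + (2 * ℓ + 2) ≤ ℓ ^ 2 * M := by
    have h10 : 0 ≤ ℓ ^ 2 - 1 := by
      clear * - hℓ1
      nlinarith
    have h11 : (ℓ ^ 2 - 1) * 1 ≤ (ℓ ^ 2 - 1) * M := mul_le_mul_of_nonneg_left hM1 h10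
    clear * - h11 h1
    nlinarith
  have hM0 : 0 < M := by linarith
  have hfac : (ℓ + 2) / (2 * Real.pi * (δ * ℓ)) ≤ ℓ := by
    have hpi := Real.pi_gt_three
    rw [div_le_iff₀ (by positivity)]
    have h10 : 1 ≤ δ * ℓ := by
      rw [div_le_iff₀ hδ] at h3; linarith
    have h11 : 6 ≤ 2 * Real.pi * (δ * ℓ) := by
      clear * - h10 hpi
      nlinarith
    calc ℓ + 2 ≤ ℓ * 6 := by linarith
      _ ≤ ℓ * (2 * Real.pi * (δ * ℓ)) := mul_le_mul_of_nonneg_left h11 hℓ0.le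
  have hTinv : 1 / T = ℓ ^ (-D) := by rw [Real.rpow_neg hℓ0.le, one_div]
  have hl2 : ℓ ^ 2 = ℓ ^ (2 : ℝ) := by norm_cast
  have ht1 : 2 * (2 * Real.exp (2 * δ) * (3 * ℓ + 4)) / T ≤ ℓ ^ (3 - D) := by
    calc 2 * (2 * Real.exp (2 * δ) * (3 * ℓ + 4)) / T =
          (4 * Real.exp (2 * δ)) * (3 * ℓ + 4) * (1 / T) := by ring
      _ ≤ ℓ * ℓ ^ 2 * (1 / T) := by
          gcongr
          clear * - h1
          nlinarith
      _ = ℓ ^ (3 - D) := by
          rw [hTinv, hl2]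
          nth_rw 1 [← Real.rpow_one ℓ]
          rw [← Real.rpow_add hℓ0, ← Real.rpow_add hℓ0]
          congr 1; ring
  have hση : 1 / ℓ + η ≤ 1 := by
    have h10 : 1 / ℓ ≤ 1 / 4 := one_div_le_one_div_of_le (by norm_num) h1
    have h11 : η ≤ 1 / 2 := by
      rw [hη, div_le_iff₀ (by positivity)]
      linarith
    linarith
  have ht2 : 2 * (1 / ℓ + η) * (2 * Real.exp (2 * δ) * (M + (2 * ℓ + 2)) * (1 / T ^ 2)) ≤
      ℓ ^ (B' + 3 - 2 * D) := by
    calc 2 * (1 / ℓ + η) * (2 * Real.exp (2 * δ) * (M + (2 * ℓ + 2)) * (1 / T ^ 2)) =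
          (1 / ℓ + η) * (4 * Real.exp (2 * δ)) * (M + (2 * ℓ + 2)) * ((1 / T) * (1 / T)) := by ring
      _ ≤ 1 * ℓ * (ℓ ^ 2 * M) * ((1 / T) * (1 / T)) := by gcongr
      _ = ℓ ^ (B' + 3 - 2 * D) := by
          rw [hTinv, hl2, hM, one_mul]
          nth_rw 1 [← Real.rpow_one ℓ]
          rw [← Real.rpow_add hℓ0, ← Real.rpow_add hℓ0, ← Real.rpow_add hℓ0, ← Real.rpow_add hℓ0]
          congr 1; ring
  have hexp : Real.exp (-(η * δ * ℓ)) ≤ ℓ ^ (-E) := by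
    rw [Real.rpow_def_of_pos hℓ0]
    apply Real.exp_le_exp.mpr
    have h10 : η * δ * ℓ = c₁ * δ / 2 * lg * lg := by
      rw [hη]; field_simp
    have h11 : E ≤ c₁ * δ / 2 * lg := by
      rw [div_le_iff₀ (by positivity)] at h6
      linarith
    rw [h10, ← hlg]
    clear * - h11 hlg0
    nlinarith
  have hηinv : 1 / η ^ 2 ≤ 4 / c₁ ^ 2 * ℓ ^ 2 := by
    have h10 : 1 / η ^ 2 = 4 / c₁ ^ 2 * ℓ ^ 2 * (1 / lg ^ 4) := by
      rw [hη]; field_simp; ring
    rw [h10]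
    have h11 : 1 / lg ^ 4 ≤ 1 := by
      rw [div_le_one (by positivity)]
      exact one_le_pow₀ (by linarith)
    have h12 : 0 ≤ 4 / c₁ ^ 2 * ℓ ^ 2 := by positivity
    exact mul_le_of_le_one_right h12 h11
  have ht3 : 2 * T * (2 * Real.exp (-(η * δ * ℓ)) * (M + (2 * ℓ + 2)) * (1 / η ^ 2)) ≤
      ℓ ^ (D + B' + 5 - E) := by
    calc 2 * T * (2 * Real.exp (-(η * δ * ℓ)) * (M + (2 * ℓ + 2)) * (1 / η ^ 2)) =
          4 * T * Real.exp (-(η * δ * ℓ)) * (M + (2 * ℓ + 2)) * (1 / η ^ 2) := by ring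
      _ ≤ 4 * T * ℓ ^ (-E) * (ℓ ^ 2 * M) * (4 / c₁ ^ 2 * ℓ ^ 2) := by gcongr
      _ = (16 / c₁ ^ 2) * (T * ℓ ^ (-E) * (ℓ ^ 2 * M) * ℓ ^ 2) := by ring
      _ ≤ ℓ * (T * ℓ ^ (-E) * (ℓ ^ 2 * M) * ℓ ^ 2) := by gcongr
      _ = ℓ ^ (D + B' + 5 - E) := by
          rw [hl2, hM, hT]
          nth_rw 1 [← Real.rpow_one ℓ]
          rw [← Real.rpow_add hℓ0, ← Real.rpow_add hℓ0, ← Real.rpow_add hℓ0, ← Real.rpow_add hℓ0,
            ← Real.rpow_add hℓ0]
          congr 1; ring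
  have hbound : ∀ a : ℝ, a ≤ -P - 2 → ℓ ^ a ≤ ℓ ^ (-P - 2) := fun a ha =>
    Real.rpow_le_rpow_of_exponent_le hℓ1 ha
  have hb1 := hbound (3 - D) (by rw [hD]; linarith)
  have hb2 := hbound (B' + 3 - 2 * D) (by rw [hD]; linarith)
  have hb3 := hbound (D + B' + 5 - E) (by rw [hE]; linarith)
  have hnn : 0 ≤ 2 * (2 * Real.exp (2 * δ) * (3 * ℓ + 4)) / T +
        2 * (1 / ℓ + η) * (2 * Real.exp (2 * δ) * (M + (2 * ℓ + 2)) * (1 / T ^ 2)) +
        2 * T * (2 * Real.exp (-(η * δ * ℓ)) * (M + (2 * ℓ + 2)) * (1 / η ^ 2)) := by positivity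
  calc _ ≤ ℓ * (3 * ℓ ^ (-P - 2)) := by
        apply mul_le_mul hfac _ hnn hℓ0.le
        linarith
    _ ≤ ℓ * (ℓ * ℓ ^ (-P - 2)) := by
        gcongr
        linarith
    _ = ℓ ^ (-P) := by
        nth_rw 1 2 [← Real.rpow_one ℓ]
        rw [← Real.rpow_add hℓ0, ← Real.rpow_add hℓ0]
        congr 1; ring
    _ ≤ ℓ ^ (-A) := Real.rpow_le_rpow_of_exponent_le hℓ1 (by
        have := le_abs_self A
        linarith)

end Pool.Agent.H81.CC
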