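import Pool.Agent.H81.CC.S2U
import Pool.Agent.H81.AS.Inner
import Pool.Agent.H81.AS.M2
import Pool.Agent.H81.AS.Restr

/-!
JOB CC-PAIRC (definitions and the identity). The coefficients for a pair of positions `i ≠ j`: the position `j` gets a Selberg factor of its own.

`C2 C Q i j = Cr (Cr C Q i) Q j` are the coefficients restricted at both positions;
`Cp C Q i j R E = C2 (E without the position j) * [pd (fib E j) ≤ R] / Sfi Q R` (`Sfi Q R = ∑_{pd D ≤ R} pf D`, AS/Inner.lean).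

PROOFS. `pair_psi`: if `n + i` and `n + j` are free of primes of `P ∪ Q`: `psi_erase` twice,
`Psi P Q H H C n = Psi P Q (H.erase i) (H.erase i) (Cr C Q i) n = Psi P Q ((H.erase i).erase j) (..) (C2) n`; and
`psi_erase` for `Cp` (positions `H.erase i`, `h0 = j`): `Cr (Cp) Q j E = C2 E` for `E ⊆ ((H.erase i).erase j) ×ˢ Q`, because for
`D ⊆ Q` the set `E ∪ D.image (fun p => (j,p))` has `fib _ j = D` (`fib_add_eq`) and removing the position `j` gives back `E`, and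
`∑_D [pd D ≤ R] pf D = Sfi Q R`. (`Psi` with coefficients that agree on the powerset are equal.)
-/

set_option autoImplicit false

open Finset Filter Topology

namespace Pool.Agent.H81.CC

open Pool.Agent.H16 Pool.Agent.H81.AS

/-- restricted at both positions -/
noncomputable def C2 (C : Finset (ℕ × ℕ) → ℝ) (Q : Finset ℕ) (i j : ℕ) : Finset (ℕ × ℕ) → ℝ :=
  Cr (Cr C Q i) Q j

/-- the coefficients with a Selberg factor at the position `j` -/
noncomputable def Cp (C : Finset (ℕ × ℕ) → ℝ) (Q : Finset ℕ) (i j : ℕ) (R : ℝ) (E : Finset (ℕ × ℕ)) : ℝ :=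
  C2 C Q i j (E.filter (fun x => x.1 ≠ j)) * (if (pd (fib E j) : ℝ) ≤ R then 1 else 0) / Sfi Q R

theorem sfi_one_le {Q : Finset ℕ} (hQ : ∀ q ∈ Q, q.Prime) {R : ℝ} (hR : 1 ≤ R) : 1 ≤ Sfi Q R := by
  have h0 : (∅ : Finset ℕ) ∈ Q.powerset := Finset.empty_mem_powerset Q
  have h1 : (if (pd (∅ : Finset ℕ) : ℝ) ≤ R then (1 : ℝ) else 0) * pf ∅ = 1 := by
    have : (pd (∅ : Finset ℕ) : ℝ) ≤ R := by simpa [pd] using hR
    rw [if_pos this]
    simp [pf]
  unfold Sfi
  calc (1 : ℝ) = (if (pd (∅ : Finset ℕ) : ℝ) ≤ R then (1 : ℝ) else 0) * pf ∅ := h1.symm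
    _ ≤ _ := by
      refine Finset.single_le_sum (f := fun D => (if (pd D : ℝ) ≤ R then (1 : ℝ) else 0) * pf D) ?_ h0
      intro D hD
      refine mul_nonneg ?_ (pf_nonneg_of_prime hQ hD)
      split_ifs <;> norm_num

theorem filter_add {E : Finset (ℕ × ℕ)} {D : Finset ℕ} {j : ℕ} (hh : ∀ x ∈ E, x.1 ≠ j) :
    (E ∪ D.image (fun p => (j, p))).filter (fun x => x.1 ≠ j) = E := by
  ext x
  rw [Finset.mem_filter, Finset.mem_union, Finset.mem_image]
  constructor
  · rintro ⟨h1 | ⟨q, _, rfl⟩, h2⟩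
    · exact h1
    · exact absurd rfl h2
  · intro hx
    exact ⟨Or.inl hx, hh x hx⟩

theorem psi_congr {P Q Po Hb : Finset ℕ} {C C' : Finset (ℕ × ℕ) → ℝ} {n : ℕ}
    (h : ∀ E ∈ (Po ×ˢ Q).powerset, C E = C' E) : Psi P Q Po Hb C n = Psi P Q Po Hb C' n := by
  unfold Psi
  exact Finset.sum_congr rfl fun E hE => by rw [h E hE]

theorem pair_psi {P Q H : Finset ℕ} (hQ : ∀ q ∈ Q, q.Prime) (C : Finset (ℕ × ℕ) → ℝ) {i j n : ℕ} (hi : i ∈ H)
    (hj : j ∈ H) (hij : i ≠ j) {R : ℝ} (hR : 1 ≤ R) (hni : ∀ p ∈ P ∪ Q, ¬ p ∣ n + i)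
    (hnj : ∀ p ∈ P ∪ Q, ¬ p ∣ n + j) :
    Psi P Q H H C n = Psi P Q (H.erase i) (H.erase i) (Cp C Q i j R) n := by
  have hj' : j ∈ H.erase i := Finset.mem_erase.2 ⟨hij.symm, hj⟩
  rw [psi_erase C hi hni, psi_erase (Cr C Q i) hj' hnj, psi_erase (Cp C Q i j R) hj' hnj]
  refine psi_congr fun E hE => ?_
  have hE' : ∀ x ∈ E, x.1 ≠ j := by
    intro x hx
    have := Finset.mem_powerset.1 hE hx
    exact (Finset.mem_erase.1 (Finset.mem_product.1 this).1).1
  have hS : 0 < Sfi Q R := lt_of_lt_of_le one_pos (sfi_one_le hQ hR)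
  have key : Cr (Cp C Q i j R) Q j E = C2 C Q i j E := by
    unfold Cr
    have : ∀ D ∈ Q.powerset, Cp C Q i j R (E ∪ D.image (fun p => (j, p))) * pf D =
        C2 C Q i j E / Sfi Q R * ((if (pd D : ℝ) ≤ R then (1 : ℝ) else 0) * pf D) := by
      intro D _
      unfold Cp
      rw [filter_add hE', M2.fib_add_eq hE']
      ring
    rw [Finset.sum_congr rfl this, ← Finset.mul_sum]
    change C2 C Q i j E / Sfi Q R * Sfi Q R = _
    field_simp
  rw [key]
  rfl

end Pool.Agent.H81.CC
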