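import Pool.Agent.H81.CC.PairC

/-!
JOB CC-PAIRD. Bounds for the coefficients of a pair of positions (definitions in CC/PairC.lean).

PROOFS. `c2_le`: for `E ⊆ ((H.erase i).erase j) ×ˢ Q`: `|C2 E| ≤ B^2 ∏_{h} g (pd (fib E h))` over `h ∈ (H.erase i).erase j`: apply `cr_cg_le` to
`E ∪ D.image (fun p => (j,p))` (its fibres are those of `E`, and `D` at `j`) and sum over `D` with weight `pf D ≥ 0`.
`c2_supp`: `C2 E ≠ 0` implies that `Cg H g T1 (E ∪ ..) ≠ 0` for some completion, so `nn E ≤ T1` (`nn` is monotone).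
`cp_abs`: `g ≤ 1`, `Sfi ≥ 1`. `cp_supp`: `nn E = nn (E without j) * pd (fib E j) ≤ T1 R`.
`cp_dg`: `Dg` over `(H.erase i) ×ˢ Q`: `#(H.erase i ∪ pos E) = #H - 1`; split `E` into the part at `j` and the rest (`sum_split`,
`sum_single`), `ph E = ph E' * pf D`: the sum is `V^(#H-1) (∑_{E'} C2(E')^2 ph E') (∑_D [pd D ≤ R] pf D)/Sfi^2
≤ V^(#H-1) B^4 A2^(#H-2)/Sfi` (`idd_full` for `(H.erase i).erase j`).
-/

set_option autoImplicit false

open Finset Filter Topology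

namespace Pool.Agent.H81.CC

open Pool.Agent.H16 Pool.Agent.H81.AS

/-! ### Elementary lemmas -/

theorem paird_ne {A Q : Finset ℕ} {j : ℕ} {E : Finset (ℕ × ℕ)} (hE : E ⊆ (A.erase j) ×ˢ Q) :
    ∀ x ∈ E, x.1 ≠ j := fun _ hx => ne_of_mem_erase (mem_product.1 (hE hx)).1

theorem paird_split (j : ℕ) (E : Finset (ℕ × ℕ)) :
    E.filter (fun x => x.1 ≠ j) ∪ (fib E j).image (fun p => (j, p)) = E := by
  ext ⟨h, p⟩
  rw [mem_union, mem_filter, mem_image]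
  constructor
  · rintro (h1 | ⟨q, hq, h2⟩)
    · exact h1.1
    · rw [← h2]
      exact mem_fib.1 hq
  · intro h1
    by_cases h2 : h = j
    · subst h2
      exact Or.inr ⟨p, mem_fib.2 h1, rfl⟩
    · exact Or.inl ⟨h1, h2⟩

theorem paird_filt {E : Finset (ℕ × ℕ)} {D : Finset ℕ} {j : ℕ} (hE : ∀ x ∈ E, x.1 ≠ j) :
    (E ∪ D.image (fun p => (j, p))).filter (fun x => x.1 ≠ j) = E := by
  ext x
  rw [mem_filter, mem_union, mem_image]
  constructor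
  · rintro ⟨h1 | ⟨q, _, h2⟩, h3⟩
    · exact h1
    · exact absurd (by rw [← h2]) h3
  · intro h1
    exact ⟨Or.inl h1, hE x h1⟩

theorem paird_filt_mem {A Q : Finset ℕ} {j : ℕ} {E : Finset (ℕ × ℕ)} (hE : E ⊆ A ×ˢ Q) :
    E.filter (fun x => x.1 ≠ j) ⊆ (A.erase j) ×ˢ Q := by
  intro x hx
  rw [mem_filter] at hx
  have h1 := mem_product.1 (hE hx.1)
  exact mem_product.2 ⟨mem_erase.2 ⟨hx.2, h1.1⟩, h1.2⟩

theorem paird_add_mem {A Q : Finset ℕ} {j : ℕ} (hj : j ∈ A) {E : Finset (ℕ × ℕ)}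
    (hE : E ⊆ (A.erase j) ×ˢ Q) {D : Finset ℕ} (hD : D ⊆ Q) :
    E ∪ D.image (fun p => (j, p)) ⊆ A ×ˢ Q := by
  intro x hx
  rw [mem_union, mem_image] at hx
  rcases hx with h1 | ⟨p, hp, rfl⟩
  · have h2 := mem_product.1 (hE h1)
    exact mem_product.2 ⟨mem_of_mem_erase h2.1, h2.2⟩
  · exact mem_product.2 ⟨hj, hD hp⟩

theorem paird_ph {E : Finset (ℕ × ℕ)} {D : Finset ℕ} {j : ℕ} (hE : ∀ x ∈ E, x.1 ≠ j) :
    ph (E ∪ D.image (fun p => (j, p))) = ph E * pf D := by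
  unfold ph pf
  rw [Finset.prod_union, Finset.prod_image]
  · intro a _ b _ h
    exact (congrArg Prod.snd h)
  · rw [Finset.disjoint_left]
    intro x hx hx'
    obtain ⟨q, _, h2⟩ := Finset.mem_image.1 hx'
    exact hE x hx (by rw [← h2])

theorem paird_nn_mono {A Q : Finset ℕ} (hQ : ∀ q ∈ Q, q.Prime) {E E' : Finset (ℕ × ℕ)}
    (hE : E ⊆ E') (hE' : E' ⊆ A ×ˢ Q) : nn E ≤ nn E' := by
  unfold nn
  refine Finset.prod_le_prod_of_subset_of_one_le' hE fun x hx _ => ?_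
  exact (hQ _ (mem_product.1 (hE' hx)).2).one_le

theorem paird_gpf_nonneg {Q : Finset ℕ} (hQ : ∀ q ∈ Q, q.Prime) {g : ℕ → ℝ} (hg : ∀ r, 0 ≤ g r) :
    0 ≤ ∑ D ∈ Q.powerset, g (pd D) * pf D :=
  sum_nonneg fun D hD => mul_nonneg (hg _) (M2.pf_nonneg hQ (mem_powerset.1 hD))

theorem c2_le {Q H : Finset ℕ} (hQ : ∀ q ∈ Q, q.Prime) {g : ℕ → ℝ} (hg : ∀ r, 0 ≤ g r) (T1 : ℝ) {i j : ℕ}
    (hi : i ∈ H) (hj : j ∈ H) (hij : i ≠ j) {E : Finset (ℕ × ℕ)}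
    (hE : E ∈ (((H.erase i).erase j) ×ˢ Q).powerset) :
    |C2 (Cg H g T1) Q i j E| ≤ (∑ D ∈ Q.powerset, g (pd D) * pf D) ^ 2 *
      ∏ h ∈ (H.erase i).erase j, g (pd (fib E h)) := by
  have hjH : j ∈ H.erase i := mem_erase.2 ⟨hij.symm, hj⟩
  have hE1 := mem_powerset.1 hE
  have hne := paird_ne hE1
  set B := ∑ D ∈ Q.powerset, g (pd D) * pf D with hB
  have hterm : ∀ D ∈ Q.powerset,
      |Cr (Cg H g T1) Q i (E ∪ D.image (fun p => (j, p))) * pf D| ≤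
        (B * ∏ h ∈ (H.erase i).erase j, g (pd (fib E h))) * (g (pd D) * pf D) := by
    intro D hD
    have hD' := mem_powerset.1 hD
    have hpf : 0 ≤ pf D := M2.pf_nonneg hQ hD'
    have h1 := cr_cg_le hQ hg T1 hi (mem_powerset.2 (paird_add_mem hjH hE1 hD'))
    rw [← Finset.mul_prod_erase (H.erase i) _ hjH, M2.fib_add_eq hne] at h1
    have h2 : ∏ h ∈ (H.erase i).erase j, g (pd (fib (E ∪ D.image (fun p => (j, p))) h)) =
        ∏ h ∈ (H.erase i).erase j, g (pd (fib E h)) :=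
      prod_congr rfl fun h hh => by rw [M2.fib_add_ne (ne_of_mem_erase hh)]
    rw [h2, ← hB] at h1
    rw [abs_mul, abs_of_nonneg hpf]
    calc _ ≤ (B * (g (pd D) * ∏ h ∈ (H.erase i).erase j, g (pd (fib E h)))) * pf D :=
          mul_le_mul_of_nonneg_right h1 hpf
      _ = _ := by ring
  unfold C2
  rw [show Cr (Cr (Cg H g T1) Q i) Q j E = ∑ D ∈ Q.powerset,
    Cr (Cg H g T1) Q i (E ∪ D.image (fun p => (j, p))) * pf D from rfl]
  calc _ ≤ ∑ D ∈ Q.powerset, |Cr (Cg H g T1) Q i (E ∪ D.image (fun p => (j, p))) * pf D| :=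
        abs_sum_le_sum_abs _ _
    _ ≤ ∑ D ∈ Q.powerset, (B * ∏ h ∈ (H.erase i).erase j, g (pd (fib E h))) *
        (g (pd D) * pf D) := sum_le_sum hterm
    _ = _ := by
      rw [← mul_sum, ← hB]
      ring

theorem cp_abs {Q H : Finset ℕ} (hQ : ∀ q ∈ Q, q.Prime) {g : ℕ → ℝ} (hg : ∀ r, 0 ≤ g r)
    (hg1 : ∀ r, g r ≤ 1) (T1 : ℝ) {i j : ℕ} (hi : i ∈ H) (hj : j ∈ H) (hij : i ≠ j) {R : ℝ} (hR : 1 ≤ R)
    {E : Finset (ℕ × ℕ)} (hE : E ∈ ((H.erase i) ×ˢ Q).powerset) :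
    |Cp (Cg H g T1) Q i j R E| ≤ (∑ D ∈ Q.powerset, g (pd D) * pf D) ^ 2 := by
  have hS := sfi_one_le hQ hR
  have hS0 : 0 < Sfi Q R := lt_of_lt_of_le one_pos hS
  have h1 := c2_le hQ hg T1 hi hj hij
    (mem_powerset.2 (paird_filt_mem (j := j) (mem_powerset.1 hE)))
  set B := ∑ D ∈ Q.powerset, g (pd D) * pf D with hB
  have h2 : |C2 (Cg H g T1) Q i j (E.filter (fun x => x.1 ≠ j))| ≤ B ^ 2 := by
    refine h1.trans ?_
    have h3 : ∏ h ∈ (H.erase i).erase j, g (pd (fib (E.filter (fun x => x.1 ≠ j)) h)) ≤ 1 :=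
      Finset.prod_le_one (fun _ _ => hg _) (fun _ _ => hg1 _)
    calc _ ≤ B ^ 2 * 1 := mul_le_mul_of_nonneg_left h3 (sq_nonneg _)
      _ = _ := mul_one _
  unfold Cp
  rw [abs_div, abs_mul, abs_of_pos hS0, div_le_iff₀ hS0]
  have h3 : |(if (pd (fib E j) : ℝ) ≤ R then (1 : ℝ) else 0)| ≤ 1 := by
    split_ifs <;> simp
  calc _ ≤ B ^ 2 * 1 := mul_le_mul h2 h3 (abs_nonneg _) (sq_nonneg _)
    _ ≤ B ^ 2 * Sfi Q R := mul_le_mul_of_nonneg_left hS (sq_nonneg _)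

theorem cp_supp {Q H : Finset ℕ} (hQ : ∀ q ∈ Q, q.Prime) {g : ℕ → ℝ} {T1 : ℝ} (hT1 : 0 ≤ T1) {i j : ℕ}
    (hi : i ∈ H) (hj : j ∈ H) (hij : i ≠ j) {R : ℝ} (hR : 1 ≤ R) {E : Finset (ℕ × ℕ)}
    (hE : E ∈ ((H.erase i) ×ˢ Q).powerset) (h0 : Cp (Cg H g T1) Q i j R E ≠ 0) :
    #(H.erase i ∪ pos E) ≤ #H ∧ (nn E : ℝ) ≤ T1 * R := by
  have hjH : j ∈ H.erase i := mem_erase.2 ⟨hij.symm, hj⟩
  have hE1 := mem_powerset.1 hE
  constructor
  · rw [union_eq_left.2 (M2.pos_sub hE1)]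
    exact card_le_card (erase_subset _ _)
  · have hE2 := paird_filt_mem (j := j) hE1
    set E' := E.filter (fun x => x.1 ≠ j) with hE'
    have hc2 : C2 (Cg H g T1) Q i j E' ≠ 0 := by
      intro h
      apply h0
      unfold Cp
      rw [← hE', h, zero_mul, zero_div]
    have hpd : (pd (fib E j) : ℝ) ≤ R := by
      by_contra h
      apply h0
      unfold Cp
      rw [if_neg h, mul_zero, zero_div]
    obtain ⟨D, hD, h1⟩ := Finset.exists_ne_zero_of_sum_ne_zero (show ∑ D ∈ Q.powerset,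
      Cr (Cg H g T1) Q i (E' ∪ D.image (fun p => (j, p))) * pf D ≠ 0 from hc2)
    have h2 : Cr (Cg H g T1) Q i (E' ∪ D.image (fun p => (j, p))) ≠ 0 := left_ne_zero_of_mul h1
    obtain ⟨D', hD', h3⟩ := Finset.exists_ne_zero_of_sum_ne_zero (show ∑ D' ∈ Q.powerset,
      Cg H g T1 ((E' ∪ D.image (fun p => (j, p))) ∪ D'.image (fun p => (i, p))) * pf D' ≠ 0 from h2)
    have h4 := left_ne_zero_of_mul h3
    have hF1 : E' ∪ D.image (fun p => (j, p)) ⊆ (H.erase i) ×ˢ Q :=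
      paird_add_mem hjH hE2 (mem_powerset.1 hD)
    have hF2 : (E' ∪ D.image (fun p => (j, p))) ∪ D'.image (fun p => (i, p)) ⊆ H ×ˢ Q :=
      paird_add_mem hi hF1 (mem_powerset.1 hD')
    set F := (E' ∪ D.image (fun p => (j, p))) ∪ D'.image (fun p => (i, p)) with hF
    have h5 : (nn (F.filter (fun x => x.1 ∈ H)) : ℝ) ≤ T1 := by
      by_contra h
      apply h4
      unfold Cg Cf
      rw [if_neg h, zero_mul, mul_zero]
    have h6 : F.filter (fun x => x.1 ∈ H) = F :=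
      Finset.filter_true_of_mem fun x hx => (mem_product.1 (hF2 hx)).1
    rw [h6] at h5
    have h7 : nn E' ≤ nn F := by
      refine paird_nn_mono hQ ?_ hF2
      intro x hx
      rw [hF]
      exact mem_union_left _ (mem_union_left _ hx)
    have h8 : nn E = nn E' * pd (fib E j) := by
      conv_lhs => rw [← paird_split j E]
      rw [M2.nn_add (paird_ne hE2)]
    have h9 : (nn E' : ℝ) ≤ T1 := le_trans (by exact_mod_cast h7) h5
    rw [h8, Nat.cast_mul]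
    exact mul_le_mul h9 hpd (Nat.cast_nonneg _) hT1

theorem cp_dg {Q H : Finset ℕ} (hQ : ∀ q ∈ Q, q.Prime) {g : ℕ → ℝ} (hg : ∀ r, 0 ≤ g r) (T1 : ℝ) {i j : ℕ}
    (hi : i ∈ H) (hj : j ∈ H) (hij : i ≠ j) {R V : ℝ} (hR : 1 ≤ R) (hV : 0 ≤ V) :
    Dg Q (H.erase i) (H.erase i) V (Cp (Cg H g T1) Q i j R) ≤
      V ^ (#H - 1) * ((∑ D ∈ Q.powerset, g (pd D) * pf D) ^ 4 *
        (∑ D ∈ Q.powerset, g (pd D) ^ 2 * pf D) ^ (#H - 2) / Sfi Q R) := by
  have hjH : j ∈ H.erase i := mem_erase.2 ⟨hij.symm, hj⟩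
  have hS0 : 0 < Sfi Q R := lt_of_lt_of_le one_pos (sfi_one_le hQ hR)
  set B := ∑ D ∈ Q.powerset, g (pd D) * pf D with hB
  set A2 := ∑ D ∈ Q.powerset, g (pd D) ^ 2 * pf D with hA2
  have hc1 : #(H.erase i) = #H - 1 := card_erase_of_mem hi
  have hc2 : #((H.erase i).erase j) = #H - 2 := by
    rw [card_erase_of_mem hjH, hc1]
    omega
  have e1 : Dg Q (H.erase i) (H.erase i) V (Cp (Cg H g T1) Q i j R) =
      V ^ (#H - 1) * ∑ E ∈ ((H.erase i) ×ˢ Q).powerset, Cp (Cg H g T1) Q i j R E ^ 2 * ph E := by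
    unfold Dg
    rw [mul_sum]
    refine sum_congr rfl fun E hE => ?_
    rw [union_eq_left.2 (M2.pos_sub (mem_powerset.1 hE)), hc1]
    ring
  rw [e1]
  refine mul_le_mul_of_nonneg_left ?_ (pow_nonneg hV _)
  have hun : H.erase i = (H.erase i).erase j ∪ {j} := by
    ext h
    rw [mem_union, mem_singleton]
    constructor
    · intro h1
      by_cases h2 : h = j
      · exact Or.inr h2
      · exact Or.inl (mem_erase.2 ⟨h2, h1⟩)
    · rintro (h1 | h1)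
      · exact mem_of_mem_erase h1
      · rw [h1]; exact hjH
  have hdis : Disjoint ((H.erase i).erase j) ({j} : Finset ℕ) := by
    rw [Finset.disjoint_singleton_right]
    exact Finset.notMem_erase j _
  have e2 : ∑ E ∈ ((H.erase i) ×ˢ Q).powerset, Cp (Cg H g T1) Q i j R E ^ 2 * ph E =
      ∑ E₁ ∈ (((H.erase i).erase j) ×ˢ Q).powerset, ∑ D ∈ Q.powerset,
        Cp (Cg H g T1) Q i j R (E₁ ∪ D.image (fun p => (j, p))) ^ 2 *
          ph (E₁ ∪ D.image (fun p => (j, p))) := by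
    have h1 := sum_split ((H.erase i).erase j) {j} Q hdis
      (fun E => Cp (Cg H g T1) Q i j R E ^ 2 * ph E)
    rw [← hun] at h1
    rw [h1]
    refine sum_congr rfl fun E₁ _ => ?_
    rw [sum_single j Q (fun E₂ => Cp (Cg H g T1) Q i j R (E₁ ∪ E₂) ^ 2 * ph (E₁ ∪ E₂))]
  rw [e2]
  have e3 : ∀ E₁ ∈ (((H.erase i).erase j) ×ˢ Q).powerset, ∑ D ∈ Q.powerset,
      Cp (Cg H g T1) Q i j R (E₁ ∪ D.image (fun p => (j, p))) ^ 2 *
        ph (E₁ ∪ D.image (fun p => (j, p))) = C2 (Cg H g T1) Q i j E₁ ^ 2 * ph E₁ / Sfi Q R := by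
    intro E₁ hE₁
    have hne := paird_ne (mem_powerset.1 hE₁)
    have h1 : ∀ D ∈ Q.powerset, Cp (Cg H g T1) Q i j R (E₁ ∪ D.image (fun p => (j, p))) ^ 2 *
        ph (E₁ ∪ D.image (fun p => (j, p))) = (C2 (Cg H g T1) Q i j E₁ ^ 2 * ph E₁ / Sfi Q R ^ 2) *
          ((if (pd D : ℝ) ≤ R then (1 : ℝ) else 0) * pf D) := by
      intro D _
      unfold Cp
      rw [paird_filt hne, M2.fib_add_eq hne, paird_ph hne]
      split_ifs
      · field_simp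
      · ring
    rw [sum_congr rfl h1, ← mul_sum]
    rw [show ∑ D ∈ Q.powerset, (if (pd D : ℝ) ≤ R then (1 : ℝ) else 0) * pf D = Sfi Q R from rfl]
    field_simp
  rw [sum_congr rfl e3, ← sum_div]
  refine div_le_div_of_nonneg_right ?_ hS0.le
  calc ∑ E₁ ∈ (((H.erase i).erase j) ×ˢ Q).powerset, C2 (Cg H g T1) Q i j E₁ ^ 2 * ph E₁
      ≤ ∑ E₁ ∈ (((H.erase i).erase j) ×ˢ Q).powerset,
        B ^ 4 * ((∏ h ∈ (H.erase i).erase j, g (pd (fib E₁ h)) ^ 2) * ph E₁) := by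
        refine sum_le_sum fun E₁ hE₁ => ?_
        have h1 := c2_le hQ hg T1 hi hj hij hE₁
        rw [← hB] at h1
        have h2 : C2 (Cg H g T1) Q i j E₁ ^ 2 ≤
            (B ^ 2 * ∏ h ∈ (H.erase i).erase j, g (pd (fib E₁ h))) ^ 2 := by
          rw [← sq_abs (C2 (Cg H g T1) Q i j E₁)]
          exact pow_le_pow_left₀ (abs_nonneg _) h1 2
        have h3 : 0 ≤ ph E₁ := M2.ph_nonneg hQ (mem_powerset.1 hE₁)
        calc C2 (Cg H g T1) Q i j E₁ ^ 2 * ph E₁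
            ≤ (B ^ 2 * ∏ h ∈ (H.erase i).erase j, g (pd (fib E₁ h))) ^ 2 * ph E₁ :=
              mul_le_mul_of_nonneg_right h2 h3
          _ = _ := by
            rw [mul_pow, ← prod_pow]
            ring
    _ = B ^ 4 * A2 ^ (#H - 2) := by
      rw [← mul_sum, idd_full, hc2]

end Pool.Agent.H81.CC
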