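import Pool.Agent.H81.CC.PairD

/-!
JOB CC-PAIRLE. Upper bound for the weighted number of pairs of primes at two positions of the same scale.

PROOF. For `n ∈ S` with `a n ≠ 0` and `n + j` free, `pair_psi` gives `Psi P Q H H (Cg) n = Psi P Q (H.erase i) (H.erase i) (Cp) n`; for
the other `n` the term on the left is `0` and `a n * (..)^2 ≥ 0`. So the left side is at most
`B^4 ∑ a n * Psi P Q (H.erase i) (H.erase i) (Cp/B^2) n ^ 2` (`psi_div`, `B ≥ 1` by `sum_gpf_ge`). Transfer principle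
(`Po' = Hb = H.erase i`, `i ∉ U`) for `Cp/B^2` (`cp_abs`, `cp_supp`), `dg_div`, `cp_dg`.
-/

set_option autoImplicit false

open Finset Filter Topology

namespace Pool.Agent.H81.CC

open Pool.Agent.H16 Pool.Agent.H81.AS

open Classical in
theorem pair_le {P Q H S : Finset ℕ} {κ : ℕ} {g : ℕ → ℝ} {T1 T2 V Ξ ε₁ X R : ℝ}
    (hQ : ∀ q ∈ Q, q.Prime) (hg : ∀ r, 0 ≤ g r) (hg1 : ∀ r, g r ≤ 1) (hg11 : g 1 = 1) (hκ : #H ≤ κ)
    (hT1 : 0 ≤ T1) (hR : 1 ≤ R) (hT2 : T1 * R ≤ T2) (hV : 0 ≤ V) (hX : 0 ≤ X) (hε : 0 ≤ ε₁)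
    {i j : ℕ} (hi : i ∈ H) (hj : j ∈ H) (hij : i ≠ j) {a : ℕ → ℝ} (ha : ∀ n ∈ S, 0 ≤ a n)
    (hap : ∀ n ∈ S, a n ≠ 0 → ∀ p ∈ P ∪ Q, ¬ p ∣ n + i)
    (h : TPH P Q H S κ T2 V Ξ ε₁ a X (fun U => i ∉ U)) :
    ∑ n ∈ S, a n * (if ∀ p ∈ P ∪ Q, ¬ p ∣ n + j then 1 else 0) * Psi P Q H H (Cg H g T1) n ^ 2 ≤
      X * (V ^ (#H - 1) * (∑ D ∈ Q.powerset, g (pd D) * pf D) ^ 4 *
        ((1 + ε₁) * ((∑ D ∈ Q.powerset, g (pd D) ^ 2 * pf D) ^ (#H - 2) / Sfi Q R) + Ξ + ε₁)) := by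
  set B : ℝ := ∑ D ∈ Q.powerset, g (pd D) * pf D with hB
  set A2 : ℝ := ∑ D ∈ Q.powerset, g (pd D) ^ 2 * pf D with hA2
  have hB1 : 1 ≤ B := sum_gpf_ge hQ hg hg11
  have hB0 : 0 < B := by linarith
  have hB2 : 0 < B ^ 2 := by positivity
  have h1 := h (H.erase i) (H.erase i) (Finset.erase_subset _ _) (Finset.erase_subset _ _) (by simp)
    (fun E => Cp (Cg H g T1) Q i j R E / B ^ 2)
    (fun E hE => by
      rw [abs_div, abs_of_pos hB2]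
      exact div_le_one_of_le₀ (cp_abs hQ hg hg1 T1 hi hj hij hR hE) hB2.le)
    (fun E hE hC => by
      have hC' : Cp (Cg H g T1) Q i j R E ≠ 0 := by
        intro h0
        apply hC
        simp [h0]
      obtain ⟨h1, h2⟩ := cp_supp hQ hT1 hi hj hij hR hE hC'
      exact ⟨h1.trans hκ, h2.trans hT2⟩)
  rw [dg_div] at h1
  have h2 := cp_dg hQ hg T1 hi hj hij hR hV (V := V)
  rw [← hB, ← hA2] at h2
  have hcard : #(H.erase i) = #H - 1 := Finset.card_erase_of_mem hi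
  rw [hcard] at h1
  set D' := Dg Q (H.erase i) (H.erase i) V (Cp (Cg H g T1) Q i j R) with hD'
  set Y := ∑ n ∈ S, a n * Psi P Q (H.erase i) (H.erase i)
        (fun E => Cp (Cg H g T1) Q i j R E / B ^ 2) n ^ 2 with hY
  have h3 : ∑ n ∈ S, a n * (if ∀ p ∈ P ∪ Q, ¬ p ∣ n + j then 1 else 0) * Psi P Q H H (Cg H g T1) n ^ 2 ≤
      B ^ 4 * Y := by
    rw [hY, Finset.mul_sum]
    apply Finset.sum_le_sum
    intro n hn
    have hnn : 0 ≤ B ^ 4 * (a n * Psi P Q (H.erase i) (H.erase i)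
        (fun E => Cp (Cg H g T1) Q i j R E / B ^ 2) n ^ 2) :=
      mul_nonneg (by positivity) (mul_nonneg (ha n hn) (sq_nonneg _))
    by_cases h0 : a n = 0
    · simp [h0]
    · split_ifs with hf
      · rw [pair_psi hQ (Cg H g T1) hi hj hij hR (hap n hn h0) hf, psi_div]
        apply le_of_eq
        field_simp
      · rw [mul_zero, zero_mul]
        exact hnn
  have h4 := (abs_le.1 h1).2
  have h5 : Y ≤ X * (D' / (B ^ 2) ^ 2) + X * (V ^ (#H - 1) * (Ξ + ε₁) + ε₁ * (D' / (B ^ 2) ^ 2)) := by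
    linarith
  have hB4 : 0 < B ^ 4 := by positivity
  calc _ ≤ B ^ 4 * Y := h3
    _ ≤ B ^ 4 * (X * (D' / (B ^ 2) ^ 2) +
        X * (V ^ (#H - 1) * (Ξ + ε₁) + ε₁ * (D' / (B ^ 2) ^ 2))) :=
        mul_le_mul_of_nonneg_left h5 hB4.le
    _ = X * ((1 + ε₁) * D' + V ^ (#H - 1) * B ^ 4 * (Ξ + ε₁)) := by
        field_simp
        ring
    _ ≤ X * ((1 + ε₁) * (V ^ (#H - 1) * (B ^ 4 * A2 ^ (#H - 2) / Sfi Q R)) +
        V ^ (#H - 1) * B ^ 4 * (Ξ + ε₁)) := by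
        apply mul_le_mul_of_nonneg_left _ hX
        have := mul_le_mul_of_nonneg_left h2 (by linarith : 0 ≤ 1 + ε₁)
        linarith
    _ = _ := by ring

end Pool.Agent.H81.CC
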