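import Pool.Agent.H81.CC.Key

/-!
JOB CC-POSPROP. A positive proportion of the doubling steps, for any finite set `I` of exponents.

PROOF of `pos_prop`. `δ = min δ₀ 1` with `δ₀` of `key`... (`δ = δ₀` works as well, `δ₀ ≤ 1` automatically). `I = ∅`: all `n`. For
`I ≠ ∅` let `M = I.sup id + 1`, `B` as in `key`, `C = B.sup id`. For each `Y`, summing the inequality of `key` over `i ∈ I` (all
`i < M`): `∑_n w n #{i ∈ I : hit} ≥ δ₀ #I ∑ w`, so some `n ∈ S` has at least `δ₀ #I > 0` hit exponents; for one of them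
`2^i n + h > Y`, `i < M`, `h ≤ C`, hence `n > (Y - C)/2^M`: arbitrarily large `n` (`Set.infinite_of_not_bddAbove` or
`Set.infinite_of_forall_exists_gt`).
-/

set_option autoImplicit false

open Finset Filter Topology

namespace Pool.Agent.H81.CC

theorem pos_prop : ∃ δ : ℝ, 0 < δ ∧ ∀ I : Finset ℕ, ∃ C : ℕ,
    {n : ℕ | δ * #I ≤ (#(I.filter fun i => ∃ p ∈ Icc (2 ^ i * n) (2 ^ i * n + C), p.Prime) : ℝ)}.Infinite := by
  classical
  obtain ⟨δ₀, hδ, hkey⟩ := key
  refine ⟨δ₀, hδ, fun I => ?_⟩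
  rcases I.eq_empty_or_nonempty with hI | hI
  · refine ⟨0, ?_⟩
    have h : {n : ℕ | δ₀ * #I ≤ (#(I.filter fun i => ∃ p ∈ Icc (2 ^ i * n) (2 ^ i * n + 0),
        p.Prime) : ℝ)} = Set.univ := by
      ext n
      simp [hI]
    rw [h]
    exact Set.infinite_univ
  · obtain ⟨M, hM⟩ : ∃ M, M = I.sup id + 1 := ⟨_, rfl⟩
    obtain ⟨B, hB⟩ := hkey M (by omega)
    obtain ⟨C, hC⟩ : ∃ C, C = B.sup id := ⟨_, rfl⟩
    refine ⟨C, Set.infinite_of_forall_exists_gt fun a => ?_⟩
    obtain ⟨Y, hY⟩ : ∃ Y, Y = 2 ^ M * a + C := ⟨_, rfl⟩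
    obtain ⟨S, w, hw0, hwpos, hw⟩ := hB Y
    obtain ⟨hit, hhit⟩ : ∃ hit : ℕ → ℕ → Prop, hit = fun i n =>
      ∃ h ∈ B, (2 ^ i * n + h).Prime ∧ Y < 2 ^ i * n + h := ⟨_, rfl⟩
    have hIM : ∀ i ∈ I, i < M := by
      intro i hi
      have : i ≤ I.sup id := Finset.le_sup (f := id) hi
      omega
    have hsum : (#I : ℝ) * (δ₀ * ∑ n ∈ S, w n) ≤
        ∑ n ∈ S, w n * (#(I.filter fun i => hit i n) : ℝ) := by
      calc (#I : ℝ) * (δ₀ * ∑ n ∈ S, w n) = ∑ i ∈ I, δ₀ * ∑ n ∈ S, w n := by
            rw [Finset.sum_const, nsmul_eq_mul]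
        _ ≤ ∑ i ∈ I, ∑ n ∈ S.filter (fun n => hit i n), w n := by
            apply Finset.sum_le_sum
            intro i hi
            have h1 := hw i (hIM i hi)
            refine h1.trans (le_of_eq ?_)
            apply Finset.sum_congr _ (fun _ _ => rfl)
            ext n
            rw [Finset.mem_filter, Finset.mem_filter, hhit]
        _ = ∑ n ∈ S, w n * (#(I.filter fun i => hit i n) : ℝ) := by
            simp only [Finset.sum_filter]
            rw [Finset.sum_comm]
            apply Finset.sum_congr rfl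
            intro n _
            rw [← Finset.sum_filter, Finset.sum_const, nsmul_eq_mul]
            ring
    have hex : ∃ n ∈ S, δ₀ * #I ≤ (#(I.filter fun i => hit i n) : ℝ) := by
      by_contra hne
      push Not at hne
      have hpos : ∃ n ∈ S, 0 < w n := by
        by_contra hn
        push Not at hn
        have := Finset.sum_nonpos hn
        linarith
      have hlt : ∑ n ∈ S, w n * (#(I.filter fun i => hit i n) : ℝ) <
          ∑ n ∈ S, w n * (δ₀ * #I) := by
        apply Finset.sum_lt_sum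
        · intro n hn
          exact mul_le_mul_of_nonneg_left (hne n hn).le (hw0 n hn)
        · obtain ⟨n, hn, hn0⟩ := hpos
          exact ⟨n, hn, mul_lt_mul_of_pos_left (hne n hn) hn0⟩
      rw [← Finset.sum_mul] at hlt
      have : (#I : ℝ) * (δ₀ * ∑ n ∈ S, w n) = (∑ n ∈ S, w n) * (δ₀ * #I) := by ring
      linarith
    obtain ⟨n, hn, hcnt⟩ := hex
    refine ⟨n, ?_, ?_⟩
    · show δ₀ * #I ≤ _
      refine hcnt.trans ?_
      rw [Nat.cast_le]
      apply Finset.card_le_card
      intro i hi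
      rw [Finset.mem_filter] at hi ⊢
      refine ⟨hi.1, ?_⟩
      have h2 := hi.2
      rw [hhit] at h2
      obtain ⟨h, hhB, hp, -⟩ := h2
      have hhC : h ≤ C := by
        rw [hC]
        exact Finset.le_sup (f := id) hhB
      exact ⟨2 ^ i * n + h, Finset.mem_Icc.2 ⟨by omega, by omega⟩, hp⟩
    · have hcard : 0 < #(I.filter fun i => hit i n) := by
        have h1 : (0 : ℝ) < #I := by exact_mod_cast Finset.card_pos.2 hI
        have h2 : (0 : ℝ) < (#(I.filter fun i => hit i n) : ℝ) :=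
          lt_of_lt_of_le (by positivity) hcnt
        exact_mod_cast h2
      obtain ⟨i, hi⟩ := Finset.card_pos.1 hcard
      rw [Finset.mem_filter] at hi
      have h2 := hi.2
      rw [hhit] at h2
      obtain ⟨h, hhB, -, hYlt⟩ := h2
      have hhC : h ≤ C := by
        rw [hC]
        exact Finset.le_sup (f := id) hhB
      have h2M : 2 ^ i * n ≤ 2 ^ M * n :=
        Nat.mul_le_mul_right n (Nat.pow_le_pow_right (by norm_num) (hIM i hi.1).le)
      have h3 : 2 ^ M * a < 2 ^ M * n := by omega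
      exact lt_of_mul_lt_mul_left h3 (Nat.zero_le _)

end Pool.Agent.H81.CC
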