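import Pool.Agent.H81.CC.Defs
import Pool.Agent.H81.AS.Inner

/-!
JOB CC-S2U. The three sums at one scale without pairs: consequences of `s1_le`, `s2_ge` of AS/KPCore.lean with no outer positions,
and an upper bound for the sum at one position.

PROOF. `Cg H g T1 = Cf H g 0 T1 1`. `do_one`: `DO Q ∅ 0 V 0 1 = 1` (only `E = ∅`: `nn ∅ = 1`). `cg_s1`: `s1_le` with `Po = H0 = H`,
`α = 0`, `T = 1`, `ρ = 2`, `κ₁ = 0` (the condition on `α r ≠ 0` is void), then `di_upper` and `do_one`; `H \ H = ∅`.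
`cg_s2`: `s2_ge` in the same way (`T1l ≤ T1l`), `DI Q (H.erase i) g T1l ≥ max 1 (A2^(#H-1)/2)` (`one_le_di`, `di_lower`).
`cg_s2u`: repeat the proof of `s2_ge` with the upper half of the transfer principle: `Psi H H = Psi (erase) (erase) (Cr)` on the
support of `a` (`psi_erase`), normalise by `B` (`cr_abs_in`, `psi_div`, `dg_div`), and
`Dg Q (H.erase i) (H.erase i) V (Cr (Cg H g T1) Q i) ≤ V^(#H-1) B^2 A2^(#H-1)`: here `#(H.erase i ∪ pos E) = #H - 1` for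
`E ⊆ (H.erase i) ×ˢ Q`, and `|Cr E| ≤ B ∏_{h ∈ H.erase i} g (pd (fib E h))` (`m3_cr` with `E₂ = ∅`: the inner sum over `D` is at most
`B`), then `idd_full`.
-/

set_option autoImplicit false

open Finset Filter Topology

namespace Pool.Agent.H81.CC

open Pool.Agent.H16 Pool.Agent.H81.AS

theorem do_one (Q : Finset ℕ) (V : ℝ) : DO Q ∅ (fun _ => 0) V 0 1 = 1 := by
  unfold DO
  have h : ((∅ : Finset ℕ) ×ˢ Q).powerset.filter
      (fun E => (0 : ℝ) < (nn E : ℝ) ∧ (nn E : ℝ) ≤ 1) = {∅} := by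
    ext E
    rw [Finset.mem_filter, Finset.mem_powerset, Finset.mem_singleton, Finset.empty_product]
    constructor
    · rintro ⟨h1, _⟩
      exact Finset.subset_empty.1 h1
    · rintro rfl
      refine ⟨subset_rfl, ?_⟩
      simp [nn]
  rw [h, Finset.sum_singleton]
  simp [pos, ph]

/-- bound for the restricted coefficient -/
theorem cr_cg_le {Q H : Finset ℕ} (hQ : ∀ q ∈ Q, q.Prime) {g : ℕ → ℝ} (hg : ∀ r, 0 ≤ g r) (T1 : ℝ) {i : ℕ}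
    (hi : i ∈ H) {E : Finset (ℕ × ℕ)} (hE : E ∈ ((H.erase i) ×ˢ Q).powerset) :
    |Cr (Cg H g T1) Q i E| ≤
      (∑ D ∈ Q.powerset, g (pd D) * pf D) * ∏ h ∈ H.erase i, g (pd (fib E h)) := by
  have hE' : ∀ x ∈ E, x.1 ≠ i := by
    intro x hx
    have := Finset.mem_powerset.1 hE hx
    exact (Finset.mem_erase.1 (Finset.mem_product.1 this).1).1
  unfold Cr
  rw [Finset.sum_mul]
  refine (Finset.abs_sum_le_sum_abs _ _).trans (Finset.sum_le_sum fun D hD => ?_)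
  have hpf : 0 ≤ pf D := pf_nonneg_of_prime hQ hD
  rw [abs_mul, abs_of_nonneg hpf]
  have h1 : |Cg H g T1 (E ∪ D.image (fun p => (i, p)))| ≤
      ∏ h ∈ H, g (pd (fib (E ∪ D.image (fun p => (i, p))) h)) := by
    unfold Cg Cf
    have hp : 0 ≤ ∏ h ∈ H, g (pd (fib (E ∪ D.image (fun p => (i, p))) h)) :=
      Finset.prod_nonneg fun _ _ => hg _
    rw [abs_mul, abs_mul, abs_of_nonneg hp, mul_assoc]
    refine mul_le_of_le_one_right hp ?_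
    refine mul_le_one₀ ?_ (abs_nonneg _) ?_
    · rw [Finset.abs_prod]
      refine Finset.prod_le_one (fun _ _ => abs_nonneg _) fun _ _ => ?_
      simp
    · rw [abs_mul]
      refine mul_le_one₀ ?_ (abs_nonneg _) ?_ <;> (split_ifs <;> simp)
  rw [← Finset.mul_prod_erase H _ hi] at h1
  rw [M2.fib_add_eq hE'] at h1
  have h2 : ∏ h ∈ H.erase i, g (pd (fib (E ∪ D.image (fun p => (i, p))) h)) =
      ∏ h ∈ H.erase i, g (pd (fib E h)) := by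
    refine Finset.prod_congr rfl fun h hh => ?_
    rw [M2.fib_add_ne (Finset.mem_erase.1 hh).1]
  rw [h2] at h1
  calc _ ≤ (g (pd D) * ∏ h ∈ H.erase i, g (pd (fib E h))) * pf D := mul_le_mul_of_nonneg_right h1 hpf
    _ = _ := by ring

section
variable {P Q H S : Finset ℕ} {κ : ℕ} {g : ℕ → ℝ} {T1 T2 V Ξ ε₁ X : ℝ}

theorem cg_s1 (hQ : ∀ q ∈ Q, q.Prime) (hg : ∀ r, 0 ≤ g r) (hg1 : ∀ r, g r ≤ 1) (hκ : #H ≤ κ)
    (hT2 : T1 ≤ T2) (hV : 0 ≤ V) (hX : 0 ≤ X) (hε : 0 ≤ ε₁)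
    (h : TPH P Q H S κ T2 V Ξ ε₁ (fun _ => 1) X (fun _ => True)) :
    ∑ n ∈ S, Psi P Q H H (Cg H g T1) n ^ 2 ≤
      X * (V ^ #H * ((1 + ε₁) * (∑ D ∈ Q.powerset, g (pd D) ^ 2 * pf D) ^ #H + Ξ + ε₁)) := by
  have h1 := s1_le (P := P) (Q := Q) (Po := H) (H0 := H) (S := S) (κ := κ) (κ₁ := 0) (g := g)
    (α := fun _ => 0) (T1 := T1) (T := 1) (T2 := T2) (V := V) (Ξ := Ξ) (ε₁ := ε₁) (X := X) (ρ := 2)
    hQ subset_rfl hg hg1 (fun _ => le_rfl) (fun _ => zero_le_one) (by norm_num)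
    (fun _ h0 => absurd rfl h0) (by norm_num) (by simpa using hκ) (by simpa using hT2) h
  rw [Finset.sdiff_self, do_one, mul_one] at h1
  refine h1.trans ?_
  have h2 := di_upper (H := H) hQ hg T1
  have h3 : (1 + ε₁) * DI Q H g T1 ≤ (1 + ε₁) * (∑ D ∈ Q.powerset, g (pd D) ^ 2 * pf D) ^ #H :=
    mul_le_mul_of_nonneg_left h2 (by linarith)
  refine mul_le_mul_of_nonneg_left (mul_le_mul_of_nonneg_left (by linarith) (pow_nonneg hV _)) hX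

theorem cg_s2 (hQ : ∀ q ∈ Q, q.Prime) (hg : ∀ r, 0 ≤ g r) (hg1 : ∀ r, g r ≤ 1) (hg11 : g 1 = 1)
    (hκ : #H ≤ κ) (hT2 : T1 ≤ T2) {T1l Tg : ℝ} (hV : 0 ≤ V) (hTg : ∀ r, g r ≠ 0 → (r : ℝ) ≤ Tg)
    (hT1 : T1l * Tg ≤ T1) (hT1l : 1 < T1l) (hε1 : ε₁ ≤ 1) (hX : 0 ≤ X)
    (hmean : 2 * ((#H : ℝ) - 1) * ∑ D ∈ Q.powerset, g (pd D) ^ 2 * pf D * Real.log (pd D) ≤
      (∑ D ∈ Q.powerset, g (pd D) ^ 2 * pf D) * Real.log T1l)
    {i : ℕ} (hi : i ∈ H) {a : ℕ → ℝ} (hap : ∀ n ∈ S, a n ≠ 0 → ∀ p ∈ P ∪ Q, ¬ p ∣ n + i)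
    (h : TPH P Q H S κ T2 V Ξ ε₁ a X (fun U => i ∉ U)) :
    X * (V ^ (#H - 1) * (∑ D ∈ Q.powerset, g (pd D) * pf D) ^ 2 *
      ((1 - ε₁) * max 1 ((∑ D ∈ Q.powerset, g (pd D) ^ 2 * pf D) ^ (#H - 1) / 2) - Ξ - ε₁)) ≤
      ∑ n ∈ S, a n * Psi P Q H H (Cg H g T1) n ^ 2 := by
  have h1 := s2_ge (P := P) (Q := Q) (Po := H) (H0 := H) (S := S) (κ := κ) (κ₁ := 0) (g := g)
    (α := fun _ => 0) (T1 := T1) (T := 1) (T2 := T2) (V := V) (Ξ := Ξ) (ε₁ := ε₁) (X := X) (ρ := 2)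
    hQ subset_rfl hg hg1 hg11 (fun _ => le_rfl) (fun _ => zero_le_one) (by norm_num)
    (fun _ h0 => absurd rfl h0) (by norm_num) (by simpa using hκ) (by simpa using hT2) hV hTg hT1
    (by linarith) hε1 hX hi hap h
  rw [Finset.sdiff_self, do_one, mul_one] at h1
  refine le_trans ?_ h1
  have hH1 : 1 ≤ #H := Finset.card_pos.2 ⟨i, hi⟩
  have hce : #(H.erase i) = #H - 1 := Finset.card_erase_of_mem hi
  have hce' : (#(H.erase i) : ℝ) = (#H : ℝ) - 1 := by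
    rw [hce]
    push_cast [Nat.cast_sub hH1]
    ring
  have h2 : max 1 ((∑ D ∈ Q.powerset, g (pd D) ^ 2 * pf D) ^ (#H - 1) / 2) ≤ DI Q (H.erase i) g T1l := by
    refine max_le (one_le_di hQ hg11 hT1l.le) ?_
    rw [← hce]
    exact di_lower hQ hg hT1l (by rw [hce']; exact hmean)
  have h3 : (1 - ε₁) * max 1 ((∑ D ∈ Q.powerset, g (pd D) ^ 2 * pf D) ^ (#H - 1) / 2) ≤
      (1 - ε₁) * DI Q (H.erase i) g T1l := mul_le_mul_of_nonneg_left h2 (by linarith)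
  refine mul_le_mul_of_nonneg_left (mul_le_mul_of_nonneg_left (by linarith) ?_) hX
  positivity

theorem cg_s2u (hQ : ∀ q ∈ Q, q.Prime) (hg : ∀ r, 0 ≤ g r) (hg1 : ∀ r, g r ≤ 1) (hg11 : g 1 = 1)
    (hκ : #H ≤ κ) (hT2 : T1 ≤ T2) (hV : 0 ≤ V) (hX : 0 ≤ X) (hε : 0 ≤ ε₁)
    {i : ℕ} (hi : i ∈ H) {a : ℕ → ℝ} (hap : ∀ n ∈ S, a n ≠ 0 → ∀ p ∈ P ∪ Q, ¬ p ∣ n + i)
    (h : TPH P Q H S κ T2 V Ξ ε₁ a X (fun U => i ∉ U)) :
    ∑ n ∈ S, a n * Psi P Q H H (Cg H g T1) n ^ 2 ≤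
      X * (V ^ (#H - 1) * (∑ D ∈ Q.powerset, g (pd D) * pf D) ^ 2 *
        ((1 + ε₁) * (∑ D ∈ Q.powerset, g (pd D) ^ 2 * pf D) ^ (#H - 1) + Ξ + ε₁)) := by
  obtain ⟨B, hB⟩ : ∃ B, B = ∑ D ∈ Q.powerset, g (pd D) * pf D := ⟨_, rfl⟩
  have hB1 : 1 ≤ B := hB ▸ sum_gpf_ge hQ hg hg11
  have hB0 : 0 < B := by linarith
  have hcr : ∀ E ∈ ((H.erase i) ×ˢ Q).powerset, |Cr (Cg H g T1) Q i E / B| ≤
      ∏ h ∈ H.erase i, g (pd (fib E h)) := by
    intro E hE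
    rw [abs_div, abs_of_pos hB0, div_le_iff₀ hB0, mul_comm, hB]
    exact cr_cg_le hQ hg T1 hi hE
  have hprod1 : ∀ E : Finset (ℕ × ℕ), ∏ h ∈ H.erase i, g (pd (fib E h)) ≤ 1 := fun E =>
    Finset.prod_le_one (fun _ _ => hg _) fun _ _ => hg1 _
  have h1 := h (H.erase i) (H.erase i) (Finset.erase_subset _ _) (Finset.erase_subset _ _) (by simp)
    (fun E => Cr (Cg H g T1) Q i E / B) (fun E hE => (hcr E hE).trans (hprod1 E))
    (fun E hE hC => by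
      have hC' : Cr (Cf H g (fun _ => 0) T1 1) Q i E ≠ 0 := by
        intro h0
        apply hC
        show Cr (Cf H g (fun _ => 0) T1 1) Q i E / B = 0
        simp [h0]
      obtain ⟨_, h1, h2⟩ := cr_supp (Q := Q) (Po := H) (H0 := H) (g := g) (α := fun _ => 0)
        (T1 := T1) (T := 1) (ρ := 2) (κ₁ := 0) hQ subset_rfl (by norm_num)
        (fun _ h0 => absurd rfl h0) (by norm_num) hi hE hC'
      exact ⟨h1.trans (by simpa using hκ), h2.trans (by simpa using hT2)⟩)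
  have h3 : ∑ n ∈ S, a n * Psi P Q H H (Cg H g T1) n ^ 2 =
      B ^ 2 * ∑ n ∈ S, a n * Psi P Q (H.erase i) (H.erase i)
        (fun E => Cr (Cg H g T1) Q i E / B) n ^ 2 := by
    rw [Finset.mul_sum]
    apply Finset.sum_congr rfl
    intro n hn
    by_cases h0 : a n = 0
    · simp [h0]
    · rw [psi_erase (Cg H g T1) hi (hap n hn h0), psi_div]
      field_simp
  have hcard : #(H.erase i) = #H - 1 := Finset.card_erase_of_mem hi
  have hD : Dg Q (H.erase i) (H.erase i) V (fun E => Cr (Cg H g T1) Q i E / B) ≤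
      V ^ (#H - 1) * (∑ D ∈ Q.powerset, g (pd D) ^ 2 * pf D) ^ (#H - 1) := by
    rw [← hcard, ← idd_full (H.erase i) Q g, Finset.mul_sum]
    unfold Dg
    refine Finset.sum_le_sum fun E hE => ?_
    have hpos : H.erase i ∪ pos E = H.erase i := by
      rw [Finset.union_eq_left]
      intro x hx
      obtain ⟨y, hy, rfl⟩ := Finset.mem_image.1 hx
      exact (Finset.mem_product.1 (Finset.mem_powerset.1 hE hy)).1
    rw [hpos]
    have hph : 0 ≤ ph E := idd_ph_nonneg hQ hE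
    have hsq : (Cr (Cg H g T1) Q i E / B) ^ 2 ≤ ∏ h ∈ H.erase i, g (pd (fib E h)) ^ 2 := by
      rw [Finset.prod_pow, ← sq_abs]
      exact pow_le_pow_left₀ (abs_nonneg _) (hcr E hE) 2
    calc (Cr (Cg H g T1) Q i E / B) ^ 2 * (V ^ #(H.erase i) * ph E)
        ≤ (∏ h ∈ H.erase i, g (pd (fib E h)) ^ 2) * (V ^ #(H.erase i) * ph E) :=
          mul_le_mul_of_nonneg_right hsq (mul_nonneg (pow_nonneg hV _) hph)
      _ = V ^ #(H.erase i) * ((∏ h ∈ H.erase i, g (pd (fib E h)) ^ 2) * ph E) := by ring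
  rw [h3]
  rw [hcard] at h1
  have h4 := (abs_le.1 h1).2
  have hB2 : 0 ≤ B ^ 2 := by positivity
  rw [← hB]
  have h5 : ∑ n ∈ S, a n * Psi P Q (H.erase i) (H.erase i) (fun E => Cr (Cg H g T1) Q i E / B) n ^ 2 ≤
      X * (V ^ (#H - 1) * ((1 + ε₁) * (∑ D ∈ Q.powerset, g (pd D) ^ 2 * pf D) ^ (#H - 1) + Ξ + ε₁)) := by
    have h6 := mul_le_mul_of_nonneg_left (mul_le_mul_of_nonneg_left hD (by linarith : 0 ≤ 1 + ε₁)) hX
    nlinarith [h4, h6]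
  calc _ ≤ B ^ 2 * (X * (V ^ (#H - 1) *
      ((1 + ε₁) * (∑ D ∈ Q.powerset, g (pd D) ^ 2 * pf D) ^ (#H - 1) + Ξ + ε₁))) :=
        mul_le_mul_of_nonneg_left h5 hB2
    _ = _ := by ring

end

end Pool.Agent.H81.CC
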