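import Pool.Agent.H81.CC.DistI
import Pool.Agent.H81.CC.Env
import Pool.Agent.H81.CC.Vs
import Pool.Agent.H81.AS.TPI

/-!
JOB CC-TI. The transfer principle for the integers `N ∈ SM`.

PROOF. As `tpi` (AS/TPI.lean): `tp_core` with `P = PP`, `Q = QQ`, `Z = ∅`, `Po = Po'`, `a = 1`, `X = X0 M ℓ e`, `Mf = 2`,
`T = exp (τℓ)`, `Lv = z^(4s+5) T^2`, `V = V1`, `B = 2 * 4^#H`; `dist_intM`, `rem_int`, `vs_fix` (`hVs`), `hh_le`, `vv_comp #H` with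
`lam = 1` (`hVV`; note `#(Hb ∪ pos E) ≤ #H`), `small_exp` and `QQ_sq` (`hη`), `hprod`. `hR`: `X0 ≥ exp (9ℓ/10)` (`ev_WM`, `ε = 1/10`),
`V1^#Hb ≥ (c/(δℓ))^#H` (`V1_bounds`, `V1 ≤ 1`), `poly_exp`; as in `tpi`.
-/

set_option autoImplicit false

open Finset Filter Topology

namespace Pool.Agent.H81.CC

open Pool.Agent.H16 Pool.Agent.H81.AS

theorem tph_int {K s κ : ℕ} (hK : 1 ≤ K) (hκ : 2 * κ ≤ K) (hFL : FLP (2 * K) s) {δ υ τ r : ℝ}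
    (hδ : 0 < δ) (hυ : δ ≤ υ) (hτ : 0 < τ) (hlev : 4 * τ + δ * (8 * (s : ℝ) + 10) < 1 / 2) (hr : 1 ≤ r)
    (hprod : ∀ᶠ ℓ : ℝ in atTop, ∀ e : ℕ, ∏ p ∈ QQ δ υ ℓ e, (1 + 1 / ((p : ℝ) - 1)) ≤ r)
    {ε₁ : ℝ} (hε : 0 < ε₁) (M : ℕ) (H : Finset ℕ) (hH : ∀ x ∈ H, 1 ≤ x) :
    ∀ᶠ ℓ : ℝ in atTop, ∀ e b : ℕ,
      TPH (PP δ ℓ e) (QQ δ υ ℓ e) H (SM M ℓ e b) κ (Real.exp (τ * ℓ)) (V1 δ ℓ e) (XiC K s #H r) ε₁
        (fun _ => 1) (X0 M ℓ e) (fun _ => True) := by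
  obtain ⟨c, hc, hV1⟩ := V1_bounds
  have hK0 : (0 : ℝ) ≤ (K : ℝ) := Nat.cast_nonneg _
  have hB : (0 : ℝ) ≤ 2 * 4 ^ #H := by positivity
  have hr0 : (0 : ℝ) < r := by linarith
  obtain ⟨ε', hε', hexp⟩ := small_exp (B' := 2 * 4 ^ #H * r ^ K) (A := 4 ^ K * ((K : ℝ) + 2)) (ε₁ := ε₁)
    (by positivity) (by positivity) hε
  have hpoly := poly_exp ((2 ^ #H) ^ 2 * (1 + 2 * δ) * (δ ^ #H / c ^ #H) * (2 / ε₁)) (#H + 1)
    (a := 2 / 5) (by norm_num)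
  filter_upwards [ev_wz (4 * (K : ℝ)), ev_zz hδ (12 * (K : ℝ) + 2),
    ev_WM M (ε := 1 / 10) (by norm_num), hV1 δ hδ, QQ_sq hδ hε' υ,
    vv_comp #H (lam := 1) zero_lt_one hδ hε,
    vs_fix κ hδ H hH, hprod, rem_int (K := K) (s := s) (υ := υ) hδ hτ hlev,
    eventually_ge_atTop 1, hpoly] with ℓ h1 h2 h4 h5 h6 h7 h8 h10 h11 hℓ hp
  intro e b Po' Hb hPo' hHb _ C hC hC2
  have hℓ0 : 0 < ℓ := by linarith
  have hlogz : Real.log (zz δ ℓ) ≤ (zz δ ℓ : ℝ) := by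
    have := Real.log_le_sub_one_of_pos (x := (zz δ ℓ : ℝ)) (by
      by_contra hneg
      have h0 : (zz δ ℓ : ℝ) = 0 := le_antisymm (not_lt.mp hneg) (Nat.cast_nonneg _)
      have h00 := h2.2.1
      rw [h0, Real.log_zero] at h00
      linarith)
    linarith
  have hzK : 12 * K + 2 ≤ zz δ ℓ := by
    have : (12 * (K : ℝ) + 2) ≤ (zz δ ℓ : ℝ) := h2.2.1.trans hlogz
    exact_mod_cast this
  have hw2 : 2 ≤ wz ℓ := by
    by_contra hlt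
    have h3 : wz ℓ ≤ 1 := by omega
    have h9 := h1.1
    interval_cases hwz : wz ℓ
    · simp at h9; linarith
    · simp at h9; linarith
  have hW0 : (0 : ℝ) < ((2 ^ (M - 1) * WW ℓ e : ℕ) : ℝ) := by
    exact_mod_cast Nat.mul_pos (Nat.pos_of_ne_zero (by positivity)) (WW_pos ℓ e)
  have hV0 := V1_pos δ ℓ e
  have hVle := V1_le_one δ ℓ e
  have hcl : 0 < c / (δ * ℓ) := by positivity
  have hXge : Real.exp (9 / 10 * ℓ) ≤ X0 M ℓ e := by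
    unfold X0
    rw [le_div_iff₀ hW0]
    calc Real.exp (9 / 10 * ℓ) * ((2 ^ (M - 1) * WW ℓ e : ℕ) : ℝ) ≤
          Real.exp (9 / 10 * ℓ) * Real.exp (1 / 10 * ℓ) :=
          mul_le_mul_of_nonneg_left (h4 e).1 (Real.exp_pos _).le
      _ = Real.exp ℓ := by rw [← Real.exp_add]; congr 1; ring
  have hX0 : 0 ≤ X0 M ℓ e := (Real.exp_pos _).le.trans hXge
  have hlogz0 : 0 ≤ Real.log (zz δ ℓ) := by
    have := h2.2.2.1
    have h0 : 0 < δ * ℓ / 2 := by positivity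
    linarith
  have hRb := h11 e
  have hremcond : ((2 : ℝ) ^ #H) ^ 2 * ((1 + 2 * Real.log (zz δ ℓ)) * Real.exp (ℓ / 2)) ≤
      X0 M ℓ e * (V1 δ ℓ e ^ #H * (ε₁ / 2)) := by
    have ha : (1 + 2 * Real.log (zz δ ℓ)) ≤ (1 + 2 * δ) * ℓ := by
      have := h2.2.2.2.1
      nlinarith
    have hb : (c / (δ * ℓ)) ^ #H ≤ V1 δ ℓ e ^ #H := pow_le_pow_left₀ hcl.le (h5 e).2.2 #H
    have hcc : ((2 : ℝ) ^ #H) ^ 2 * ((1 + 2 * δ) * ℓ * Real.exp (ℓ / 2)) ≤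
        Real.exp (9 / 10 * ℓ) * ((c / (δ * ℓ)) ^ #H * (ε₁ / 2)) := by
      have hsplit : Real.exp (9 / 10 * ℓ) = Real.exp (2 / 5 * ℓ) * Real.exp (ℓ / 2) := by
        rw [← Real.exp_add]; congr 1; ring
      have hlk : (0 : ℝ) < ℓ ^ #H := by positivity
      have hck : (0 : ℝ) < c ^ #H := by positivity
      have hdk : (0 : ℝ) < δ ^ #H := by positivity
      have heq : ((2 : ℝ) ^ #H) ^ 2 * ((1 + 2 * δ) * ℓ * Real.exp (ℓ / 2)) =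
          ((2 ^ #H) ^ 2 * (1 + 2 * δ) * (δ ^ #H / c ^ #H) * (2 / ε₁) * ℓ ^ (#H + 1)) *
            (Real.exp (ℓ / 2) * ((c / (δ * ℓ)) ^ #H * (ε₁ / 2))) := by
        rw [div_pow, mul_pow δ ℓ, pow_succ ℓ]
        field_simp
      rw [heq, hsplit]
      calc ((2 ^ #H) ^ 2 * (1 + 2 * δ) * (δ ^ #H / c ^ #H) * (2 / ε₁) * ℓ ^ (#H + 1)) *
            (Real.exp (ℓ / 2) * ((c / (δ * ℓ)) ^ #H * (ε₁ / 2)))
          ≤ Real.exp (2 / 5 * ℓ) * (Real.exp (ℓ / 2) * ((c / (δ * ℓ)) ^ #H * (ε₁ / 2))) := by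
            apply mul_le_mul_of_nonneg_right hp; positivity
        _ = Real.exp (2 / 5 * ℓ) * Real.exp (ℓ / 2) * ((c / (δ * ℓ)) ^ #H * (ε₁ / 2)) := by ring
    calc ((2 : ℝ) ^ #H) ^ 2 * ((1 + 2 * Real.log (zz δ ℓ)) * Real.exp (ℓ / 2))
        ≤ ((2 : ℝ) ^ #H) ^ 2 * ((1 + 2 * δ) * ℓ * Real.exp (ℓ / 2)) := by
          apply mul_le_mul_of_nonneg_left _ (by positivity)
          exact mul_le_mul_of_nonneg_right ha (Real.exp_pos _).le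
      _ ≤ Real.exp (9 / 10 * ℓ) * ((c / (δ * ℓ)) ^ #H * (ε₁ / 2)) := hcc
      _ ≤ X0 M ℓ e * (V1 δ ℓ e ^ #H * (ε₁ / 2)) := by
          apply mul_le_mul hXge _ (by positivity) hX0
          exact mul_le_mul_of_nonneg_right hb (by linarith)
  have hposH : ∀ E ∈ (Po' ×ˢ QQ δ υ ℓ e).powerset, Hb ∪ pos E ⊆ H := by
    intro E hE
    apply Finset.union_subset hHb
    intro x hx
    obtain ⟨y, hy, rfl⟩ := Finset.mem_image.mp hx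
    have hy2 := (Finset.mem_product.mp ((Finset.mem_powerset.mp hE) hy)).1
    exact hPo' hy2
  have hcore := tp_core (K := K) (s := s) (κ := κ) hK hκ hFL (w := wz ℓ) (z := zz δ ℓ) h1.1 h1.2 h2.1 hzK
    (P := PP δ ℓ e) (Q := QQ δ υ ℓ e) (Z := ∅) (Po := Po') (Hb := Hb) (S := SM M ℓ e b)
    (Finset.erase_subset _ _) (fun q hq => ?_) (by simp) (by simp)
    (fun h hh => h8.2.1 h (hPo' hh)) (fun h hh => h8.2.1 h (hHb hh)) (by simp)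
    (a := fun _ => 1) (X := X0 M ℓ e)
    (Lv := (zz δ ℓ : ℝ) ^ (4 * s + 5) * Real.exp (τ * ℓ) ^ 2) (M := fun _ => 2)
    (dist_intM M hw2 h2.1 (zz_mono hυ hℓ0.le) b _) C (Real.exp_pos _).le hC hC2 le_rfl
    (V := V1 δ ℓ e) (B := 2 * 4 ^ #H) (r := r) (ε₁ := ε₁) hV0.le hB
    (h8.2.2 e Po' Hb ∅ hPo' hHb (Finset.empty_subset _) (by simp) (by simp))
    (fun E hE hCE => ?_) (h10 e) ?_ ?_
  · unfold XiC
    exact hcore
  · have hq' := mem_primesIoc.mp (Finset.mem_of_mem_erase hq)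
    exact ⟨hq'.2.2, hq'.1⟩
  · exact h7 e ∅ (Hb ∪ pos E) (Finset.empty_subset _) ((hposH E hE).trans h8.1) (by simp) (by simp)
      (Finset.card_le_card (hposH E hE))
  · have := hexp _ (h6 e)
    calc 2 * 4 ^ #H *
          (r ^ K * (Real.exp (4 ^ K * ((K : ℝ) + 2) * ∑ p ∈ QQ δ υ ℓ e, 1 / ((p : ℝ) - 1) ^ 2) - 1))
        = 2 * 4 ^ #H * r ^ K *
          (Real.exp (4 ^ K * ((K : ℝ) + 2) * ∑ p ∈ QQ δ υ ℓ e, 1 / ((p : ℝ) - 1) ^ 2) - 1) := by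
          ring
      _ ≤ ε₁ / 2 := this
  · have hR0 : (0 : ℝ) ≤ (1 + 2 * Real.log (zz δ ℓ)) *
        ∑ Q' ∈ (QQ δ υ ℓ e).powerset.filter
          (fun Q' => ((∏ p ∈ Q', p : ℕ) : ℝ) ≤ Real.exp (τ * ℓ) ^ 2), (24 * (K : ℝ)) ^ #Q' *
            ∑ D ∈ (PP δ ℓ e).powerset.filter (fun D => (∏ p ∈ D, p) ≤ zz δ ℓ ^ (4 * s + 5)),
              (K : ℝ) ^ #D * 2 := by
      apply mul_nonneg (by linarith)
      apply Finset.sum_nonneg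
      intro Q' _
      apply mul_nonneg (by positivity)
      exact Finset.sum_nonneg (fun D _ => by positivity)
    have hHn : (#(HH Po' Hb κ) : ℝ) ≤ 2 ^ #H := hh_le κ H hPo'
    have hVb : V1 δ ℓ e ^ #H ≤ V1 δ ℓ e ^ #Hb :=
      pow_le_pow_of_le_one hV0.le hVle (Finset.card_le_card hHb)
    calc _ ≤ ((2 : ℝ) ^ #H) ^ 2 * ((1 + 2 * Real.log (zz δ ℓ)) *
        ∑ Q' ∈ (QQ δ υ ℓ e).powerset.filter
          (fun Q' => ((∏ p ∈ Q', p : ℕ) : ℝ) ≤ Real.exp (τ * ℓ) ^ 2), (24 * (K : ℝ)) ^ #Q' *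
            ∑ D ∈ (PP δ ℓ e).powerset.filter (fun D => (∏ p ∈ D, p) ≤ zz δ ℓ ^ (4 * s + 5)),
              (K : ℝ) ^ #D * 2) :=
          mul_le_mul_of_nonneg_right (pow_le_pow_left₀ (Nat.cast_nonneg _) hHn 2) hR0
      _ ≤ ((2 : ℝ) ^ #H) ^ 2 * ((1 + 2 * Real.log (zz δ ℓ)) * Real.exp (ℓ / 2)) := by
          apply mul_le_mul_of_nonneg_left _ (by positivity)
          exact mul_le_mul_of_nonneg_left hRb (by linarith)
      _ ≤ X0 M ℓ e * (V1 δ ℓ e ^ #H * (ε₁ / 2)) := hremcond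
      _ ≤ X0 M ℓ e * (V1 δ ℓ e ^ #Hb * (ε₁ / 2)) := by
          apply mul_le_mul_of_nonneg_left _ hX0
          exact mul_le_mul_of_nonneg_right hVb (by linarith)

end Pool.Agent.H81.CC
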